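import Pool.Agent.LR.Defs

/-! # LR project, block B3: cells, `C^{1,1}` functions. -/

set_option autoImplicit false

noncomputable section

open scoped BigOperators Topology
open MeasureTheory Filter Set

namespace Pool.Agent.LR.B3

/-- The site of the cell containing `z` at scale `n`. -/
def fl (n : ℕ) (z : P) : V := (⌊(n : ℝ) * z.1⌋, ⌊(n : ℝ) * z.2⌋)

/-- `C^{1,1}` functions with constant `B` (sup norm on `P`). -/
structure C11 (B : ℝ) (W : P → ℝ) : Prop where
  diff : Differentiable ℝ W
  bd : ∀ z, ‖fderiv ℝ W z‖ ≤ B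
  lip : ∀ z w, ‖fderiv ℝ W z - fderiv ℝ W w‖ ≤ B * ‖z - w‖

/-- The cell of the site `x`. -/
def cellS (n : ℕ) (x : V) : Set P :=
  Set.Ico ((x.1 : ℝ) / n) (((x.1 : ℝ) + 1) / n) ×ˢ Set.Ico ((x.2 : ℝ) / n) (((x.2 : ℝ) + 1) / n)

lemma mem_cellS {n : ℕ} (hn : 0 < n) (x : V) (z : P) : z ∈ cellS n x ↔ fl n z = x := by
  have hn' : (0 : ℝ) < n := by exact_mod_cast hn
  unfold cellS fl
  rw [Set.mem_prod, Set.mem_Ico, Set.mem_Ico, Prod.ext_iff]
  simp only [Int.floor_eq_iff]
  rw [div_le_iff₀ hn', div_le_iff₀ hn', lt_div_iff₀ hn', lt_div_iff₀ hn']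
  constructor
  · rintro ⟨⟨h1, h2⟩, h3, h4⟩
    exact ⟨⟨by linarith, by linarith⟩, by linarith, by linarith⟩
  · rintro ⟨⟨h1, h2⟩, h3, h4⟩
    exact ⟨⟨by linarith, by linarith⟩, by linarith, by linarith⟩

lemma measurableSet_cellS (n : ℕ) (x : V) : MeasurableSet (cellS n x) :=
  measurableSet_Ico.prod measurableSet_Ico

lemma volume_cellS {n : ℕ} (hn : 0 < n) (x : V) :
    volume (cellS n x) = ENNReal.ofReal (1 / (n : ℝ) ^ 2) := by
  have hn' : (0 : ℝ) < n := by exact_mod_cast hn
  unfold cellS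
  rw [Measure.volume_eq_prod, Measure.prod_prod, Real.volume_Ico, Real.volume_Ico,
    ← ENNReal.ofReal_mul]
  · congr 1
    field_simp
    ring
  · rw [sub_nonneg]
    exact div_le_div_of_nonneg_right (by linarith) hn'.le

lemma volume_real_cellS {n : ℕ} (hn : 0 < n) (x : V) :
    volume.real (cellS n x) = 1 / (n : ℝ) ^ 2 := by
  rw [measureReal_def, volume_cellS hn, ENNReal.toReal_ofReal (by positivity)]

lemma measurable_fl (n : ℕ) : Measurable (fl n) := by
  unfold fl
  fun_prop

/-- The cell map is `1/n` close to the identity. -/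
lemma norm_sc_fl {n : ℕ} (hn : 0 < n) (z : P) : ‖sc n (fl n z) - z‖ ≤ 1 / n := by
  have hn' : (0 : ℝ) < n := by exact_mod_cast hn
  rw [Prod.norm_def]
  unfold sc fl
  simp only [Prod.fst_sub, Prod.snd_sub, Real.norm_eq_abs]
  have key : ∀ t : ℝ, |(⌊(n : ℝ) * t⌋ : ℝ) / n - t| ≤ 1 / n := by
    intro t
    have h1 := Int.floor_le ((n : ℝ) * t)
    have h2 := Int.lt_floor_add_one ((n : ℝ) * t)
    have h3 : (⌊(n : ℝ) * t⌋ : ℝ) / n - t = (⌊(n : ℝ) * t⌋ - n * t) / n := by
      field_simp
    rw [h3, abs_div, abs_of_pos hn']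
    refine div_le_div_of_nonneg_right ?_ hn'.le
    rw [abs_le]
    constructor <;> linarith
  exact max_le (key _) (key _)

/-- Sum over sites = integral of the step function, general form. -/
lemma integral_cells {n : ℕ} (hn : 0 < n) (S : Finset V) (G : V → P → ℝ)
    (hG : ∀ x ∈ S, IntegrableOn (G x) (cellS n x)) (h0 : ∀ x, x ∉ S → ∀ z ∈ cellS n x, G x z = 0) :
    ∫ z, G (fl n z) z = ∑ x ∈ S, ∫ z in cellS n x, G x z := by
  classical
  have h1 : ∀ z, G (fl n z) z = ∑ x ∈ S, (cellS n x).indicator (G x) z := by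
    intro z
    by_cases hz : fl n z ∈ S
    · rw [Finset.sum_eq_single (fl n z)]
      · rw [Set.indicator_of_mem ((mem_cellS hn _ _).2 rfl)]
      · intro b _ hb
        rw [Set.indicator_of_notMem]
        intro h
        exact hb ((mem_cellS hn _ _).1 h).symm
      · intro h; exact absurd hz h
    · rw [h0 _ hz z ((mem_cellS hn _ _).2 rfl)]
      symm
      refine Finset.sum_eq_zero fun x hx => ?_
      rw [Set.indicator_of_notMem]
      intro h
      rw [(mem_cellS hn _ _).1 h] at hz
      exact hz hx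
  simp_rw [h1]
  rw [integral_finsetSum]
  · refine Finset.sum_congr rfl fun x _ => ?_
    rw [integral_indicator (measurableSet_cellS n x)]
  · intro x hx
    exact (hG x hx).integrable_indicator (measurableSet_cellS n x)

lemma integrable_cells {n : ℕ} (hn : 0 < n) (S : Finset V) (G : V → P → ℝ)
    (hG : ∀ x ∈ S, IntegrableOn (G x) (cellS n x)) (h0 : ∀ x, x ∉ S → ∀ z ∈ cellS n x, G x z = 0) :
    Integrable (fun z => G (fl n z) z) := by
  classical
  have h1 : ∀ z, G (fl n z) z = ∑ x ∈ S, (cellS n x).indicator (G x) z := by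
    intro z
    by_cases hz : fl n z ∈ S
    · rw [Finset.sum_eq_single (fl n z)]
      · rw [Set.indicator_of_mem ((mem_cellS hn _ _).2 rfl)]
      · intro b _ hb
        rw [Set.indicator_of_notMem]
        intro h
        exact hb ((mem_cellS hn _ _).1 h).symm
      · intro h; exact absurd hz h
    · rw [h0 _ hz z ((mem_cellS hn _ _).2 rfl)]
      symm
      refine Finset.sum_eq_zero fun x hx => ?_
      rw [Set.indicator_of_notMem]
      intro h
      rw [(mem_cellS hn _ _).1 h] at hz
      exact hz hx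
  simp_rw [h1]
  refine integrable_finsetSum _ fun x hx => ?_
  exact (hG x hx).integrable_indicator (measurableSet_cellS n x)

/-- Sum over sites = integral of the step function. -/
lemma integral_fl {n : ℕ} (hn : 0 < n) (S : Finset V) (g : V → ℝ) (hg : Supp S g) :
    ∫ z, g (fl n z) = (∑ x ∈ S, g x) / (n : ℝ) ^ 2 := by
  have h := integral_cells hn S (fun x _ => g x)
    (fun x _ => by
      refine integrableOn_const ?_
      rw [volume_cellS hn]; exact ENNReal.ofReal_ne_top)
    (fun x hx z _ => hg x hx)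
  rw [h, Finset.sum_div]
  refine Finset.sum_congr rfl fun x _ => ?_
  rw [setIntegral_const, volume_real_cellS hn, smul_eq_mul]
  ring

lemma integrable_fl {n : ℕ} (hn : 0 < n) (S : Finset V) (g : V → ℝ) (hg : Supp S g) :
    Integrable (fun z => g (fl n z)) :=
  integrable_cells hn S (fun x _ => g x)
    (fun x _ => by
      refine integrableOn_const ?_
      rw [volume_cellS hn]; exact ENNReal.ofReal_ne_top)
    (fun x hx z _ => hg x hx)

end Pool.Agent.LR.B3
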