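import Pool.Agent.LR.B3.GamD
import Pool.Agent.LR.B1.Mom

/-! # LR project, block B3: limit of the dual norm in free rectangles. -/

set_option autoImplicit false

noncomputable section

open scoped BigOperators Topology
open MeasureTheory Filter Set

namespace Pool.Agent.LR.B3

/-- A `C²` function can be cut off outside of a rectangle. -/
theorem exists_cutoff {G : P → ℝ} (hG : ContDiff ℝ 2 G) (a b c d : ℝ) :
    ∃ G' : P → ℝ, ContDiff ℝ 2 G' ∧ HasCompactSupport G' ∧ (∀ z ∈ rct a b c d, G' z = G z) ∧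
      ∀ z ∈ rct a b c d, gsq G' z = gsq G z := by
  obtain ⟨K, hK⟩ := (isCompact_rct a b c d).isBounded.exists_norm_le
  have hK0 : 0 < max K 0 + 1 := by positivity
  let χ : ContDiffBump (0 : P) := ⟨max K 0 + 1, max K 0 + 2, hK0, by linarith⟩
  have hχ1 : ∀ z : P, ‖z‖ < max K 0 + 1 → (fun z => χ z * G z) =ᶠ[𝓝 z] G := by
    intro z hz
    have : Metric.ball (0 : P) (max K 0 + 1) ∈ 𝓝 z :=
      Metric.isOpen_ball.mem_nhds (by rw [mem_ball_zero_iff]; exact hz)
    filter_upwards [this] with w hw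
    rw [χ.one_of_mem_closedBall (Metric.ball_subset_closedBall hw), one_mul]
  have hz1 : ∀ z ∈ rct a b c d, ‖z‖ < max K 0 + 1 := fun z hz => by
    have := (hK z hz).trans (le_max_left K 0)
    linarith
  refine ⟨fun z => χ z * G z, ?_, ?_, ?_, ?_⟩
  · exact χ.contDiff.mul hG
  · exact χ.hasCompactSupport.mul_right
  · exact fun z hz => (hχ1 z (hz1 z hz)).self_of_nhds
  · intro z hz
    unfold gsq
    rw [(hχ1 z (hz1 z hz)).fderiv_eq]

/-- Convergence of the free energy of `C²` functions. -/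
theorem qf_smp2 {α β : ℝ} (hα : 4 < α) (hβ : 0 ≤ β) (a b c d : ℝ) {G : P → ℝ}
    (hG : ContDiff ℝ 2 G) :
    Tendsto (fun n => QF α β (bx a b c d n) (smp G n) (smp G n)) atTop
      (𝓝 (cc α β * ∫ z in rct a b c d, gsq G z)) := by
  obtain ⟨G', h1, h2, h3, h4⟩ := exists_cutoff hG a b c d
  obtain ⟨B, hB0, hB⟩ := exists_C11 h1 h2
  have h5 := qf_smp hα hβ a b c d hB
  have e : ∫ z in rct a b c d, gsq G' z = ∫ z in rct a b c d, gsq G z :=
    setIntegral_congr_fun (measurableSet_rct a b c d) fun z hz => h4 z hz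
  rw [e] at h5
  refine h5.congr' ?_
  filter_upwards [eventually_gt_atTop 0] with n hn
  have h6 : ∀ x ∈ bx a b c d n, smp G' n x = smp G n x + 0 := fun x hx => by
    rw [add_zero]; exact h3 _ (sc_mem_rct hn hx)
  exact Qfr_congr h6 h6

/-- The set of values. -/
def vals (α β a b c d : ℝ) (F : P → ℝ) : Set ℝ :=
  {r | ∃ G : P → ℝ, ContDiff ℝ 2 G ∧ r = 2 * (∫ z in rct a b c d, F z * G z) -
    cc α β * (∫ z in rct a b c d, gsq G z)}

/-- The limit of the dual norms. -/
def NN (α β a b c d : ℝ) (F : P → ℝ) : ℝ := sSup (vals α β a b c d F)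

section

variable {α β a b c d : ℝ} {q : ℕ → V → ℝ} {F : P → ℝ}

/-- A priori bound. -/
theorem free_bdd (hβ : 0 < β) (hab : a < b) (hcd : c < d)
    (h : Chg a b c d q F) (hneut : ∀ n, ∑ x ∈ bx a b c d n, q n x = 0) :
    ∃ Bd, ∀ᶠ n : ℕ in atTop, ∀ φ : V → ℝ,
      2 * pr (bx a b c d n) (q n) φ - QF α β (bx a b c d n) φ φ ≤ Bd := by
  classical
  obtain ⟨p, hp, hpo⟩ := poinc_box (α := α) hβ hab hcd
  obtain ⟨C, hC⟩ := h.bd
  obtain ⟨A, hA0, hA⟩ := card_bx_bound a b c d
  have hC0 : 0 ≤ C := by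
    have h1 := hC 1 0
    have h2 := abs_nonneg (q 1 0)
    simp at h1
    linarith
  refine ⟨C ^ 2 * A / p, ?_⟩
  filter_upwards [hpo, eventually_gt_atTop 0] with n hpo hn φ
  have hn' : (0 : ℝ) < n := by exact_mod_cast hn
  set S := bx a b c d n with hS
  set m : ℝ := (∑ x ∈ S, φ x) / S.card with hm
  set φ1 : V → ℝ := fun x => φ x - m with hφ1
  have hsum : ∑ x ∈ S, φ1 x = 0 := by
    rw [hφ1]
    simp only
    rw [Finset.sum_sub_distrib, Finset.sum_const, nsmul_eq_mul]
    by_cases hc : S.card = 0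
    · rw [Finset.card_eq_zero] at hc
      rw [hc]; simp
    · have : (S.card : ℝ) ≠ 0 := by exact_mod_cast hc
      rw [hm]
      field_simp
      ring
  have hpr : pr S (q n) φ1 = pr S (q n) φ := by
    unfold pr
    have e : ∑ x ∈ S, q n x * (φ x - m) = ∑ x ∈ S, q n x * φ x - (∑ x ∈ S, q n x) * m := by
      rw [Finset.sum_mul, ← Finset.sum_sub_distrib]
      exact Finset.sum_congr rfl fun x _ => by ring
    rw [hφ1, e, hneut n]
    ring
  have hQ : QF α β S φ1 φ1 = QF α β S φ φ :=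
    Qfr_congr (c := -m) (d := -m)
      (fun x hx => by rw [hφ1]; ring)
      (fun x hx => by rw [hφ1]; ring)
  rw [← hpr, ← hQ]
  have hP := hpo φ1 hsum
  set N : ℝ := (∑ x ∈ S, φ1 x ^ 2) / (n : ℝ) ^ 2 with hN
  have hN0 : 0 ≤ N := div_nonneg (Finset.sum_nonneg fun _ _ => sq_nonneg _) (by positivity)
  have hprN : |pr S (q n) φ1| ≤ C * Real.sqrt (A * N) :=
    pr_abs_le hn hC0 (hA n hn) (hC n) le_rfl
  have hprN' := (abs_le.1 hprN).2
  have h1 : Real.sqrt (A * N) = Real.sqrt A * Real.sqrt N := Real.sqrt_mul hA0 N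
  have h3 : Real.sqrt N * Real.sqrt N = N := Real.mul_self_sqrt hN0
  have h4 : Real.sqrt A * Real.sqrt A = A := Real.mul_self_sqrt hA0
  rw [h1] at hprN'
  rw [le_div_iff₀ hp]
  have h5 : 0 ≤ (C * Real.sqrt A - p * Real.sqrt N) ^ 2 := sq_nonneg _
  have h6 : (C * Real.sqrt A - p * Real.sqrt N) ^ 2 =
      C ^ 2 * (Real.sqrt A * Real.sqrt A) - 2 * p * (C * (Real.sqrt A * Real.sqrt N)) +
        p ^ 2 * (Real.sqrt N * Real.sqrt N) := by ring
  rw [h6, h3, h4] at h5
  nlinarith

/-- Convergence of the functional at a `C²` function. -/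
theorem free_val (hα : 4 < α) (hβ : 0 < β) (h : Chg a b c d q F) {G : P → ℝ}
    (hG : ContDiff ℝ 2 G) :
    Tendsto (fun n => 2 * pr (bx a b c d n) (q n) (smp G n) -
      QF α β (bx a b c d n) (smp G n) (smp G n)) atTop
      (𝓝 (2 * (∫ z in rct a b c d, F z * G z) - cc α β * (∫ z in rct a b c d, gsq G z))) :=
  ((h.pair_cont hG.continuous).const_mul 2).sub (qf_smp2 hα hβ.le a b c d hG)

theorem vals_bdd (hα : 4 < α) (hβ : 0 < β) (hab : a < b) (hcd : c < d)
    (h : Chg a b c d q F) (hneut : ∀ n, ∑ x ∈ bx a b c d n, q n x = 0) :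
    BddAbove (vals α β a b c d F) := by
  obtain ⟨Bd, hBd⟩ := free_bdd (α := α) hβ hab hcd h hneut
  refine ⟨Bd, ?_⟩
  rintro r ⟨G, hG, rfl⟩
  refine le_of_tendsto (free_val hα hβ h hG) ?_
  filter_upwards [hBd] with n hn using hn _

lemma vals_nonempty : (vals α β a b c d F).Nonempty := ⟨_, fun _ => 0, contDiff_const, rfl⟩

theorem le_NN (hα : 4 < α) (hβ : 0 < β) (hab : a < b) (hcd : c < d)
    (h : Chg a b c d q F) (hneut : ∀ n, ∑ x ∈ bx a b c d n, q n x = 0) {G : P → ℝ}
    (hG : ContDiff ℝ 2 G) : 2 * (∫ z in rct a b c d, F z * G z) -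
      cc α β * (∫ z in rct a b c d, gsq G z) ≤ NN α β a b c d F :=
  le_csSup (vals_bdd hα hβ hab hcd h hneut) ⟨G, hG, rfl⟩

theorem NN_nonneg (hα : 4 < α) (hβ : 0 < β) (hab : a < b) (hcd : c < d)
    (h : Chg a b c d q F) (hneut : ∀ n, ∑ x ∈ bx a b c d n, q n x = 0) :
    0 ≤ NN α β a b c d F := by
  have := le_NN hα hβ hab hcd h hneut (G := fun _ => 0) contDiff_const
  unfold gsq at this
  simpa using this

lemma pr_erase {S : Finset V} {r : V} (q : V → ℝ) {φ : V → ℝ} (hφ : Supp (S.erase r) φ) :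
    pr (S.erase r) q φ = pr S q φ :=
  pr_eq_of_supp (Finset.erase_subset _ _) q hφ

lemma pdef_QF_erase' {α β : ℝ} (hβ : 0 < β) (S : Finset V) :
    PDef (QF α β S) (S.erase (root S)) := by
  by_cases hS : S.Nonempty
  · have : root S ∈ S := by
      unfold root
      rw [dif_pos hS]
      exact hS.choose_spec
    exact pdef_QF_erase hβ this
  · rw [Finset.not_nonempty_iff_eq_empty] at hS
    intro f hf h0
    exfalso
    apply h0
    funext x
    exact hf x (by rw [hS]; simp)

/-- The potential of a neutral charge tests all functions. -/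
theorem pot_all {α β : ℝ} {S : Finset V} (hS : S.Nonempty) {q u : V → ℝ}
    (hq : ∑ x ∈ S, q x = 0) (hu : IsPot (QF α β S) (S.erase (root S)) q u) (g : V → ℝ) :
    QF α β S u g = pr S q g := by
  classical
  have hr : root S ∈ S := by
    unfold root
    rw [dif_pos hS]
    exact hS.choose_spec
  set g' : V → ℝ := fun x => if x ∈ S then g x - g (root S) else 0 with hg'
  have hsup : Supp (S.erase (root S)) g' := by
    intro x hx
    rw [hg']
    simp only
    split_ifs with hxS
    · have : x = root S := by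
        by_contra hne
        exact hx (Finset.mem_erase.2 ⟨hne, hxS⟩)
      rw [this, sub_self]
    · rfl
  have h1 : QF α β S u g = QF α β S u g' :=
    Qfr_congr (c := 0) (d := g (root S)) (fun x _ => by ring)
      (fun x hx => by rw [hg']; simp only; rw [if_pos hx]; ring)
  rw [h1, hu.2 g' hsup, pr_erase q hsup]
  unfold pr
  have h2 : ∑ x ∈ S, q x * g' x = ∑ x ∈ S, (q x * g x - q x * g (root S)) := by
    refine Finset.sum_congr rfl fun x hx => ?_
    rw [hg']; simp only; rw [if_pos hx]; ring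
  rw [h2, Finset.sum_sub_distrib, ← Finset.sum_mul, hq, zero_mul, sub_zero]

lemma bx_nonempty (hab : a < b) (hcd : c < d) : ∀ᶠ n : ℕ in atTop, (bx a b c d n).Nonempty := by
  have h := ev_mem_bx' (a := a) (b := b) (c := c) (d := d) (z := ((a + b) / 2, (c + d) / 2)) (by
    rw [mem_rco]
    exact ⟨⟨by simp only; linarith, by simp only; linarith⟩, by simp only; linarith,
      by simp only; linarith⟩)
  filter_upwards [h] with n hn using ⟨_, hn⟩

/-- **Limit of the energy of the potentials.** -/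
theorem pot_lim (hα : 4 < α) (hβ : 0 < β) (hab : a < b) (hcd : c < d)
    (h : Chg a b c d q F) (hneut : ∀ n, ∑ x ∈ bx a b c d n, q n x = 0) {u : ℕ → V → ℝ}
    (hu : ∀ n, IsPot (QF α β (bx a b c d n)) ((bx a b c d n).erase (root (bx a b c d n)))
      (q n) (u n)) :
    Tendsto (fun n => QF α β (bx a b c d n) (u n) (u n)) atTop (𝓝 (NN α β a b c d F)) := by
  rw [tendsto_order]
  constructor
  · intro l hl
    obtain ⟨r, ⟨G, hG, rfl⟩, hr⟩ := exists_lt_of_lt_csSup vals_nonempty hl
    have h1 := (free_val hα hβ h hG).eventually (lt_mem_nhds hr)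
    filter_upwards [h1, bx_nonempty hab hcd] with n h1 hne
    have hM := isForm_QF (α := α) hβ.le (bx a b c d n)
    have h2 := hM.nonneg (smp G n - u n)
    have h3 : QF α β (bx a b c d n) (smp G n - u n) (smp G n - u n) =
        QF α β (bx a b c d n) (smp G n) (smp G n) -
        2 * QF α β (bx a b c d n) (u n) (smp G n) + QF α β (bx a b c d n) (u n) (u n) := by
      rw [hM.sub_sq, hM.symm (smp G n) (u n)]
    rw [h3, pot_all hne (hneut n) (hu n)] at h2
    linarith
  · intro v hv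
    have h1 := free_upper hα hβ hab hcd h hneut (v := NN α β a b c d F)
      (fun G hG => le_NN hα hβ hab hcd h hneut hG)
      (ε := (v - NN α β a b c d F) / 2) (by linarith)
    filter_upwards [h1, bx_nonempty hab hcd] with n h1 hne
    have h2 := h1 (u n)
    rw [← pot_all hne (hneut n) (hu n)] at h2
    linarith

/-- Near-maximisers are close to the potentials. -/
theorem pot_close (hα : 4 < α) (hβ : 0 < β) (hab : a < b) (hcd : c < d)
    (h : Chg a b c d q F) (hneut : ∀ n, ∑ x ∈ bx a b c d n, q n x = 0) {u : ℕ → V → ℝ}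
    (hu : ∀ n, IsPot (QF α β (bx a b c d n)) ((bx a b c d n).erase (root (bx a b c d n)))
      (q n) (u n)) {e : ℝ} (he : 0 < e) :
    ∃ G : P → ℝ, ContDiff ℝ 2 G ∧ ∀ᶠ n in atTop,
      QF α β (bx a b c d n) (u n - smp G n) (u n - smp G n) < e := by
  obtain ⟨r, ⟨G, hG, rfl⟩, hr⟩ := exists_lt_of_lt_csSup (s := vals α β a b c d F) vals_nonempty
    (show NN α β a b c d F - e < sSup (vals α β a b c d F) by unfold NN; linarith)
  refine ⟨G, hG, ?_⟩
  have h1 := (pot_lim hα hβ hab hcd h hneut hu).sub (free_val hα hβ h hG)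
  have h2 := h1.eventually (gt_mem_nhds (show NN α β a b c d F -
    (2 * (∫ z in rct a b c d, F z * G z) - cc α β * (∫ z in rct a b c d, gsq G z)) < e by linarith))
  filter_upwards [h2, bx_nonempty hab hcd] with n h2 hne
  have hM := isForm_QF (α := α) hβ.le (bx a b c d n)
  have h3 : QF α β (bx a b c d n) (u n - smp G n) (u n - smp G n) =
      QF α β (bx a b c d n) (smp G n) (smp G n) -
      2 * QF α β (bx a b c d n) (u n) (smp G n) + QF α β (bx a b c d n) (u n) (u n) := by
    rw [hM.sub_sq]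
    ring
  rw [h3, pot_all hne (hneut n) (hu n)]
  linarith

end

end Pool.Agent.LR.B3
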