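import Pool.Agent.LR.Defs
import Pool.Agent.LR.B3Mgf

/-! # LR project, block B3: `mgf_char` (interface form of 1.9). -/

set_option autoImplicit false

open scoped BigOperators Topology NNReal
open MeasureTheory Filter Set

namespace Pool.Agent.LR

/-- 1.9: convergence of moment generating functions to a Gaussian one. Sequence of probability
measures on `ℝ`. -/
theorem mgf_char (μ : ℕ → Measure ℝ) (hμ : ∀ n, IsProbabilityMeasure (μ n)) (v : ℝ)
    (hi : ∀ n s, Integrable (fun x => Real.exp (s * x)) (μ n))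
    (hm : ∀ s : ℝ, Tendsto (fun n => ∫ x, Real.exp (s * x) ∂(μ n)) atTop
      (𝓝 (Real.exp (v * s ^ 2 / 2)))) (t : ℝ) :
    Tendsto (fun n => ∫ x, Complex.exp (Complex.I * t * x) ∂(μ n)) atTop
      (𝓝 (Complex.exp (-(v * t ^ 2 / 2)))) := by
  -- `v ≥ 0` by `cosh ≥ 1`
  have hv : 0 ≤ v := by
    have h1 : Tendsto (fun n => ∫ x, Real.exp (1 * x) ∂(μ n) + ∫ x, Real.exp ((-1) * x) ∂(μ n))
        atTop (𝓝 (Real.exp (v * 1 ^ 2 / 2) + Real.exp (v * (-1) ^ 2 / 2))) := (hm 1).add (hm (-1))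
    have h2 : ∀ n, 2 ≤ ∫ x, Real.exp (1 * x) ∂(μ n) + ∫ x, Real.exp ((-1) * x) ∂(μ n) := by
      intro n
      have := hμ n
      rw [← integral_add (hi n 1) (hi n (-1))]
      have h3 : ∫ x : ℝ, (2 : ℝ) ∂(μ n) = 2 := by simp
      rw [← h3]
      refine integral_mono (integrable_const _) ((hi n 1).add (hi n (-1))) fun x => ?_
      show (2 : ℝ) ≤ Real.exp (1 * x) + Real.exp ((-1) * x)
      have := Real.one_le_cosh x
      rw [Real.cosh_eq] at this
      simp only [one_mul, neg_mul]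
      linarith
    have h3 : (2 : ℝ) ≤ Real.exp (v * 1 ^ 2 / 2) + Real.exp (v * (-1) ^ 2 / 2) :=
      ge_of_tendsto h1 (Eventually.of_forall h2)
    have h4 : (1 : ℝ) ≤ Real.exp (v / 2) := by
      have e1 : v * 1 ^ 2 / 2 = v / 2 := by ring
      have e2 : v * (-1) ^ 2 / 2 = v / 2 := by ring
      rw [e1, e2] at h3
      linarith
    have := Real.one_le_exp_iff.1 h4
    linarith
  let ν : ℕ → ProbabilityMeasure ℝ := fun n => ⟨μ n, hμ n⟩
  have h := tendsto_charFun_of_mgf ν ⟨v, hv⟩ (fun n s => hi n s) (fun s => hm s) t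
  refine (h.congr fun n => ?_)
  show ∫ x : ℝ, Complex.exp (t * x * Complex.I) ∂(μ n) = _
  refine integral_congr_ae (Eventually.of_forall fun x => ?_)
  show Complex.exp (t * x * Complex.I) = Complex.exp (Complex.I * t * x)
  ring_nf

end Pool.Agent.LR
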