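import Pool.Agent.LR.IDefs
import Pool.Agent.LR.B3.MgfChar
import Pool.Agent.LR.B3.FreeLim

/-! # LR project, block B3: `char_free` (4.5). -/

set_option autoImplicit false

noncomputable section

open scoped BigOperators Topology
open MeasureTheory Filter Set

namespace Pool.Agent.LR.B3

/-- Law of a real random variable on a weighted countable space. -/
theorem push1 {ι : Type*} [Countable ι] (p : ι → ℝ) (hp : ∀ i, 0 ≤ p i)
    (hs : Summable p) (hpos : 0 < ∑' i, p i) (X : ι → ℝ) :
    ∃ ν : Measure ℝ, IsProbabilityMeasure ν ∧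
      (∀ G : ℝ → ℝ, ∫ x, G x ∂ν = (∑' i, p i * G (X i)) / ∑' i, p i) ∧
      (∀ G : ℝ → ℂ, ∫ x, G x ∂ν = (∑' i, (p i : ℂ) * G (X i)) / ((∑' i, p i : ℝ) : ℂ)) ∧
      (∀ G : ℝ → ℝ, Summable (fun i => p i * |G (X i)|) → Integrable G ν) := by
  have hZ : ∀ i, 0 ≤ p i / ∑' i, p i := fun i => div_nonneg (hp i) hpos.le
  have hsum : Summable fun i => p i / ∑' i, p i := hs.div_const _
  have hprob : IsProbabilityMeasure (Measure.sum
      (fun i => ENNReal.ofReal (p i / ∑' i, p i) • Measure.dirac (X i))) := by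
    constructor
    rw [Measure.sum_apply _ MeasurableSet.univ]
    have h1 : ∀ i, (ENNReal.ofReal (p i / ∑' i, p i) • Measure.dirac (X i)) Set.univ =
        ENNReal.ofReal (p i / ∑' i, p i) := by
      intro i
      rw [Measure.smul_apply, measure_univ, smul_eq_mul, mul_one]
    simp_rw [h1]
    rw [← ENNReal.ofReal_tsum_of_nonneg hZ hsum, tsum_div_const, div_self hpos.ne',
      ENNReal.ofReal_one]
  refine ⟨_, hprob, ?_, ?_, ?_⟩
  · intro G
    rw [integral_sum_dirac (fun i => ENNReal.ofReal_ne_top)]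
    have h2 : ∀ i, (ENNReal.ofReal (p i / ∑' i, p i)).toReal • G (X i) =
        p i * G (X i) / ∑' i, p i := by
      intro i
      rw [ENNReal.toReal_ofReal (hZ i), smul_eq_mul]
      ring
    simp_rw [h2]
    rw [tsum_div_const]
  · intro G
    rw [integral_sum_dirac (fun i => ENNReal.ofReal_ne_top)]
    have h2 : ∀ i, (ENNReal.ofReal (p i / ∑' i, p i)).toReal • G (X i) =
        (p i : ℂ) * G (X i) / ((∑' i, p i : ℝ) : ℂ) := by
      intro i
      rw [ENNReal.toReal_ofReal (hZ i), Complex.real_smul, Complex.ofReal_div]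
      ring
    simp_rw [h2]
    rw [tsum_div_const]
  · intro G hG
    refine integrable_sum_dirac (fun i => ENNReal.ofReal_ne_top) ?_
    have h2 : ∀ i, (ENNReal.ofReal (p i / ∑' i, p i)).toReal * ‖G (X i)‖ =
        p i * |G (X i)| / ∑' i, p i := by
      intro i
      rw [ENNReal.toReal_ofReal (hZ i), Real.norm_eq_abs]
      ring
    simp_rw [h2]
    exact hG.div_const _

section

variable {α β κ a b c d : ℝ} {q : ℕ → V → ℝ} {F : P → ℝ}

/-- Limit of the energy functional at `H_n + s u_n`. -/
theorem en_lim (hα : 4 < α) (hβ : 0 < β) (hκ : KapSpec α β κ) (hab : a < b) (hcd : c < d)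
    (h : Chg a b c d q F) (hneut : ∀ n, ∑ x ∈ bx a b c d n, q n x = 0) {u : ℕ → V → ℝ}
    (hu : ∀ n, IsPot (QF α β (bx a b c d n)) ((bx a b c d n).erase (root (bx a b c d n)))
      (q n) (u n)) {H : P → ℝ} (hH : ContDiff ℝ 2 H) (hFH : ∫ z in rct a b c d, F z * H z = 0)
    (s : ℝ) :
    Tendsto (fun n => 2 * En (QF α β (bx a b c d n)) ((bx a b c d n).erase (root (bx a b c d n)))
      (smp H n + s • u n)) atTop
      (𝓝 (κ / cc α β * (cc α β * (∫ z in rct a b c d, gsq H z) + s ^ 2 * NN α β a b c d F))) := by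
  have hcc := cc_pos hα hβ
  have hκ0 := hκ.nonneg
  have hκ1 : κ / cc α β ≤ 1 := by rw [div_le_one hcc]; exact hκ.le
  have hκ2 : 0 ≤ κ / cc α β := by positivity
  set M : ℕ → BF V := fun n => QF α β (bx a b c d n) with hMdef
  set O : ℕ → Finset V := fun n => (bx a b c d n).erase (root (bx a b c d n)) with hOdef
  have hM : ∀ n, IsForm (M n) := fun n => isForm_QF hβ.le _
  have hP : ∀ n, PDef (M n) (O n) := fun n => pdef_QF_erase' hβ _
  set X : ℕ → ℝ := fun n => Real.sqrt (2 * En (M n) (O n) (smp H n + s • u n)) with hX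
  set Y : ℕ → ℝ := fun n => Real.sqrt (κ / cc α β) *
    Real.sqrt (M n (smp H n + s • u n) (smp H n + s • u n)) with hY
  -- the energy of `H_n + s u_n`
  have hQlim : Tendsto (fun n => M n (smp H n + s • u n) (smp H n + s • u n)) atTop
      (𝓝 (cc α β * (∫ z in rct a b c d, gsq H z) + s ^ 2 * NN α β a b c d F)) := by
    have h1 := qf_smp2 hα hβ.le a b c d hH
    have h2 := h.pair_cont hH.continuous
    rw [hFH] at h2
    have h3 := pot_lim hα hβ hab hcd h hneut hu
    have h4 := (h1.add (h2.const_mul (2 * s))).add (h3.const_mul (s ^ 2))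
    rw [mul_zero, add_zero] at h4
    refine h4.congr' ?_
    filter_upwards [bx_nonempty hab hcd] with n hne
    have h5 := pot_all hne (hneut n) (hu n) (smp H n)
    have h6 : M n (smp H n + s • u n) (smp H n + s • u n) = M n (smp H n) (smp H n) +
        2 * s * M n (u n) (smp H n) + s ^ 2 * M n (u n) (u n) := by
      rw [(hM n).add_sq, map_smul, map_smul, map_smul, LinearMap.smul_apply,
        (hM n).symm (smp H n) (u n)]
      simp only [smul_eq_mul]
      ring
    rw [h6]
    show _ = M n (smp H n) (smp H n) + 2 * s * QF α β (bx a b c d n) (u n) (smp H n) +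
      s ^ 2 * M n (u n) (u n)
    rw [h5]
  have hYlim : Tendsto Y atTop (𝓝 (Real.sqrt (κ / cc α β) *
      Real.sqrt (cc α β * (∫ z in rct a b c d, gsq H z) + s ^ 2 * NN α β a b c d F))) :=
    ((Real.continuous_sqrt.tendsto _).comp hQlim).const_mul _
  -- `X - Y → 0`
  have hXY : Tendsto (fun n => X n - Y n) atTop (𝓝 0) := by
    rw [Metric.tendsto_nhds]
    intro ε hε
    set e : ℝ := (ε / (4 * (|s| + 1))) ^ 2 with he
    have he0 : 0 < e := by positivity
    obtain ⟨G, hG, hGn⟩ := pot_close hα hβ hab hcd h hneut hu he0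
    have hHG : ContDiff ℝ 2 (fun z => H z + s * G z) := hH.add (contDiff_const.mul hG)
    have k1 := hκ.ta a b c d hab hcd _ hHG
    have k2 := qf_smp2 hα hβ.le a b c d hHG
    set D := ∫ z in rct a b c d, gsq (fun z => H z + s * G z) z with hD
    have k1' : Tendsto (fun n => Real.sqrt (2 * Efr (JJ α β) (bx a b c d n)
        (smp (fun z => H z + s * G z) n))) atTop (𝓝 (Real.sqrt (2 * (κ / 2 * D)))) :=
      (Real.continuous_sqrt.tendsto _).comp (k1.const_mul 2)
    have k2' : Tendsto (fun n => Real.sqrt (κ / cc α β) * Real.sqrt (QF α β (bx a b c d n)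
        (smp (fun z => H z + s * G z) n) (smp (fun z => H z + s * G z) n))) atTop
        (𝓝 (Real.sqrt (κ / cc α β) * Real.sqrt (cc α β * D))) :=
      ((Real.continuous_sqrt.tendsto _).comp k2).const_mul _
    have e1 : Real.sqrt (2 * (κ / 2 * D)) = Real.sqrt (κ / cc α β) * Real.sqrt (cc α β * D) := by
      rw [← Real.sqrt_mul hκ2]
      congr 1
      field_simp
    have k3 := k1'.sub k2'
    rw [e1, sub_self] at k3
    have k4 := (Metric.tendsto_nhds.1 k3) (ε / 4) (by positivity)
    filter_upwards [hGn, k4] with n hGn k4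
    rw [Real.dist_eq, sub_zero] at k4 ⊢
    have e2 : smp (fun z => H z + s * G z) n = smp H n + s • smp G n := rfl
    rw [e2] at k4
    have e3 : Efr (JJ α β) (bx a b c d n) (smp H n + s • smp G n) =
        En (M n) (O n) (smp H n + s • smp G n) := rfl
    rw [e3] at k4
    -- differences
    have e4 : smp H n + s • u n - (smp H n + s • smp G n) = s • (u n - smp G n) := by
      rw [smul_sub]; abel
    have e5 : M n (s • (u n - smp G n)) (s • (u n - smp G n)) =
        s ^ 2 * M n (u n - smp G n) (u n - smp G n) := by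
      rw [map_smul, map_smul, LinearMap.smul_apply]
      simp only [smul_eq_mul]
      ring
    have k5 : Real.sqrt (M n (s • (u n - smp G n)) (s • (u n - smp G n))) ≤ ε / 4 := by
      rw [e5]
      have k6 : s ^ 2 * M n (u n - smp G n) (u n - smp G n) ≤ s ^ 2 * e :=
        mul_le_mul_of_nonneg_left hGn.le (sq_nonneg _)
      have k7 : s ^ 2 * e ≤ (ε / 4) ^ 2 := by
        rw [he]
        have k8 : |s| * (ε / (4 * (|s| + 1))) ≤ ε / 4 := by
          rw [mul_div_assoc', div_le_div_iff₀ (by positivity) (by positivity)]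
          have := abs_nonneg s
          nlinarith
        have k9 : s ^ 2 * (ε / (4 * (|s| + 1))) ^ 2 = (|s| * (ε / (4 * (|s| + 1)))) ^ 2 := by
          rw [mul_pow, sq_abs]
        rw [k9]
        exact pow_le_pow_left₀ (by positivity) k8 2
      exact Real.sqrt_le_iff.2 ⟨by positivity, k6.trans k7⟩
    have m1 := En_sqrt_lip (hM n) (hP n) (smp H n + s • u n) (smp H n + s • smp G n)
    rw [e4] at m1
    have m2 : |Real.sqrt (M n (smp H n + s • u n) (smp H n + s • u n)) -
        Real.sqrt (M n (smp H n + s • smp G n) (smp H n + s • smp G n))| ≤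
        Real.sqrt (M n (s • (u n - smp G n)) (s • (u n - smp G n))) := by
      have t1 := (hM n).tri (smp H n + s • smp G n) (s • (u n - smp G n))
      have t2 := (hM n).tri (smp H n + s • u n) (-(s • (u n - smp G n)))
      have f1 : smp H n + s • smp G n + s • (u n - smp G n) = smp H n + s • u n := by
        rw [smul_sub]; abel
      have f2 : smp H n + s • u n + -(s • (u n - smp G n)) = smp H n + s • smp G n := by
        rw [smul_sub]; abel
      have f3 : M n (-(s • (u n - smp G n))) (-(s • (u n - smp G n))) =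
          M n (s • (u n - smp G n)) (s • (u n - smp G n)) := by
        rw [map_neg, map_neg, LinearMap.neg_apply, neg_neg]
      rw [f1] at t1
      rw [f2, f3] at t2
      rw [abs_le]
      constructor <;> linarith
    have m3 : |Y n - Real.sqrt (κ / cc α β) *
        Real.sqrt (M n (smp H n + s • smp G n) (smp H n + s • smp G n))| ≤ ε / 4 := by
      rw [hY]
      simp only
      rw [← mul_sub, abs_mul, abs_of_nonneg (Real.sqrt_nonneg _)]
      have t1 : Real.sqrt (κ / cc α β) ≤ 1 := by
        rw [Real.sqrt_le_one]; exact hκ1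
      calc Real.sqrt (κ / cc α β) * |Real.sqrt (M n (smp H n + s • u n) (smp H n + s • u n)) -
            Real.sqrt (M n (smp H n + s • smp G n) (smp H n + s • smp G n))|
          ≤ 1 * (ε / 4) := mul_le_mul t1 (m2.trans k5) (abs_nonneg _) zero_le_one
        _ = ε / 4 := one_mul _
    have m1' := m1.trans k5
    rw [abs_le] at m1' m3
    rw [abs_lt] at k4 ⊢
    have k4' : M n = QF α β (bx a b c d n) := rfl
    rw [k4'] at m3 m1'
    constructor
    · show -ε < X n - Y n
      rw [hX]
      simp only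
      rw [k4']
      linarith [k4.1, m1'.1, m3.2]
    · show X n - Y n < ε
      rw [hX]
      simp only
      rw [k4']
      linarith [k4.2, m1'.2, m3.1]
  have hXlim : Tendsto X atTop (𝓝 (Real.sqrt (κ / cc α β) *
      Real.sqrt (cc α β * (∫ z in rct a b c d, gsq H z) + s ^ 2 * NN α β a b c d F))) := by
    have := hXY.add hYlim
    rw [zero_add] at this
    refine this.congr fun n => by ring
  have h7 := hXlim.pow 2
  have hN0 := NN_nonneg hα hβ hab hcd h hneut
  have hg0 : 0 ≤ ∫ z in rct a b c d, gsq H z :=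
    integral_nonneg fun z => add_nonneg (sq_nonneg _) (sq_nonneg _)
  rw [mul_pow, Real.sq_sqrt hκ2, Real.sq_sqrt (by positivity)] at h7
  refine h7.congr fun n => ?_
  rw [hX]
  simp only
  rw [Real.sq_sqrt]
  have := En_nonneg (hM n) (hP n) (smp H n + s • u n)
  linarith

/-- Laplace functional of the charge, exact formula. -/
theorem exp_lap (hβ : 0 < β) {S : Finset V} (hS : S.Nonempty) {f u : V → ℝ}
    (hf : ∑ x ∈ S, f x = 0) (hu : IsPot (QF α β S) (S.erase (root S)) f u) (h : V → ℝ) (s : ℝ) :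
    Ex (QF α β S) (S.erase (root S)) h
      (fun ψ => Real.exp (s * pr S f (emb (S.erase (root S)) ψ))) =
    Real.exp (s * pr S f h + (s ^ 2 * QF α β S u u / 2 -
      En (QF α β S) (S.erase (root S)) (h + s • u) + En (QF α β S) (S.erase (root S)) h)) := by
  have hM := isForm_QF (α := α) hβ.le S
  have hP := pdef_QF_erase' (α := α) hβ S
  have h1 := Ex_exp hM hP h (s • u)
  have e1 : QF α β S (s • u) (s • u) = s ^ 2 * QF α β S u u := by
    rw [map_smul, map_smul, LinearMap.smul_apply]
    simp only [smul_eq_mul]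
    ring
  rw [e1] at h1
  rw [Real.exp_add (s * pr S f h), ← h1]
  have e2 : ∀ ψ : (S.erase (root S)) → ℤ,
      Real.exp (s * pr S f (emb (S.erase (root S)) ψ)) =
      Real.exp (s * pr S f h) * Real.exp (QF α β S (emb (S.erase (root S)) ψ - h) (s • u)) := by
    intro ψ
    rw [← Real.exp_add]
    congr 1
    rw [map_smul, smul_eq_mul, hM.symm, pot_all hS hf hu]
    have : pr S f (emb (S.erase (root S)) ψ - h) =
        pr S f (emb (S.erase (root S)) ψ) - pr S f h := by
      unfold pr
      rw [← Finset.sum_sub_distrib]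
      refine Finset.sum_congr rfl fun x _ => ?_
      rw [Pi.sub_apply]; ring
    rw [this]
    ring
  simp_rw [e2]
  unfold Ex
  rw [← mul_div_assoc, ← tsum_mul_left]
  congr 1
  refine tsum_congr fun ψ => by ring

end

end Pool.Agent.LR.B3

namespace Pool.Agent.LR

open B3

/-- 4.5: characteristic functions of neutral macroscopic charges in the free rectangle. -/
theorem char_free {α β κ : ℝ} (hα : 4 < α) (hβ : 0 < β) (hκ : KapSpec α β κ) {a b c d : ℝ}
    (hab : a < b) (hcd : c < d) (q : ℕ → V → ℝ) (F : P → ℝ) (hq : ChgConv a b c d q F) :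
    ∃ N : ℝ, 0 ≤ N ∧
      (∀ G : P → ℝ, ContDiff ℝ 2 G →
        2 * (∫ z in rct a b c d, F z * G z) - cc α β * (∫ z in rct a b c d, gsq G z) ≤ N) ∧
      ∀ H : P → ℝ, ContDiff ℝ 2 H → HasCompactSupport H → tsupport H ⊆ interior (rct a b c d) →
        (∫ z in rct a b c d, F z * H z) = 0 → ∀ θ : ℝ,
        Tendsto (fun n => Exr (JJ α β) (bx a b c d n) (smp H n)
            (fun φ => Real.cos (pr (bx a b c d n) (q n) φ + θ))) atTop
          (𝓝 (Real.cos θ * Real.exp (-((1 - κ / cc α β) / 2 * N)))) := by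
  classical
  have h : Chg a b c d q F := ⟨hq.supp, hq.bd, hq.conv⟩
  have hneut := hq.neut
  have hcc := cc_pos hα hβ
  refine ⟨NN α β a b c d F, NN_nonneg hα hβ hab hcd h hneut,
    fun G hG => le_NN hα hβ hab hcd h hneut hG, ?_⟩
  intro H hH _ _ hFH θ
  set S : ℕ → Finset V := fun n => bx a b c d n with hSdef
  set O : ℕ → Finset V := fun n => (bx a b c d n).erase (root (bx a b c d n)) with hOdef
  have hM : ∀ n, IsForm (QF α β (S n)) := fun n => isForm_QF hβ.le _
  have hP : ∀ n, PDef (QF α β (S n)) (O n) := fun n => pdef_QF_erase' hβ _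
  choose u hu using fun n => exists_pot (hM n) (hP n) (q n)
  -- the laws
  set X : ∀ n, (O n → ℤ) → ℝ := fun n ψ => pr (S n) (q n) (emb (O n) ψ) with hX
  have hw0 : ∀ n (ψ : O n → ℤ), 0 ≤ wt (QF α β (S n)) (O n) (smp H n) ψ :=
    fun n ψ => (wt_pos _ _ _ ψ).le
  have hws : ∀ n, Summable (wt (QF α β (S n)) (O n) (smp H n)) :=
    fun n => summable_wt (hM n) (hP n) _
  have hwp : ∀ n, 0 < ∑' ψ, wt (QF α β (S n)) (O n) (smp H n) ψ :=
    fun n => Th_pos (hM n) (hP n) _
  choose ν hν hνR hνC hνI using fun n => push1 _ (hw0 n) (hws n) (hwp n) (X n)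
  have hXe : ∀ n (ψ : O n → ℤ), X n ψ = pr (O n) (q n) (emb (O n) ψ) := by
    intro n ψ
    exact (pr_erase (q n) (supp_emb ψ)).symm
  have hint : ∀ n (s : ℝ), Integrable (fun x => Real.exp (s * x)) (ν n) := by
    intro n s
    refine hνI n _ ?_
    have ht : Tame (O := O n) (fun ψ => Real.exp (pr (O n) (s • q n) (emb (O n) ψ))) :=
      tame_exp_pr _
    refine (summable_wt_mul (hM n) (hP n) (smp H n) ht).congr fun ψ => ?_
    rw [abs_of_pos (Real.exp_pos _), hXe, pr_smul_left]
  set v : ℝ := (1 - κ / cc α β) * NN α β a b c d F with hv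
  have hmgf : ∀ s : ℝ, Tendsto (fun n => ∫ x, Real.exp (s * x) ∂(ν n)) atTop
      (𝓝 (Real.exp (v * s ^ 2 / 2))) := by
    intro s
    have l1 := h.pair_cont hH.continuous
    rw [hFH] at l1
    have l2 := pot_lim hα hβ hab hcd h hneut hu
    have l3 := en_lim hα hβ hκ hab hcd h hneut hu hH hFH s
    have l4 := hκ.ta a b c d hab hcd H hH
    have l5 := (l1.const_mul s).add
      ((((l2.const_mul (s ^ 2)).div_const 2).sub (l3.div_const 2)).add l4)
    have e1 : s * 0 + (s ^ 2 * NN α β a b c d F / 2 -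
        κ / cc α β * (cc α β * (∫ z in rct a b c d, gsq H z) + s ^ 2 * NN α β a b c d F) / 2 +
        κ / 2 * ∫ z in rct a b c d, gsq H z) = v * s ^ 2 / 2 := by
      rw [hv]
      field_simp
      ring
    rw [e1] at l5
    refine ((Real.continuous_exp.tendsto _).comp l5).congr' ?_
    filter_upwards [bx_nonempty hab hcd] with n hne
    have h1 := exp_lap (α := α) hβ hne (hneut n) (hu n) (smp H n) s
    rw [hνR n]
    unfold Ex at h1
    simp only [Function.comp_apply]
    refine Eq.trans ?_ h1.symm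
    congr 1
    show s * pr (bx a b c d n) (q n) (smp H n) +
        (s ^ 2 * QF α β (bx a b c d n) (u n) (u n) / 2 -
          2 * En (QF α β (bx a b c d n)) ((bx a b c d n).erase (root (bx a b c d n)))
            (smp H n + s • u n) / 2 +
          En (QF α β (bx a b c d n)) ((bx a b c d n).erase (root (bx a b c d n))) (smp H n)) =
      s * pr (bx a b c d n) (q n) (smp H n) +
        (s ^ 2 * QF α β (bx a b c d n) (u n) (u n) / 2 -
          En (QF α β (bx a b c d n)) ((bx a b c d n).erase (root (bx a b c d n)))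
            (smp H n + s • u n) +
          En (QF α β (bx a b c d n)) ((bx a b c d n).erase (root (bx a b c d n))) (smp H n))
    ring
  have hchar := mgf_char ν hν v hint hmgf 1
  -- real part
  have h2 : Tendsto (fun n => (Complex.exp (Complex.I * θ) *
      ∫ x, Complex.exp (Complex.I * (1 : ℝ) * x) ∂(ν n)).re) atTop
      (𝓝 (Complex.exp (Complex.I * θ) * Complex.exp (-(v * (1 : ℝ) ^ 2 / 2))).re) :=
    (Complex.continuous_re.tendsto _).comp (hchar.const_mul _)
  have e4 : (Complex.exp (Complex.I * θ) * Complex.exp (-(v * (1 : ℝ) ^ 2 / 2))).re =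
      Real.cos θ * Real.exp (-((1 - κ / cc α β) / 2 * NN α β a b c d F)) := by
    have t1 : Complex.exp (-(v * (1 : ℝ) ^ 2 / 2)) =
        ((Real.exp (-((1 - κ / cc α β) / 2 * NN α β a b c d F)) : ℝ) : ℂ) := by
      rw [Complex.ofReal_exp]
      congr 1
      rw [hv]
      push_cast
      ring
    rw [t1, Complex.re_mul_ofReal, mul_comm Complex.I, Complex.exp_ofReal_mul_I_re]
  rw [e4] at h2
  refine h2.congr fun n => ?_
  rw [hνC n]
  unfold Exr Ex
  have hs1 : Summable fun ψ : O n → ℤ => ((wt (QF α β (S n)) (O n) (smp H n) ψ : ℝ) : ℂ) *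
      Complex.exp (Complex.I * (1 : ℝ) * (X n ψ : ℝ)) := by
    refine Summable.of_norm ?_
    refine (hws n).congr fun ψ => ?_
    rw [norm_mul, Complex.norm_real, Real.norm_of_nonneg (hw0 n ψ)]
    have : Complex.I * (1 : ℝ) * (X n ψ : ℝ) = (X n ψ : ℝ) * Complex.I := by
      push_cast; ring
    rw [this, Complex.norm_exp_ofReal_mul_I, mul_one]
  rw [mul_div_assoc', Complex.div_ofReal_re, ← tsum_mul_left]
  rw [Complex.re_tsum (hs1.mul_left _)]
  show _ = (∑' ψ : O n → ℤ, wt (QF α β (S n)) (O n) (smp H n) ψ *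
    Real.cos (pr (S n) (q n) (emb (O n) ψ) + θ)) / Th (QF α β (S n)) (O n) (smp H n)
  congr 1
  refine tsum_congr fun ψ => ?_
  have t2 : Complex.exp (Complex.I * θ) * (((wt (QF α β (S n)) (O n) (smp H n) ψ : ℝ) : ℂ) *
      Complex.exp (Complex.I * (1 : ℝ) * (X n ψ : ℝ))) =
      Complex.exp (((X n ψ + θ : ℝ) : ℂ) * Complex.I) *
        ((wt (QF α β (S n)) (O n) (smp H n) ψ : ℝ) : ℂ) := by
    have : Complex.exp (((X n ψ + θ : ℝ) : ℂ) * Complex.I) = Complex.exp (Complex.I * θ) *
        Complex.exp (Complex.I * (1 : ℝ) * (X n ψ : ℝ)) := by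
      rw [← Complex.exp_add]
      congr 1
      push_cast
      ring
    rw [this]
    ring
  rw [t2, Complex.re_mul_ofReal, Complex.exp_ofReal_mul_I_re]
  rw [mul_comm]

end Pool.Agent.LR
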