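import Pool.Agent.LR.Forms

/-! # LR project, block B3: averaging over translates decreases the free energy. -/

set_option autoImplicit false

noncomputable section

open scoped BigOperators Topology
open MeasureTheory Filter Set

namespace Pool.Agent.LR.B3

/-- Averages over translates: `Q_{S'}(∑_a w_a φ(· - a)) ≤ (∑ w)² Q_S(φ)` if `S' - a ⊆ S`. -/
theorem qfr_avg_le {j : V → ℝ} (hj : ∀ v, 0 ≤ j v) (S S' A : Finset V) (w : V → ℝ)
    (hw : ∀ a ∈ A, 0 ≤ w a) (hS : ∀ a ∈ A, w a ≠ 0 → ∀ x ∈ S', x - a ∈ S) (φ : V → ℝ) :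
    Qfr (fun x y => j (x - y)) S' (fun x => ∑ a ∈ A, w a * φ (x - a))
        (fun x => ∑ a ∈ A, w a * φ (x - a)) ≤
      (∑ a ∈ A, w a) ^ 2 * Qfr (fun x y => j (x - y)) S φ φ := by
  rw [Qfr_self, Qfr_self]
  set s := ∑ a ∈ A, w a
  set E := ∑ x ∈ S, ∑ y ∈ S, j (x - y) / 2 * (φ x - φ y) ^ 2
  have h1 : ∀ x y : V, (∑ a ∈ A, w a * φ (x - a) - ∑ a ∈ A, w a * φ (y - a)) ^ 2 ≤
      s * ∑ a ∈ A, w a * (φ (x - a) - φ (y - a)) ^ 2 := by
    intro x y
    rw [← Finset.sum_sub_distrib]
    have h2 : ∑ a ∈ A, (w a * φ (x - a) - w a * φ (y - a)) =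
        ∑ a ∈ A, Real.sqrt (w a) * (Real.sqrt (w a) * (φ (x - a) - φ (y - a))) := by
      refine Finset.sum_congr rfl fun a ha => ?_
      rw [← mul_assoc, Real.mul_self_sqrt (hw a ha)]
      ring
    rw [h2]
    refine (Finset.sum_mul_sq_le_sq_mul_sq _ _ _).trans ?_
    refine le_of_eq ?_
    congr 1
    · refine Finset.sum_congr rfl fun a ha => ?_
      rw [Real.sq_sqrt (hw a ha)]
    · refine Finset.sum_congr rfl fun a ha => ?_
      rw [mul_pow, Real.sq_sqrt (hw a ha)]
  have hs : 0 ≤ s := Finset.sum_nonneg hw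
  have h3 : ∀ a ∈ A, w a * ∑ x ∈ S', ∑ y ∈ S', j (x - y) / 2 * (φ (x - a) - φ (y - a)) ^ 2 ≤
      w a * E := by
    intro a ha
    by_cases h0 : w a = 0
    · simp [h0]
    refine mul_le_mul_of_nonneg_left ?_ (hw a ha)
    have h4 : ∑ x ∈ S', ∑ y ∈ S', j (x - y) / 2 * (φ (x - a) - φ (y - a)) ^ 2 =
        ∑ x ∈ S'.image (fun x => x - a), ∑ y ∈ S'.image (fun x => x - a),
          j (x - y) / 2 * (φ x - φ y) ^ 2 := by
      rw [Finset.sum_image (fun x _ y _ h => sub_left_injective h)]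
      refine Finset.sum_congr rfl fun x _ => ?_
      rw [Finset.sum_image (fun x _ y _ h => sub_left_injective h)]
      refine Finset.sum_congr rfl fun y _ => ?_
      rw [sub_sub_sub_cancel_right]
    rw [h4]
    have hsub : S'.image (fun x => x - a) ⊆ S := by
      intro z hz
      obtain ⟨x, hx, rfl⟩ := Finset.mem_image.1 hz
      exact hS a ha h0 x hx
    refine (Finset.sum_le_sum_of_subset_of_nonneg hsub (fun x _ _ =>
      Finset.sum_nonneg fun y _ => ?_)).trans ?_
    · have := hj (x - y)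
      positivity
    refine Finset.sum_le_sum fun x _ => ?_
    refine Finset.sum_le_sum_of_subset_of_nonneg hsub (fun y _ _ => ?_)
    have := hj (x - y)
    positivity
  calc ∑ x ∈ S', ∑ y ∈ S', j (x - y) / 2 *
        (∑ a ∈ A, w a * φ (x - a) - ∑ a ∈ A, w a * φ (y - a)) ^ 2
      ≤ ∑ x ∈ S', ∑ y ∈ S', j (x - y) / 2 *
        (s * ∑ a ∈ A, w a * (φ (x - a) - φ (y - a)) ^ 2) := by
        refine Finset.sum_le_sum fun x _ => Finset.sum_le_sum fun y _ => ?_
        have := hj (x - y)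
        exact mul_le_mul_of_nonneg_left (h1 x y) (by positivity)
    _ = s * ∑ a ∈ A, w a * ∑ x ∈ S', ∑ y ∈ S', j (x - y) / 2 * (φ (x - a) - φ (y - a)) ^ 2 := by
        simp_rw [Finset.mul_sum]
        rw [Finset.sum_comm' (s := S') (t := fun _ => S') (t' := S') (s' := fun _ => S')
          (by intros; tauto)]
        rw [Finset.sum_comm' (s := A) (t := fun _ => S') (t' := S') (s' := fun _ => A)
          (by intros; tauto)]
        rw [Finset.sum_comm' (s := S') (t := fun _ => S') (t' := S') (s' := fun _ => S')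
          (by intros; tauto)]
        refine Finset.sum_congr rfl fun x _ => ?_
        rw [Finset.sum_comm' (s := A) (t := fun _ => S') (t' := S') (s' := fun _ => A)
          (by intros; tauto)]
        refine Finset.sum_congr rfl fun y _ => Finset.sum_congr rfl fun a _ => ?_
        ring
    _ ≤ s * ∑ a ∈ A, w a * E := mul_le_mul_of_nonneg_left (Finset.sum_le_sum h3) hs
    _ = s ^ 2 * E := by rw [← Finset.sum_mul]; ring

end Pool.Agent.LR.B3
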