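import Pool.Agent.LR.B3.Base

/-! # LR project, block B3: dominated convergence for lattice sums. -/

set_option autoImplicit false

noncomputable section

open scoped BigOperators Topology
open MeasureTheory Filter Set

namespace Pool.Agent.LR.B3

/-- **Dominated convergence for lattice sums.** -/
theorem tendsto_sum (g : ℕ → V → ℝ) (F : P → ℝ) (S : ℕ → Finset V) (C K : ℝ)
    (hS : ∀ᶠ n in atTop, Supp (S n) (g n))
    (hb : ∀ᶠ n in atTop, ∀ x, |g n x| ≤ C)
    (hs : ∀ᶠ n : ℕ in atTop, ∀ x, g n x ≠ 0 → |(x.1 : ℝ)| ≤ K * n ∧ |(x.2 : ℝ)| ≤ K * n)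
    (hc : ∀ᵐ z : P, Tendsto (fun n => g n (fl n z)) atTop (𝓝 (F z))) :
    Tendsto (fun n => (∑ x ∈ S n, g n x) / (n : ℝ) ^ 2) atTop (𝓝 (∫ z, F z)) := by
  have hC : 0 ≤ C := by
    obtain ⟨n, hn⟩ := hb.exists
    exact (abs_nonneg _).trans (hn 0)
  set bd : P → ℝ := (Metric.closedBall (0 : P) (K + 1)).indicator (fun _ => C) with hbd
  have h1 : Tendsto (fun n => ∫ z, g n (fl n z)) atTop (𝓝 (∫ z, F z)) := by
    refine tendsto_integral_filter_of_dominated_convergence bd ?_ ?_ ?_ hc
    · filter_upwards [hS, eventually_gt_atTop 0] with n hn hn0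
      exact (integrable_fl hn0 (S n) (g n) hn).aestronglyMeasurable
    · filter_upwards [hb, hs, eventually_gt_atTop 0] with n hb hs hn0
      refine Eventually.of_forall fun z => ?_
      rw [Real.norm_eq_abs]
      by_cases h0 : g n (fl n z) = 0
      · rw [h0, abs_zero]
        exact Set.indicator_nonneg (fun _ _ => hC) _
      · have hn' : (0 : ℝ) < n := by exact_mod_cast hn0
        have h2 := hs _ h0
        have h3 := norm_sc_fl hn0 z
        have h4 : ‖sc n (fl n z)‖ ≤ K := by
          rw [Prod.norm_def]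
          unfold sc
          simp only [Real.norm_eq_abs, abs_div, abs_of_pos hn']
          exact max_le (by rw [div_le_iff₀ hn']; exact h2.1) (by rw [div_le_iff₀ hn']; exact h2.2)
        have h5 : z ∈ Metric.closedBall (0 : P) (K + 1) := by
          rw [mem_closedBall_zero_iff]
          have h6 : ‖z‖ ≤ ‖sc n (fl n z)‖ + ‖sc n (fl n z) - z‖ := by
            have := norm_sub_le (sc n (fl n z)) (sc n (fl n z) - z)
            rwa [sub_sub_cancel] at this
          have h7 : (1 : ℝ) / n ≤ 1 := by
            rw [div_le_one hn']; exact_mod_cast hn0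
          linarith
        rw [hbd, Set.indicator_of_mem h5]
        exact hb _
    · rw [hbd, integrable_indicator_iff Metric.isClosed_closedBall.measurableSet]
      exact integrableOn_const (isCompact_closedBall _ _).measure_lt_top.ne
  refine h1.congr' ?_
  filter_upwards [hS, eventually_gt_atTop 0] with n hn hn0
  exact integral_fl hn0 (S n) (g n) hn

/-- `sc n (fl n z) → z`. -/
lemma tendsto_sc_fl (z : P) : Tendsto (fun n => sc n (fl n z)) atTop (𝓝 z) := by
  rw [tendsto_iff_norm_sub_tendsto_zero]
  refine squeeze_zero' (Eventually.of_forall fun n => norm_nonneg _)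
    (g := fun n : ℕ => (1 : ℝ) / n) ?_ tendsto_one_div_atTop_nhds_zero_nat
  filter_upwards [eventually_gt_atTop 0] with n hn
  exact norm_sc_fl hn z

/-- Riemann sums of continuous functions with compact support. -/
theorem tendsto_riemann (G : P → ℝ) (hG : Continuous G) (hc : HasCompactSupport G)
    (S : ℕ → Finset V) (hS : ∀ᶠ n in atTop, Supp (S n) (smp G n)) :
    Tendsto (fun n => (∑ x ∈ S n, smp G n x) / (n : ℝ) ^ 2) atTop (𝓝 (∫ z, G z)) := by
  obtain ⟨C, hC⟩ := hc.exists_bound_of_continuous hG
  obtain ⟨K, hK⟩ := hc.isCompact.isBounded.exists_norm_le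
  refine tendsto_sum (fun n => smp G n) G S C K hS (Eventually.of_forall fun n x => hC _) ?_ ?_
  · filter_upwards [eventually_gt_atTop 0] with n hn x hx
    have hn' : (0 : ℝ) < n := by exact_mod_cast hn
    have h1 := hK _ (subset_tsupport G (show sc n x ∈ Function.support G from hx))
    rw [Prod.norm_def] at h1
    unfold sc at h1
    simp only [Real.norm_eq_abs, abs_div, abs_of_pos hn'] at h1
    have h2 := (le_max_left _ _).trans h1
    have h3 := (le_max_right _ _).trans h1
    rw [div_le_iff₀ hn'] at h2 h3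
    exact ⟨h2, h3⟩
  · refine Eventually.of_forall fun z => ?_
    exact (hG.tendsto z).comp (tendsto_sc_fl z)

end Pool.Agent.LR.B3
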