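import Pool.Agent.LR.B3.DC

/-! # LR project, block B3: rectangles and their lattice versions. -/

set_option autoImplicit false

noncomputable section

open scoped BigOperators Topology
open MeasureTheory Filter Set

namespace Pool.Agent.LR.B3

lemma mem_bx {a b c d : ℝ} {n : ℕ} {x : V} : x ∈ bx a b c d n ↔
    ((n : ℝ) * a ≤ x.1 ∧ (x.1 : ℝ) ≤ n * b) ∧ (n : ℝ) * c ≤ x.2 ∧ (x.2 : ℝ) ≤ n * d := by
  unfold bx
  rw [Finset.mem_product, Finset.mem_Icc, Finset.mem_Icc, Int.ceil_le, Int.le_floor, Int.ceil_le,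
    Int.le_floor]

lemma mem_rct {a b c d : ℝ} {z : P} : z ∈ rct a b c d ↔
    (a ≤ z.1 ∧ z.1 ≤ b) ∧ c ≤ z.2 ∧ z.2 ≤ d := by
  unfold rct
  rw [Set.mem_prod, Set.mem_Icc, Set.mem_Icc]

lemma sc_mem_rct {a b c d : ℝ} {n : ℕ} (hn : 0 < n) {x : V} (hx : x ∈ bx a b c d n) :
    sc n x ∈ rct a b c d := by
  have hn' : (0 : ℝ) < n := by exact_mod_cast hn
  rw [mem_bx] at hx
  rw [mem_rct]
  unfold sc
  simp only
  rw [le_div_iff₀ hn', div_le_iff₀ hn', le_div_iff₀ hn', div_le_iff₀ hn']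
  obtain ⟨⟨h1, h2⟩, h3, h4⟩ := hx
  exact ⟨⟨by linarith, by linarith⟩, by linarith, by linarith⟩

lemma mem_bx_of_sc {a b c d : ℝ} {n : ℕ} (hn : 0 < n) {x : V} (hx : sc n x ∈ rct a b c d) :
    x ∈ bx a b c d n := by
  have hn' : (0 : ℝ) < n := by exact_mod_cast hn
  rw [mem_bx]
  rw [mem_rct] at hx
  unfold sc at hx
  simp only at hx
  rw [le_div_iff₀ hn', div_le_iff₀ hn', le_div_iff₀ hn', div_le_iff₀ hn'] at hx
  obtain ⟨⟨h1, h2⟩, h3, h4⟩ := hx
  exact ⟨⟨by linarith, by linarith⟩, by linarith, by linarith⟩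

lemma measurableSet_rct (a b c d : ℝ) : MeasurableSet (rct a b c d) :=
  measurableSet_Icc.prod measurableSet_Icc

lemma isCompact_rct (a b c d : ℝ) : IsCompact (rct a b c d) := isCompact_Icc.prod isCompact_Icc

lemma isClosed_rct (a b c d : ℝ) : IsClosed (rct a b c d) := (isCompact_rct a b c d).isClosed

lemma volume_rct_lt_top (a b c d : ℝ) : volume (rct a b c d) < ⊤ :=
  (isCompact_rct a b c d).measure_lt_top

/-- The open rectangle. -/
def rco (a b c d : ℝ) : Set P := Set.Ioo a b ×ˢ Set.Ioo c d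

lemma isOpen_rco (a b c d : ℝ) : IsOpen (rco a b c d) := isOpen_Ioo.prod isOpen_Ioo

lemma mem_rco {a b c d : ℝ} {z : P} : z ∈ rco a b c d ↔
    (a < z.1 ∧ z.1 < b) ∧ c < z.2 ∧ z.2 < d := by
  unfold rco
  rw [Set.mem_prod, Set.mem_Ioo, Set.mem_Ioo]

lemma rco_ae_eq (a b c d : ℝ) : rco a b c d =ᵐ[volume] rct a b c d := by
  unfold rco rct
  exact Measure.set_prod_ae_eq Ioo_ae_eq_Icc Ioo_ae_eq_Icc

/-- Almost every point is in the open rectangle or outside the closed one. -/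
lemma ae_rct (a b c d : ℝ) : ∀ᵐ z : P, z ∈ rco a b c d ∨ z ∉ rct a b c d := by
  filter_upwards [rco_ae_eq a b c d] with z hz
  have hz' : (z ∈ rco a b c d) = (z ∈ rct a b c d) := hz
  by_cases h : z ∈ rct a b c d
  · left; rw [hz']; exact h
  · right; exact h

lemma tendsto_fl_add_fst (z : P) (v : V) :
    Tendsto (fun n : ℕ => sc n (fl n z + v)) atTop (𝓝 z) := by
  have h1 : ∀ n : ℕ, sc n (fl n z + v) = sc n (fl n z) + sc n v := by
    intro n
    unfold sc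
    ext <;> simp [add_div]
  have h2 : Tendsto (fun n : ℕ => sc n v) atTop (𝓝 (0 : P)) := by
    have h3 : Tendsto (fun n : ℕ => ((v.1 : ℝ) / n, (v.2 : ℝ) / n)) atTop (𝓝 ((0 : ℝ), (0 : ℝ))) :=
      (tendsto_const_div_atTop_nhds_zero_nat _).prodMk_nhds
        (tendsto_const_div_atTop_nhds_zero_nat _)
    exact h3
  have h4 := (tendsto_sc_fl z).add h2
  rw [add_zero] at h4
  exact h4.congr fun n => (h1 n).symm

lemma ev_mem_bx {a b c d : ℝ} {z : P} (hz : z ∈ rco a b c d) (v : V) :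
    ∀ᶠ n in atTop, fl n z + v ∈ bx a b c d n := by
  have h1 : ∀ᶠ n : ℕ in atTop, sc n (fl n z + v) ∈ rco a b c d :=
    (tendsto_fl_add_fst z v).eventually ((isOpen_rco a b c d).mem_nhds hz)
  filter_upwards [h1, eventually_gt_atTop 0] with n hn hn0
  refine mem_bx_of_sc hn0 ?_
  rw [mem_rco] at hn
  rw [mem_rct]
  exact ⟨⟨hn.1.1.le, hn.1.2.le⟩, hn.2.1.le, hn.2.2.le⟩

lemma ev_mem_bx' {a b c d : ℝ} {z : P} (hz : z ∈ rco a b c d) :
    ∀ᶠ n in atTop, fl n z ∈ bx a b c d n := by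
  have := ev_mem_bx hz 0
  simpa using this

lemma ev_not_mem_bx {a b c d : ℝ} {z : P} (hz : z ∉ rct a b c d) :
    ∀ᶠ n in atTop, fl n z ∉ bx a b c d n := by
  have h1 : ∀ᶠ n : ℕ in atTop, sc n (fl n z) ∈ (rct a b c d)ᶜ :=
    (tendsto_sc_fl z).eventually ((isClosed_rct a b c d).isOpen_compl.mem_nhds hz)
  filter_upwards [h1, eventually_gt_atTop 0] with n hn hn0 hcon
  exact hn (sc_mem_rct hn0 hcon)

/-- Sites of a box have bounded coordinates. -/
lemma bx_bound (a b c d : ℝ) : ∃ K, 0 ≤ K ∧ ∀ (n : ℕ) (x : V), x ∈ bx a b c d n →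
    |(x.1 : ℝ)| ≤ K * n ∧ |(x.2 : ℝ)| ≤ K * n := by
  refine ⟨max (max |a| |b|) (max |c| |d|), by positivity, fun n x hx => ?_⟩
  rw [mem_bx] at hx
  obtain ⟨⟨h1, h2⟩, h3, h4⟩ := hx
  have hn : (0 : ℝ) ≤ n := Nat.cast_nonneg n
  have ha := neg_abs_le a
  have hb := le_abs_self b
  have hc := neg_abs_le c
  have hd := le_abs_self d
  have m1 : |a| ≤ max (max |a| |b|) (max |c| |d|) := (le_max_left _ _).trans (le_max_left _ _)
  have m2 : |b| ≤ max (max |a| |b|) (max |c| |d|) := (le_max_right _ _).trans (le_max_left _ _)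
  have m3 : |c| ≤ max (max |a| |b|) (max |c| |d|) := (le_max_left _ _).trans (le_max_right _ _)
  have m4 : |d| ≤ max (max |a| |b|) (max |c| |d|) := (le_max_right _ _).trans (le_max_right _ _)
  set K := max (max |a| |b|) (max |c| |d|)
  constructor
  · rw [abs_le]
    constructor
    · nlinarith
    · nlinarith
  · rw [abs_le]
    constructor
    · nlinarith
    · nlinarith

end Pool.Agent.LR.B3
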