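import Pool.Agent.LR.Forms
import Pool.Agent.LR.B3.Rect

/-! # LR project, block B3: the free energy as a sum over lattice vectors. -/

set_option autoImplicit false

noncomputable section

open scoped BigOperators Topology
open MeasureTheory Filter Set

namespace Pool.Agent.LR.B3

/-- A lattice vector as a vector of the plane. -/
def vP (v : V) : P := ((v.1 : ℝ), (v.2 : ℝ))

lemma norm_vP_le (v : V) : ‖vP v‖ ≤ len v := by
  rw [Prod.norm_def]
  exact max_le (abs_fst_le_len v) (abs_snd_le_len v)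

/-- Free energy as a sum over lattice vectors. -/
theorem QF_vsum (α β : ℝ) (S : Finset V) (φ : V → ℝ) :
    QF α β S φ φ = ∑' v : V, Jc α β v / 2 *
      ∑ x ∈ S, (if x + v ∈ S then (φ (x + v) - φ x) ^ 2 else 0) := by
  classical
  rw [QF_self]
  have h1 : ∀ x : V, ∑ y ∈ S, JJ α β x y / 2 * (φ x - φ y) ^ 2 =
      ∑' v : V, Jc α β v / 2 * (if x + v ∈ S then (φ (x + v) - φ x) ^ 2 else 0) := by
    intro x
    have h2 : ∑ y ∈ S, JJ α β x y / 2 * (φ x - φ y) ^ 2 =
        ∑' y : V, (if y ∈ S then JJ α β x y / 2 * (φ x - φ y) ^ 2 else 0) := by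
      rw [tsum_eq_sum (s := S)]
      · exact Finset.sum_congr rfl fun y hy => by rw [if_pos hy]
      · intro y hy; rw [if_neg hy]
    rw [h2, ← (Equiv.addLeft x).tsum_eq]
    refine tsum_congr fun v => ?_
    simp only [Equiv.coe_addLeft]
    have h3 : JJ α β x (x + v) = Jc α β v := by
      unfold JJ
      rw [sub_add_cancel_left, Jc_neg]
    rw [h3]
    split_ifs
    · ring
    · ring
  simp_rw [h1]
  have hsum : ∀ x ∈ S, Summable fun v : V =>
      Jc α β v / 2 * (if x + v ∈ S then (φ (x + v) - φ x) ^ 2 else 0) := by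
    intro x _
    refine summable_of_ne_finset_zero (s := S.image (fun y => y - x)) fun v hv => ?_
    rw [if_neg, mul_zero]
    intro hmem
    exact hv (Finset.mem_image.2 ⟨x + v, hmem, add_sub_cancel_left _ _⟩)
  rw [← Summable.tsum_finsetSum hsum]
  refine tsum_congr fun v => ?_
  rw [Finset.mul_sum]

/-- Taylor estimate. -/
lemma C11.taylor {B : ℝ} {W : P → ℝ} (h : C11 B W) (hB : 0 ≤ B) (z w : P) :
    |W (z + w) - W z - fderiv ℝ W z w| ≤ B * ‖w‖ ^ 2 := by
  have h1 : ∀ x, HasFDerivAt (fun x => W x - fderiv ℝ W z x) (fderiv ℝ W x - fderiv ℝ W z) x :=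
    fun x => (h.diff x).hasFDerivAt.sub (fderiv ℝ W z).hasFDerivAt
  have h2 := Convex.norm_image_sub_le_of_norm_hasFDerivWithin_le (𝕜 := ℝ)
    (f := fun x => W x - fderiv ℝ W z x) (f' := fun x => fderiv ℝ W x - fderiv ℝ W z)
    (C := B * ‖w‖) (s := Metric.closedBall z ‖w‖) (x := z) (y := z + w)
    (fun x _ => (h1 x).hasFDerivWithinAt)
    (fun x hx => by
      refine (h.lip x z).trans ?_
      rw [mem_closedBall_iff_norm] at hx
      exact mul_le_mul_of_nonneg_left hx hB)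
    (convex_closedBall _ _) (Metric.mem_closedBall_self (norm_nonneg _))
    (by rw [mem_closedBall_iff_norm, add_sub_cancel_left])
  rw [add_sub_cancel_left, Real.norm_eq_abs] at h2
  have h3 : W (z + w) - fderiv ℝ W z (z + w) - (W z - fderiv ℝ W z z) =
      W (z + w) - W z - fderiv ℝ W z w := by
    rw [map_add]; ring
  rw [← h3, pow_two, ← mul_assoc]
  exact h2

lemma C11.nonneg {B : ℝ} {W : P → ℝ} (h : C11 B W) : 0 ≤ B := (norm_nonneg _).trans (h.bd 0)

/-- Lipschitz estimate. -/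
lemma C11.lip1 {B : ℝ} {W : P → ℝ} (h : C11 B W) (z w : P) : |W z - W w| ≤ B * ‖z - w‖ := by
  have := Convex.norm_image_sub_le_of_norm_fderiv_le (𝕜 := ℝ) (f := W) (C := B)
      (s := Set.univ) (x := w) (y := z) (fun x _ => h.diff x)
      (fun x _ => h.bd x) convex_univ (Set.mem_univ _) (Set.mem_univ _)
  rwa [Real.norm_eq_abs] at this

lemma sc_add (n : ℕ) (x v : V) : sc n (x + v) = sc n x + (n : ℝ)⁻¹ • vP v := by
  unfold sc vP
  ext
  · simp only [Prod.fst_add, Int.cast_add, Prod.smul_fst, smul_eq_mul]; ring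
  · simp only [Prod.snd_add, Int.cast_add, Prod.smul_snd, smul_eq_mul]; ring

/-- Pointwise comparison of difference quotients with the derivative. -/
lemma C11.quot {B : ℝ} {W : P → ℝ} (h : C11 B W) {n : ℕ} (hn : 0 < n) (v : V) (hv : v ≠ 0)
    (x : V) (z : P) (hz : ‖sc n x - z‖ ≤ 1 / n) :
    |((n : ℝ) * (W (sc n (x + v)) - W (sc n x))) ^ 2 - (fderiv ℝ W z (vP v)) ^ 2| ≤
      B ^ 2 * len v ^ 2 * (4 * min 1 (len v / n)) := by
  have hn' : (0 : ℝ) < n := by exact_mod_cast hn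
  have hB := h.nonneg
  have hL := one_le_len hv
  have hL0 : 0 ≤ len v := len_nonneg v
  have hvP := norm_vP_le v
  set t := (n : ℝ) * (W (sc n (x + v)) - W (sc n x)) with ht
  set s := fderiv ℝ W z (vP v) with hs
  have hs1 : |s| ≤ B * len v := by
    rw [← Real.norm_eq_abs]
    refine ((fderiv ℝ W z).le_opNorm _).trans ?_
    exact mul_le_mul (h.bd z) hvP (norm_nonneg _) hB
  have ht1 : |t| ≤ B * len v := by
    rw [ht, abs_mul, abs_of_pos hn', sc_add]
    have h1 := h.lip1 (sc n x + (n : ℝ)⁻¹ • vP v) (sc n x)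
    rw [add_sub_cancel_left, norm_smul, norm_inv, Real.norm_natCast] at h1
    calc (n : ℝ) * |W (sc n x + (n : ℝ)⁻¹ • vP v) - W (sc n x)|
        ≤ n * (B * ((n : ℝ)⁻¹ * ‖vP v‖)) := mul_le_mul_of_nonneg_left h1 hn'.le
      _ = B * ‖vP v‖ := by field_simp
      _ ≤ B * len v := mul_le_mul_of_nonneg_left hvP hB
  have hts : |t - s| ≤ 2 * B * len v ^ 2 / n := by
    have h1 := h.taylor hB (sc n x) ((n : ℝ)⁻¹ • vP v)
    rw [← sc_add, norm_smul, norm_inv, Real.norm_natCast, map_smul, smul_eq_mul] at h1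
    have h2 : |(fderiv ℝ W (sc n x) - fderiv ℝ W z) (vP v)| ≤ B * (1 / n) * len v := by
      rw [← Real.norm_eq_abs]
      refine (ContinuousLinearMap.le_opNorm _ _).trans ?_
      refine mul_le_mul ((h.lip _ _).trans (mul_le_mul_of_nonneg_left hz hB)) hvP (norm_nonneg _)
        (by positivity)
    rw [_root_.sub_apply] at h2
    have h3 : t - s = (n : ℝ) * (W (sc n (x + v)) - W (sc n x) -
        (n : ℝ)⁻¹ * (fderiv ℝ W (sc n x)) (vP v)) +
        ((fderiv ℝ W (sc n x)) (vP v) - (fderiv ℝ W z) (vP v)) := by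
      rw [ht, hs]
      field_simp
      ring
    rw [h3]
    refine (abs_add_le _ _).trans ?_
    rw [abs_mul, abs_of_pos hn']
    have h4 : (n : ℝ) * |W (sc n (x + v)) - W (sc n x) -
        (n : ℝ)⁻¹ * (fderiv ℝ W (sc n x)) (vP v)| ≤ B * len v ^ 2 / n := by
      calc (n : ℝ) * |W (sc n (x + v)) - W (sc n x) - (n : ℝ)⁻¹ * (fderiv ℝ W (sc n x)) (vP v)|
          ≤ n * (B * ((n : ℝ)⁻¹ * ‖vP v‖) ^ 2) := mul_le_mul_of_nonneg_left h1 hn'.le
        _ = B * ‖vP v‖ ^ 2 / n := by field_simp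
        _ ≤ B * len v ^ 2 / n := by gcongr
    have h5 : B * (1 / n) * len v ≤ B * len v ^ 2 / n := by
      have e : B * (1 / n) * len v = B * len v / n := by ring
      rw [e]
      refine div_le_div_of_nonneg_right (mul_le_mul_of_nonneg_left ?_ hB) hn'.le
      nlinarith
    calc (n : ℝ) * |W (sc n (x + v)) - W (sc n x) - (n : ℝ)⁻¹ * (fderiv ℝ W (sc n x)) (vP v)| +
          |(fderiv ℝ W (sc n x)) (vP v) - (fderiv ℝ W z) (vP v)|
        ≤ B * len v ^ 2 / n + B * len v ^ 2 / n := add_le_add h4 (h2.trans h5)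
      _ = 2 * B * len v ^ 2 / n := by ring
  have hsum : |t + s| ≤ 2 * B * len v := by
    refine (abs_add_le _ _).trans ?_
    linarith
  have e1 : t ^ 2 - s ^ 2 = (t - s) * (t + s) := by ring
  rw [min_def]
  split_ifs with hmin
  · have h1 : |t ^ 2 - s ^ 2| ≤ t ^ 2 + s ^ 2 := by
      rw [abs_le]
      constructor <;> nlinarith [sq_nonneg t, sq_nonneg s]
    have h2 : t ^ 2 ≤ (B * len v) ^ 2 := by
      rw [← sq_abs t]; exact pow_le_pow_left₀ (abs_nonneg _) ht1 2
    have h3 : s ^ 2 ≤ (B * len v) ^ 2 := by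
      rw [← sq_abs s]; exact pow_le_pow_left₀ (abs_nonneg _) hs1 2
    have h4 : 0 ≤ B ^ 2 * len v ^ 2 := by positivity
    nlinarith
  · rw [e1, abs_mul]
    calc |t - s| * |t + s| ≤ (2 * B * len v ^ 2 / n) * (2 * B * len v) :=
          mul_le_mul hts hsum (abs_nonneg _) (by positivity)
      _ = B ^ 2 * len v ^ 2 * (4 * (len v / n)) := by ring

end Pool.Agent.LR.B3
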