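import Pool.Agent.LR.B3.EnergyA

/-! # LR project, block B3: uniform convergence of the free energy of `C^{1,1}` functions. -/

set_option autoImplicit false

noncomputable section

open scoped BigOperators Topology
open MeasureTheory Filter Set

namespace Pool.Agent.LR.B3

lemma C11.cont {B : ℝ} {W : P → ℝ} (h : C11 B W) : Continuous (fderiv ℝ W) := by
  have : LipschitzWith ⟨B, h.nonneg⟩ (fderiv ℝ W) :=
    LipschitzWith.of_dist_le_mul fun z w => by
      rw [dist_eq_norm, dist_eq_norm]
      exact h.lip z w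
  exact this.continuous

lemma fderiv_vP (W : P → ℝ) (z : P) (v : V) : fderiv ℝ W z (vP v) =
    fderiv ℝ W z (1, 0) * v.1 + fderiv ℝ W z (0, 1) * v.2 := by
  have h : vP v = (v.1 : ℝ) • ((1, 0) : P) + (v.2 : ℝ) • ((0, 1) : P) := by
    unfold vP
    ext <;> simp
  rw [h, map_add, map_smul, map_smul, smul_eq_mul, smul_eq_mul]
  ring

/-- Isotropy, integrated over a rectangle. -/
theorem cc_int {α β : ℝ} (hα : 4 < α) (hβ : 0 ≤ β) (a b c d : ℝ) {W : P → ℝ}
    (hW : Continuous (fderiv ℝ W)) :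
    (Summable fun v : V => Jc α β v / 2 * ∫ z in rct a b c d, (fderiv ℝ W z (vP v)) ^ 2) ∧
    ∑' v : V, Jc α β v / 2 * ∫ z in rct a b c d, (fderiv ℝ W z (vP v)) ^ 2 =
      cc α β * ∫ z in rct a b c d, gsq W z := by
  have c1 : Continuous fun z => fderiv ℝ W z (1, 0) := hW.clm_apply continuous_const
  have c2 : Continuous fun z => fderiv ℝ W z (0, 1) := hW.clm_apply continuous_const
  have hR := isCompact_rct a b c d
  have i11 : IntegrableOn (fun z => (fderiv ℝ W z (1, 0)) ^ 2) (rct a b c d) :=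
    (c1.pow 2).continuousOn.integrableOn_compact hR
  have i22 : IntegrableOn (fun z => (fderiv ℝ W z (0, 1)) ^ 2) (rct a b c d) :=
    (c2.pow 2).continuousOn.integrableOn_compact hR
  have i12 : IntegrableOn (fun z => fderiv ℝ W z (1, 0) * fderiv ℝ W z (0, 1)) (rct a b c d) :=
    (c1.mul c2).continuousOn.integrableOn_compact hR
  set I11 := ∫ z in rct a b c d, (fderiv ℝ W z (1, 0)) ^ 2
  set I22 := ∫ z in rct a b c d, (fderiv ℝ W z (0, 1)) ^ 2
  set I12 := ∫ z in rct a b c d, fderiv ℝ W z (1, 0) * fderiv ℝ W z (0, 1)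
  have h1 : ∀ v : V, ∫ z in rct a b c d, (fderiv ℝ W z (vP v)) ^ 2 =
      (v.1 : ℝ) ^ 2 * I11 + (2 * ((v.1 : ℝ) * v.2) * I12 + (v.2 : ℝ) ^ 2 * I22) := by
    intro v
    have e : ∀ z, (fderiv ℝ W z (vP v)) ^ 2 = (v.1 : ℝ) ^ 2 * (fderiv ℝ W z (1, 0)) ^ 2 +
        (2 * ((v.1 : ℝ) * v.2) * (fderiv ℝ W z (1, 0) * fderiv ℝ W z (0, 1)) +
        (v.2 : ℝ) ^ 2 * (fderiv ℝ W z (0, 1)) ^ 2) := by
      intro z
      rw [fderiv_vP]
      ring
    simp_rw [e]
    have j1 : Integrable (fun z => (v.1 : ℝ) ^ 2 * (fderiv ℝ W z (1, 0)) ^ 2)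
      (volume.restrict (rct a b c d)) := i11.const_mul _
    have j2 : Integrable (fun z => 2 * ((v.1 : ℝ) * v.2) *
      (fderiv ℝ W z (1, 0) * fderiv ℝ W z (0, 1))) (volume.restrict (rct a b c d)) :=
      i12.const_mul _
    have j3 : Integrable (fun z => (v.2 : ℝ) ^ 2 * (fderiv ℝ W z (0, 1)) ^ 2)
      (volume.restrict (rct a b c d)) := i22.const_mul _
    have j23 : Integrable (fun z => 2 * ((v.1 : ℝ) * v.2) *
      (fderiv ℝ W z (1, 0) * fderiv ℝ W z (0, 1)) + (v.2 : ℝ) ^ 2 * (fderiv ℝ W z (0, 1)) ^ 2)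
      (volume.restrict (rct a b c d)) := j2.add j3
    rw [integral_add j1 j23, integral_add j2 j3, integral_const_mul, integral_const_mul,
      integral_const_mul]
  have s1 := (summable_Jc_fst_sq hα hβ).mul_right (I11 / 2)
  have s2 := (summable_Jc_mul hα hβ).mul_right I12
  have s3 := (summable_Jc_snd_sq hα hβ).mul_right (I22 / 2)
  have h2 : ∀ v : V, Jc α β v / 2 * ∫ z in rct a b c d, (fderiv ℝ W z (vP v)) ^ 2 =
      Jc α β v * (v.1 : ℝ) ^ 2 * (I11 / 2) + (Jc α β v * ((v.1 : ℝ) * v.2) * I12 +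
        Jc α β v * (v.2 : ℝ) ^ 2 * (I22 / 2)) := by
    intro v
    rw [h1]
    ring
  simp_rw [h2]
  refine ⟨s1.add (s2.add s3), ?_⟩
  rw [s1.tsum_add (s2.add s3), s2.tsum_add s3, tsum_mul_right, tsum_mul_right, tsum_mul_right,
    tsum_Jc_fst_sq hα hβ, tsum_Jc_snd_sq hα hβ, tsum_Jc_mul]
  have h3 : ∫ z in rct a b c d, gsq W z = I11 + I22 := by
    unfold gsq
    exact integral_add i11 i22
  rw [h3]
  ring

/-- The set where the indicators differ. -/
def bad (a b c d : ℝ) (n : ℕ) (v : V) : Set P :=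
  {z | ¬ (z ∈ rct a b c d ↔ (fl n z ∈ bx a b c d n ∧ fl n z + v ∈ bx a b c d n))}

lemma measurableSet_bad (a b c d : ℝ) (n : ℕ) (v : V) : MeasurableSet (bad a b c d n v) := by
  unfold bad
  have h1 : MeasurableSet {z : P | fl n z ∈ bx a b c d n} :=
    (measurable_fl n) (MeasurableSet.of_discrete (s := {x : V | x ∈ bx a b c d n}))
  have h2 : MeasurableSet {z : P | fl n z + v ∈ bx a b c d n} :=
    (measurable_fl n) (MeasurableSet.of_discrete (s := {x : V | x + v ∈ bx a b c d n}))
  have h3 := measurableSet_rct a b c d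
  exact (MeasurableSet.iff h3 (h1.inter h2)).compl

lemma exists_ball (a b c d : ℝ) : ∃ K : ℝ, 0 ≤ K ∧ (∀ n : ℕ, 0 < n → ∀ z : P,
    fl n z ∈ bx a b c d n → z ∈ Metric.closedBall (0 : P) K) ∧
    rct a b c d ⊆ Metric.closedBall (0 : P) K := by
  obtain ⟨K1, hK1, hK⟩ := bx_bound a b c d
  obtain ⟨K2, hK2⟩ := (isCompact_rct a b c d).isBounded.exists_norm_le
  refine ⟨max (K1 + 1) K2, by positivity, ?_, ?_⟩
  · intro n hn z hz
    have hn' : (0 : ℝ) < n := by exact_mod_cast hn
    have h2 := hK n _ hz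
    have h3 := norm_sc_fl hn z
    have h4 : ‖sc n (fl n z)‖ ≤ K1 := by
      rw [Prod.norm_def]
      unfold sc
      simp only [Real.norm_eq_abs, abs_div, abs_of_pos hn']
      exact max_le (by rw [div_le_iff₀ hn']; exact h2.1) (by rw [div_le_iff₀ hn']; exact h2.2)
    rw [mem_closedBall_zero_iff]
    have h6 : ‖z‖ ≤ ‖sc n (fl n z)‖ + ‖sc n (fl n z) - z‖ := by
      have := norm_sub_le (sc n (fl n z)) (sc n (fl n z) - z)
      rwa [sub_sub_cancel] at this
    have h7 : (1 : ℝ) / n ≤ 1 := by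
      rw [div_le_one hn']; exact_mod_cast hn
    exact le_trans (by linarith) (le_max_left _ _)
  · intro z hz
    rw [mem_closedBall_zero_iff]
    exact (hK2 z hz).trans (le_max_right _ _)

lemma bad_subset {a b c d K : ℝ} (h1 : ∀ n : ℕ, 0 < n → ∀ z : P,
    fl n z ∈ bx a b c d n → z ∈ Metric.closedBall (0 : P) K)
    (h2 : rct a b c d ⊆ Metric.closedBall (0 : P) K) {n : ℕ} (hn : 0 < n) (v : V) :
    bad a b c d n v ⊆ Metric.closedBall (0 : P) K := by
  intro z hz
  by_cases h : z ∈ rct a b c d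
  · exact h2 h
  · unfold bad at hz
    rw [Set.mem_ofPred_eq] at hz
    have : fl n z ∈ bx a b c d n := by
      by_contra hcon
      exact hz ⟨fun h' => absurd h' h, fun h' => absurd h'.1 hcon⟩
    exact h1 n hn z this

/-- The measure of the bad set tends to `0`. -/
lemma tendsto_bad (a b c d : ℝ) (v : V) :
    Tendsto (fun n => volume.real (bad a b c d n v)) atTop (𝓝 0) := by
  obtain ⟨K, hK0, hK1, hK2⟩ := exists_ball a b c d
  have h1 : Tendsto (fun n => ∫ z, (bad a b c d n v).indicator (fun _ => (1 : ℝ)) z) atTop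
      (𝓝 (∫ _z : P, (0 : ℝ))) := by
    refine tendsto_integral_filter_of_dominated_convergence
      ((Metric.closedBall (0 : P) K).indicator (fun _ => (1 : ℝ))) ?_ ?_ ?_ ?_
    · refine Eventually.of_forall fun n => ?_
      exact (measurable_const.indicator (measurableSet_bad a b c d n v)).aestronglyMeasurable
    · filter_upwards [eventually_gt_atTop 0] with n hn
      refine Eventually.of_forall fun z => ?_
      rw [Real.norm_eq_abs, abs_of_nonneg (Set.indicator_nonneg (fun _ _ => zero_le_one) _)]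
      exact Set.indicator_le_indicator_of_subset (bad_subset hK1 hK2 hn v)
        (fun _ => zero_le_one) z
    · rw [integrable_indicator_iff Metric.isClosed_closedBall.measurableSet]
      exact integrableOn_const (isCompact_closedBall _ _).measure_lt_top.ne
    · filter_upwards [ae_rct a b c d] with z hz
      refine tendsto_const_nhds.congr' ?_
      rcases hz with hz | hz
      · have hz' : z ∈ rct a b c d := by
          rw [mem_rco] at hz
          rw [mem_rct]
          exact ⟨⟨hz.1.1.le, hz.1.2.le⟩, hz.2.1.le, hz.2.2.le⟩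
        filter_upwards [ev_mem_bx' hz, ev_mem_bx hz v] with n h3 h4
        rw [Set.indicator_of_notMem]
        intro h5
        exact h5 ⟨fun _ => ⟨h3, h4⟩, fun _ => hz'⟩
      · filter_upwards [ev_not_mem_bx hz] with n h3
        rw [Set.indicator_of_notMem]
        intro h5
        exact h5 ⟨fun h' => absurd h' hz, fun h' => absurd h'.1 h3⟩
  rw [integral_zero] at h1
  refine h1.congr fun n => ?_
  rw [integral_indicator (measurableSet_bad a b c d n v), setIntegral_const, smul_eq_mul, mul_one]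

/-- Error term. -/
def err (α β a b c d : ℝ) (n : ℕ) : ℝ :=
  ∑' v : V, Jc α β v / 2 * (len v ^ 2 * (4 * min 1 (len v / n) * volume.real (rct a b c d) +
    volume.real (bad a b c d n v)))

lemma min_len_nonneg (n : ℕ) (v : V) : 0 ≤ min 1 (len v / n) :=
  le_min zero_le_one (div_nonneg (len_nonneg v) (Nat.cast_nonneg n))

lemma tendsto_min_len (v : V) : Tendsto (fun n : ℕ => min 1 (len v / n)) atTop (𝓝 0) := by
  have h1 : Tendsto (fun n : ℕ => len v / n) atTop (𝓝 0) := tendsto_const_div_atTop_nhds_zero_nat _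
  refine squeeze_zero (fun n => min_len_nonneg n v) (fun n => min_le_right _ _) h1

lemma err_dom {α β : ℝ} (hβ : 0 ≤ β) {a b c d K : ℝ} (h1 : ∀ n : ℕ, 0 < n → ∀ z : P,
    fl n z ∈ bx a b c d n → z ∈ Metric.closedBall (0 : P) K)
    (h2 : rct a b c d ⊆ Metric.closedBall (0 : P) K) {n : ℕ} (hn : 0 < n) (v : V) :
    ‖Jc α β v / 2 * (len v ^ 2 * (4 * min 1 (len v / n) * volume.real (rct a b c d) +
      volume.real (bad a b c d n v)))‖ ≤
    Jc α β v * len v ^ 2 * ((4 * volume.real (rct a b c d) +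
      volume.real (Metric.closedBall (0 : P) K)) / 2) := by
  have hJ := Jc_nonneg (α := α) hβ v
  have hm := min_len_nonneg n v
  have hm1 : min 1 (len v / n) ≤ 1 := min_le_left _ _
  have hv1 : 0 ≤ volume.real (rct a b c d) := measureReal_nonneg
  have hv2 : 0 ≤ volume.real (bad a b c d n v) := measureReal_nonneg
  have hv3 : volume.real (bad a b c d n v) ≤ volume.real (Metric.closedBall (0 : P) K) :=
    measureReal_mono (bad_subset h1 h2 hn v) (isCompact_closedBall _ _).measure_lt_top.ne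
  have h3 : 4 * min 1 (len v / n) * volume.real (rct a b c d) + volume.real (bad a b c d n v) ≤
      4 * volume.real (rct a b c d) + volume.real (Metric.closedBall (0 : P) K) := by
    nlinarith
  rw [Real.norm_eq_abs, abs_of_nonneg (by positivity)]
  calc Jc α β v / 2 * (len v ^ 2 * (4 * min 1 (len v / n) * volume.real (rct a b c d) +
      volume.real (bad a b c d n v)))
      ≤ Jc α β v / 2 * (len v ^ 2 * (4 * volume.real (rct a b c d) +
        volume.real (Metric.closedBall (0 : P) K))) := by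
        gcongr
    _ = _ := by ring

lemma tendsto_err {α β : ℝ} (hα : 4 < α) (hβ : 0 ≤ β) (a b c d : ℝ) :
    Tendsto (err α β a b c d) atTop (𝓝 0) := by
  obtain ⟨K, hK0, hK1, hK2⟩ := exists_ball a b c d
  have h := tendsto_tsum_of_dominated_convergence (𝓕 := atTop)
    (f := fun (n : ℕ) (v : V) => Jc α β v / 2 * (len v ^ 2 * (4 * min 1 (len v / n) *
      volume.real (rct a b c d) + volume.real (bad a b c d n v)))) (g := fun _ => (0 : ℝ))
    (bound := fun v => Jc α β v * len v ^ 2 * ((4 * volume.real (rct a b c d) +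
      volume.real (Metric.closedBall (0 : P) K)) / 2))
    ((summable_Jc_len_sq hα β).mul_right _) (fun v => by
      have h1 := (((tendsto_min_len v).const_mul 4).mul_const (volume.real (rct a b c d))).add
        (tendsto_bad a b c d v)
      have h2 := (h1.const_mul (len v ^ 2)).const_mul (Jc α β v / 2)
      simpa using h2) (by
      filter_upwards [eventually_gt_atTop 0] with n hn v
      exact err_dom hβ hK1 hK2 hn v)
  rw [tsum_zero] at h
  exact h

end Pool.Agent.LR.B3
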