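import Pool.Agent.LR.B3.EnergyB

/-! # LR project, block B3: uniform convergence of the free energy of `C^{1,1}` functions. -/

set_option autoImplicit false

noncomputable section

open scoped BigOperators Topology
open MeasureTheory Filter Set

namespace Pool.Agent.LR.B3

lemma C11.quot_le {B : ℝ} {W : P → ℝ} (h : C11 B W) {n : ℕ} (hn : 0 < n) (v : V) (x : V) :
    ((n : ℝ) * (W (sc n (x + v)) - W (sc n x))) ^ 2 ≤ B ^ 2 * len v ^ 2 := by
  have hn' : (0 : ℝ) < n := by exact_mod_cast hn
  have hB := h.nonneg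
  have hvP := norm_vP_le v
  have ht1 : |(n : ℝ) * (W (sc n (x + v)) - W (sc n x))| ≤ B * len v := by
    rw [abs_mul, abs_of_pos hn', sc_add]
    have h1 := h.lip1 (sc n x + (n : ℝ)⁻¹ • vP v) (sc n x)
    rw [add_sub_cancel_left, norm_smul, norm_inv, Real.norm_natCast] at h1
    calc (n : ℝ) * |W (sc n x + (n : ℝ)⁻¹ • vP v) - W (sc n x)|
        ≤ n * (B * ((n : ℝ)⁻¹ * ‖vP v‖)) := mul_le_mul_of_nonneg_left h1 hn'.le
      _ = B * ‖vP v‖ := by field_simp
      _ ≤ B * len v := mul_le_mul_of_nonneg_left hvP hB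
  rw [← sq_abs, ← mul_pow]
  exact pow_le_pow_left₀ (abs_nonneg _) ht1 2

lemma C11.deriv_le {B : ℝ} {W : P → ℝ} (h : C11 B W) (v : V) (z : P) :
    (fderiv ℝ W z (vP v)) ^ 2 ≤ B ^ 2 * len v ^ 2 := by
  have hs1 : |fderiv ℝ W z (vP v)| ≤ B * len v := by
    rw [← Real.norm_eq_abs]
    refine ((fderiv ℝ W z).le_opNorm _).trans ?_
    exact mul_le_mul (h.bd z) (norm_vP_le v) (norm_nonneg _) h.nonneg
  rw [← sq_abs, ← mul_pow]
  exact pow_le_pow_left₀ (abs_nonneg _) hs1 2

/-- The energy of the differences in direction `v`. -/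
def Av (a b c d : ℝ) (n : ℕ) (W : P → ℝ) (v : V) : ℝ :=
  ∑ x ∈ bx a b c d n, (if x + v ∈ bx a b c d n then (smp W n (x + v) - smp W n x) ^ 2 else 0)

lemma Av_bound {B : ℝ} {W : P → ℝ} (h : C11 B W) (a b c d : ℝ) {n : ℕ} (hn : 0 < n) (v : V)
    (hv : v ≠ 0) :
    |Av a b c d n W v - ∫ z in rct a b c d, (fderiv ℝ W z (vP v)) ^ 2| ≤
      B ^ 2 * (len v ^ 2 * (4 * min 1 (len v / n) * volume.real (rct a b c d) +
        volume.real (bad a b c d n v))) := by
  classical
  have hn' : (0 : ℝ) < n := by exact_mod_cast hn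
  obtain ⟨K, hK0, hK1, hK2⟩ := exists_ball a b c d
  set g : V → ℝ := fun x => if x ∈ bx a b c d n ∧ x + v ∈ bx a b c d n then
    ((n : ℝ) * (W (sc n (x + v)) - W (sc n x))) ^ 2 else 0 with hg
  have hgS : Supp (bx a b c d n) g := by
    intro x hx
    rw [hg]
    simp only
    rw [if_neg (fun h' => hx h'.1)]
  have h1 : Av a b c d n W v = ∫ z, g (fl n z) := by
    rw [integral_fl hn _ g hgS, Finset.sum_div]
    unfold Av
    refine Finset.sum_congr rfl fun x hx => ?_
    rw [hg]
    simp only
    by_cases hxv : x + v ∈ bx a b c d n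
    · rw [if_pos hxv, if_pos ⟨hx, hxv⟩, mul_pow]
      unfold smp
      field_simp
    · rw [if_neg hxv, if_neg (fun h' => hxv h'.2), zero_div]
  have h2 : ∫ z in rct a b c d, (fderiv ℝ W z (vP v)) ^ 2 =
      ∫ z, (rct a b c d).indicator (fun z => (fderiv ℝ W z (vP v)) ^ 2) z :=
    (integral_indicator (measurableSet_rct a b c d)).symm
  have hcd : Continuous fun z => (fderiv ℝ W z (vP v)) ^ 2 :=
    (h.cont.clm_apply continuous_const).pow 2
  have i1 : Integrable (fun z => g (fl n z)) := integrable_fl hn _ g hgS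
  have i2 : Integrable ((rct a b c d).indicator (fun z => (fderiv ℝ W z (vP v)) ^ 2)) := by
    rw [integrable_indicator_iff (measurableSet_rct a b c d)]
    exact hcd.continuousOn.integrableOn_compact (isCompact_rct a b c d)
  set m : ℝ := min 1 (len v / n) with hm
  have hm0 : 0 ≤ m := min_len_nonneg n v
  have i3 : Integrable ((rct a b c d).indicator (fun _ : P => B ^ 2 * len v ^ 2 * (4 * m))) := by
    rw [integrable_indicator_iff (measurableSet_rct a b c d)]
    exact integrableOn_const (volume_rct_lt_top a b c d).ne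
  have hbadfin : volume (bad a b c d n v) ≠ ⊤ :=
    ((measure_mono (bad_subset hK1 hK2 hn v)).trans_lt
      (isCompact_closedBall _ _).measure_lt_top).ne
  have i4 : Integrable ((bad a b c d n v).indicator (fun _ : P => B ^ 2 * len v ^ 2)) := by
    rw [integrable_indicator_iff (measurableSet_bad a b c d n v)]
    exact integrableOn_const hbadfin
  rw [h1, h2, ← integral_sub i1 i2]
  have hq : 0 ≤ B ^ 2 * len v ^ 2 := by positivity
  have key : ∀ z, ‖g (fl n z) - (rct a b c d).indicator (fun z => (fderiv ℝ W z (vP v)) ^ 2) z‖ ≤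
      (rct a b c d).indicator (fun _ : P => B ^ 2 * len v ^ 2 * (4 * m)) z +
        (bad a b c d n v).indicator (fun _ : P => B ^ 2 * len v ^ 2) z := by
    intro z
    rw [Real.norm_eq_abs]
    have p1 : 0 ≤ (rct a b c d).indicator (fun _ : P => B ^ 2 * len v ^ 2 * (4 * m)) z :=
      Set.indicator_nonneg (fun _ _ => by positivity) _
    have p2 : 0 ≤ (bad a b c d n v).indicator (fun _ : P => B ^ 2 * len v ^ 2) z :=
      Set.indicator_nonneg (fun _ _ => hq) _
    by_cases hz : z ∈ rct a b c d
    · rw [Set.indicator_of_mem hz] at p1 ⊢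
      rw [Set.indicator_of_mem hz]
      by_cases hf : fl n z ∈ bx a b c d n ∧ fl n z + v ∈ bx a b c d n
      · have : g (fl n z) = ((n : ℝ) * (W (sc n (fl n z + v)) - W (sc n (fl n z)))) ^ 2 := by
          rw [hg]; simp only; rw [if_pos hf]
        rw [this]
        have := h.quot hn v hv (fl n z) z (norm_sc_fl hn z)
        linarith
      · have h0 : g (fl n z) = 0 := by
          rw [hg]; simp only; rw [if_neg hf]
        have hb : z ∈ bad a b c d n v := fun hiff => hf (hiff.1 hz)
        rw [h0, zero_sub, abs_neg, abs_of_nonneg (sq_nonneg _), Set.indicator_of_mem hb]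
        have := h.deriv_le v z
        linarith
    · rw [Set.indicator_of_notMem hz] at p1 ⊢
      rw [Set.indicator_of_notMem hz, sub_zero, zero_add]
      by_cases hf : fl n z ∈ bx a b c d n ∧ fl n z + v ∈ bx a b c d n
      · have : g (fl n z) = ((n : ℝ) * (W (sc n (fl n z + v)) - W (sc n (fl n z)))) ^ 2 := by
          rw [hg]; simp only; rw [if_pos hf]
        have hb : z ∈ bad a b c d n v := fun hiff => hz (hiff.2 hf)
        rw [this, abs_of_nonneg (sq_nonneg _), Set.indicator_of_mem hb]
        exact h.quot_le hn v _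
      · have h0 : g (fl n z) = 0 := by
          rw [hg]; simp only; rw [if_neg hf]
        rw [h0, abs_zero]
        exact p2
  rw [← Real.norm_eq_abs]
  refine (norm_integral_le_of_norm_le (i3.add i4) (Eventually.of_forall key)).trans ?_
  have e : ∫ z, ((rct a b c d).indicator (fun _ : P => B ^ 2 * len v ^ 2 * (4 * m)) z +
        (bad a b c d n v).indicator (fun _ : P => B ^ 2 * len v ^ 2) z) =
      B ^ 2 * len v ^ 2 * (4 * m) * volume.real (rct a b c d) +
        B ^ 2 * len v ^ 2 * volume.real (bad a b c d n v) := by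
    rw [integral_add i3 i4, integral_indicator (measurableSet_rct a b c d),
      integral_indicator (measurableSet_bad a b c d n v), setIntegral_const, setIntegral_const,
      smul_eq_mul, smul_eq_mul]
    ring
  refine le_of_eq ?_
  refine Eq.trans e ?_
  ring

/-- **Uniform convergence of the free energy.** -/
theorem energy_bound {α β : ℝ} (hα : 4 < α) (hβ : 0 ≤ β) (a b c d : ℝ) {n : ℕ} (hn : 0 < n)
    {B : ℝ} {W : P → ℝ} (h : C11 B W) :
    |QF α β (bx a b c d n) (smp W n) (smp W n) - cc α β * ∫ z in rct a b c d, gsq W z| ≤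
      err α β a b c d n * B ^ 2 := by
  classical
  obtain ⟨K, hK0, hK1, hK2⟩ := exists_ball a b c d
  obtain ⟨s2, e2⟩ := cc_int hα hβ a b c d h.cont
  have e1 : QF α β (bx a b c d n) (smp W n) (smp W n) =
      ∑' v : V, Jc α β v / 2 * Av a b c d n W v := QF_vsum α β _ _
  have s1 : Summable fun v : V => Jc α β v / 2 * Av a b c d n W v := by
    refine summable_of_ne_finset_zero
      (s := ((bx a b c d n) ×ˢ (bx a b c d n)).image (fun p => p.2 - p.1)) fun v hv => ?_
    unfold Av
    rw [Finset.sum_eq_zero, mul_zero]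
    intro x hx
    rw [if_neg]
    intro hmem
    exact hv (Finset.mem_image.2 ⟨(x, x + v), Finset.mem_product.2 ⟨hx, hmem⟩,
      add_sub_cancel_left _ _⟩)
  have s3 : Summable fun v : V => Jc α β v / 2 * (len v ^ 2 * (4 * min 1 (len v / n) *
      volume.real (rct a b c d) + volume.real (bad a b c d n v))) :=
    ((summable_Jc_len_sq hα β).mul_right ((4 * volume.real (rct a b c d) +
      volume.real (Metric.closedBall (0 : P) K)) / 2)).of_norm_bounded
      (fun v => err_dom hβ hK1 hK2 hn v)
  have key : ∀ v : V, ‖Jc α β v / 2 * Av a b c d n W v -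
      Jc α β v / 2 * ∫ z in rct a b c d, (fderiv ℝ W z (vP v)) ^ 2‖ ≤
      Jc α β v / 2 * (len v ^ 2 * (4 * min 1 (len v / n) *
      volume.real (rct a b c d) + volume.real (bad a b c d n v))) * B ^ 2 := by
    intro v
    by_cases hv : v = 0
    · subst hv
      rw [Jc_zero]
      simp
    · have hJ := Jc_nonneg (α := α) hβ v
      rw [← mul_sub, Real.norm_eq_abs, abs_mul, abs_of_nonneg (by positivity : 0 ≤ Jc α β v / 2)]
      have := Av_bound h a b c d hn v hv
      calc Jc α β v / 2 * |Av a b c d n W v - ∫ z in rct a b c d, (fderiv ℝ W z (vP v)) ^ 2|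
          ≤ Jc α β v / 2 * (B ^ 2 * (len v ^ 2 * (4 * min 1 (len v / n) *
            volume.real (rct a b c d) + volume.real (bad a b c d n v)))) :=
            mul_le_mul_of_nonneg_left this (by positivity)
        _ = _ := by ring
  rw [e1, ← e2, ← s1.tsum_sub s2, ← Real.norm_eq_abs]
  refine (tsum_of_norm_bounded (s3.mul_right (B ^ 2)).hasSum key).trans ?_
  rw [tsum_mul_right]
  rfl

/-- `C²` functions: convergence of the free energy in a rectangle. -/
theorem qf_smp {α β : ℝ} (hα : 4 < α) (hβ : 0 ≤ β) (a b c d : ℝ) {B : ℝ} {W : P → ℝ}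
    (h : C11 B W) :
    Tendsto (fun n => QF α β (bx a b c d n) (smp W n) (smp W n)) atTop
      (𝓝 (cc α β * ∫ z in rct a b c d, gsq W z)) := by
  rw [tendsto_iff_norm_sub_tendsto_zero]
  have h1 := (tendsto_err hα hβ a b c d).mul_const (B ^ 2)
  rw [zero_mul] at h1
  refine squeeze_zero' (Eventually.of_forall fun n => norm_nonneg _) ?_ h1
  filter_upwards [eventually_gt_atTop 0] with n hn
  rw [Real.norm_eq_abs]
  exact energy_bound hα hβ a b c d hn h

end Pool.Agent.LR.B3
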