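import Pool.Agent.LR.B3.PairD

/-! # LR project, block B3: upper bound of the dual norm in free rectangles. -/

set_option autoImplicit false

noncomputable section

open scoped BigOperators Topology
open MeasureTheory Filter Set

namespace Pool.Agent.LR.B3

lemma fderiv_comp_dil {E : Type*} [NormedAddCommGroup E] [NormedSpace ℝ E] {U : E → ℝ}
    (hU : Differentiable ℝ U) (r : ℝ) (w z : E) :
    fderiv ℝ (fun z => U (r • z + w)) z = r • fderiv ℝ U (r • z + w) := by
  have h1 : HasFDerivAt (fun z : E => r • z + w) (r • ContinuousLinearMap.id ℝ E) z :=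
    ((hasFDerivAt_id z).const_smul r).add_const w
  have h2 := (hU (r • z + w)).hasFDerivAt.comp z h1
  have h3 : (fderiv ℝ U (r • z + w)).comp (r • ContinuousLinearMap.id ℝ E) =
      r • fderiv ℝ U (r • z + w) := by
    ext x
    simp
  rw [h3] at h2
  exact h2.fderiv

lemma gsq_comp_Tm {U : P → ℝ} (hU : Differentiable ℝ U) (z₀ : P) (θ : ℝ) (z : P) :
    gsq (fun z => U (Tm z₀ θ z)) z = (1 - θ) ^ 2 * gsq U (Tm z₀ θ z) := by
  have h := fderiv_comp_dil hU (1 - θ) (θ • z₀) z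
  unfold gsq
  simp_rw [Tm_eq]
  rw [h]
  have e : ∀ e : P, ((1 - θ) • fderiv ℝ U ((1 - θ) • z + θ • z₀)) e =
      (1 - θ) * fderiv ℝ U ((1 - θ) • z + θ • z₀) e := fun e => rfl
  rw [e, e]
  ring

/-- Dilation invariance of the Dirichlet integral over rectangles. -/
theorem int_gsq_Tm {U : P → ℝ} (hU : Differentiable ℝ U) (z₀ : P) {θ : ℝ} (hθ : θ < 1)
    (a b c d : ℝ) :
    ∫ z in rct a b c d, gsq (fun z => U (Tm z₀ θ z)) z =
      ∫ z in rct (z₀.1 + (1 - θ) * (a - z₀.1)) (z₀.1 + (1 - θ) * (b - z₀.1))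
        (z₀.2 + (1 - θ) * (c - z₀.2)) (z₀.2 + (1 - θ) * (d - z₀.2)), gsq U z := by
  have h1 : 0 < 1 - θ := by linarith
  rw [← integral_indicator (measurableSet_rct _ _ _ _),
    ← integral_indicator (measurableSet_rct _ _ _ _)]
  set R' := rct (z₀.1 + (1 - θ) * (a - z₀.1)) (z₀.1 + (1 - θ) * (b - z₀.1))
        (z₀.2 + (1 - θ) * (c - z₀.2)) (z₀.2 + (1 - θ) * (d - z₀.2)) with hR'
  have hmem : ∀ z, Tm z₀ θ z ∈ R' ↔ z ∈ rct a b c d := by
    intro z
    rw [hR', mem_rct, mem_rct]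
    unfold Tm
    simp only [Prod.fst_add, Prod.snd_add, Prod.smul_fst, Prod.smul_snd, Prod.fst_sub,
      Prod.snd_sub, smul_eq_mul]
    have e : ∀ s t u : ℝ, s + (1 - θ) * (t - s) ≤ s + (1 - θ) * (u - s) ↔ t ≤ u := by
      intro s t u
      rw [add_le_add_iff_left, mul_le_mul_iff_right₀ h1, sub_le_sub_iff_right]
    rw [e, e, e, e]
  have h2 := integral_comp_Tm z₀ hθ (R'.indicator (gsq U))
  have h3 : ∀ z, (rct a b c d).indicator (gsq (fun z => U (Tm z₀ θ z))) z =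
      (1 - θ) ^ 2 * R'.indicator (gsq U) (Tm z₀ θ z) := by
    intro z
    by_cases hz : z ∈ rct a b c d
    · rw [Set.indicator_of_mem hz, Set.indicator_of_mem ((hmem z).2 hz), gsq_comp_Tm hU]
    · rw [Set.indicator_of_notMem hz, Set.indicator_of_notMem (fun h => hz ((hmem z).1 h)),
        mul_zero]
  simp_rw [h3]
  rw [integral_const_mul, h2]
  have : (1 - θ) ^ 2 ≠ 0 := by positivity
  field_simp

lemma contDiff_comp_Tm {U : P → ℝ} {k : WithTop ℕ∞} (hU : ContDiff ℝ k U) (z₀ : P) (θ : ℝ) :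
    ContDiff ℝ k (fun z => U (Tm z₀ θ z)) := by
  refine hU.comp ?_
  unfold Tm
  fun_prop

lemma pr_congr_restrict (S : Finset V) (q φ : V → ℝ) :
    pr S q (fun x => if x ∈ S then φ x else 0) = pr S q φ := by
  unfold pr
  refine Finset.sum_congr rfl fun x hx => ?_
  simp only
  rw [if_pos hx]

/-- The charge pairs with `ℓ²` functions. -/
lemma pr_abs_le {S : Finset V} {n : ℕ} (hn : 0 < n) {A C N : ℝ} (hC : 0 ≤ C)
    (hA : (S.card : ℝ) ≤ A * (n : ℝ) ^ 2) {q φ : V → ℝ} (hq : ∀ x, |q x| ≤ C / (n : ℝ) ^ 2)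
    (hφ : (∑ x ∈ S, φ x ^ 2) / (n : ℝ) ^ 2 ≤ N) : |pr S q φ| ≤ C * Real.sqrt (A * N) := by
  have hn' : (0 : ℝ) < n := by exact_mod_cast hn
  unfold pr
  have h1 : |∑ x ∈ S, q x * φ x| ≤ ∑ x ∈ S, C / (n : ℝ) ^ 2 * |φ x| := by
    refine (Finset.abs_sum_le_sum_abs _ _).trans (Finset.sum_le_sum fun x _ => ?_)
    rw [abs_mul]
    exact mul_le_mul_of_nonneg_right (hq x) (abs_nonneg _)
  rw [← Finset.mul_sum] at h1
  refine h1.trans ?_
  have h2 := l1_le hn hA hφ
  calc C / (n : ℝ) ^ 2 * ∑ x ∈ S, |φ x| = C * ((∑ x ∈ S, |φ x|) / (n : ℝ) ^ 2) := by ring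
    _ ≤ C * Real.sqrt (A * N) := mul_le_mul_of_nonneg_left h2 hC

/-- **Upper bound of the dual norm, free rectangle.** -/
theorem free_upper {α β : ℝ} (hα : 4 < α) (hβ : 0 < β) {a b c d : ℝ} (hab : a < b) (hcd : c < d)
    {q : ℕ → V → ℝ} {F : P → ℝ} (h : Chg a b c d q F)
    (hneut : ∀ n, ∑ x ∈ bx a b c d n, q n x = 0) {v : ℝ}
    (hv : ∀ G : P → ℝ, ContDiff ℝ 2 G → 2 * (∫ z in rct a b c d, F z * G z) -
      cc α β * (∫ z in rct a b c d, gsq G z) ≤ v) {ε : ℝ} (hε : 0 < ε) :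
    ∀ᶠ n : ℕ in atTop, ∀ φ : V → ℝ,
      2 * pr (bx a b c d n) (q n) φ - QF α β (bx a b c d n) φ φ ≤ v + ε := by
  classical
  obtain ⟨p, hp, hpo⟩ := poinc_box (α := α) hβ hab hcd
  obtain ⟨C, hC⟩ := h.bd
  obtain ⟨A, hA0, hA⟩ := card_bx_bound a b c d
  have hC0 : 0 ≤ C := by
    have h1 := hC 1 0
    have h2 := abs_nonneg (q 1 0)
    simp at h1
    linarith
  have hv0 : 0 ≤ v := by
    have := hv (fun _ => 0) contDiff_const
    unfold gsq at this
    simpa using this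
  set T : ℝ := (2 * C * Real.sqrt A / p) ^ 2 with hT
  have hT0 : 0 ≤ T := sq_nonneg _
  set z₀ : P := ((a + b) / 2, (c + d) / 2) with hz₀
  obtain ⟨δ, hδ0, hδ1, hδ⟩ := h.pair_est z₀ hT0 (ε := ε / 4) (by positivity)
  set η : ℝ := min δ (δ * min (b - a) (d - c) / 2) with hη
  have hmin : 0 < min (b - a) (d - c) := lt_min (by linarith) (by linarith)
  have hη0 : 0 < η := lt_min hδ0 (by positivity)
  have hηδ : η ≤ δ := min_le_left _ _
  have hη1 : η ≤ δ * (b - a) / 2 := by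
    refine (min_le_right _ _).trans ?_
    have := mul_le_mul_of_nonneg_left (min_le_left (b - a) (d - c)) hδ0.le
    linarith
  have hη2 : η ≤ δ * (d - c) / 2 := by
    refine (min_le_right _ _).trans ?_
    have := mul_le_mul_of_nonneg_left (min_le_right (b - a) (d - c)) hδ0.le
    linarith
  obtain ⟨ρ, hρ⟩ := exists_moll hη0
  have hpair := hδ δ hδ0.le le_rfl η hη0 hηδ ρ hρ
  have hen := mol_energy (α := α) hα hβ.le (a := a) (b := b) (c := c) (d := d) (η := η)
    (a' := z₀.1 + (1 - δ) * (a - z₀.1)) (b' := z₀.1 + (1 - δ) * (b - z₀.1))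
    (c' := z₀.2 + (1 - δ) * (c - z₀.2)) (d' := z₀.2 + (1 - δ) * (d - z₀.2))
    (by rw [hz₀]; simp only; nlinarith) (by rw [hz₀]; simp only; nlinarith)
    (by rw [hz₀]; simp only; nlinarith) (by rw [hz₀]; simp only; nlinarith)
    hρ T (2 * (C * Real.sqrt (A * T))) (ε := ε / 2) (by positivity)
  obtain ⟨hFm, ⟨CF, hCF0, hCF⟩, hF0⟩ := h.props
  filter_upwards [hpair, hen, hpo, eventually_gt_atTop 0] with n hpair hen hpo hn φ
  have hn' : (0 : ℝ) < n := by exact_mod_cast hn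
  set S := bx a b c d n with hS
  -- normalisation
  set m : ℝ := (∑ x ∈ S, φ x) / S.card with hm
  set φ1 : V → ℝ := fun x => if x ∈ S then φ x - m else 0 with hφ1
  have hsup : Supp S φ1 := fun x hx => by rw [hφ1]; simp only; rw [if_neg hx]
  have hsum : ∑ x ∈ S, φ1 x = 0 := by
    have e : ∑ x ∈ S, φ1 x = ∑ x ∈ S, (φ x - m) :=
      Finset.sum_congr rfl fun x hx => by rw [hφ1]; simp only; rw [if_pos hx]
    rw [e, Finset.sum_sub_distrib, Finset.sum_const, nsmul_eq_mul]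
    by_cases hc : S.card = 0
    · rw [Finset.card_eq_zero] at hc
      rw [hc]; simp
    · have : (S.card : ℝ) ≠ 0 := by exact_mod_cast hc
      rw [hm]
      field_simp
      ring
  have hpr : pr S (q n) φ1 = pr S (q n) φ := by
    rw [hφ1, pr_congr_restrict S (q n) (fun x => φ x - m)]
    unfold pr
    have e : ∑ x ∈ S, q n x * (φ x - m) = ∑ x ∈ S, q n x * φ x - (∑ x ∈ S, q n x) * m := by
      rw [Finset.sum_mul, ← Finset.sum_sub_distrib]
      exact Finset.sum_congr rfl fun x _ => by ring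
    rw [e, hneut n]
    ring
  have hQ : QF α β S φ1 φ1 = QF α β S φ φ :=
    Qfr_congr (c := -m) (d := -m)
      (fun x hx => by rw [hφ1]; simp only; rw [if_pos hx]; ring)
      (fun x hx => by rw [hφ1]; simp only; rw [if_pos hx]; ring)
  rw [← hpr, ← hQ]
  have hP := hpo φ1 hsum
  set N : ℝ := (∑ x ∈ S, φ1 x ^ 2) / (n : ℝ) ^ 2 with hN
  have hN0 : 0 ≤ N := div_nonneg (Finset.sum_nonneg fun _ _ => sq_nonneg _) (by positivity)
  have hprN : |pr S (q n) φ1| ≤ C * Real.sqrt (A * N) :=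
    pr_abs_le hn hC0 (hA n hn) (hC n) le_rfl
  have hprN' := (abs_le.1 hprN).2
  by_cases hNT : N ≤ T
  · by_cases hneg : 2 * pr S (q n) φ1 - QF α β S φ1 φ1 ≤ 0
    · linarith
    · push Not at hneg
      have hsq : Real.sqrt (A * N) ≤ Real.sqrt (A * T) :=
        Real.sqrt_le_sqrt (mul_le_mul_of_nonneg_left hNT hA0)
      have hQT : QF α β S φ1 φ1 ≤ 2 * (C * Real.sqrt (A * T)) := by
        have := mul_le_mul_of_nonneg_left hsq hC0
        linarith
      have h1 := hen φ1 hsup hNT hQT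
      have h2 := (abs_le.1 (hpair φ1 hNT)).2
      set U := mol ρ n S φ1 with hU
      have hUd : ContDiff ℝ 2 U := contDiff_two_of_top (contDiff_mol hρ.smooth n S φ1)
      have h3 := hv (fun z => U (Tm z₀ δ z)) (contDiff_comp_Tm hUd z₀ δ)
      rw [int_gsq_Tm (hUd.differentiable (by norm_num)) z₀ (by linarith)] at h3
      have h4 : ∫ z in rct a b c d, F z * U (Tm z₀ δ z) = ∫ z, F z * U (Tm z₀ δ z) := by
        refine setIntegral_eq_integral_of_ae_compl_eq_zero ?_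
        filter_upwards [hF0] with z hz hz'
        rw [hz hz', zero_mul]
      rw [h4] at h3
      linarith
  · push Not at hNT
    have h1 : Real.sqrt (A * N) = Real.sqrt A * Real.sqrt N := Real.sqrt_mul hA0 N
    have h2 : 2 * C * Real.sqrt A / p ≤ Real.sqrt N := by
      have := Real.sqrt_le_sqrt hNT.le
      rwa [hT, Real.sqrt_sq (by positivity)] at this
    rw [div_le_iff₀ hp] at h2
    have h3 : Real.sqrt N * Real.sqrt N = N := Real.mul_self_sqrt hN0
    have h4 : 2 * (C * (Real.sqrt A * Real.sqrt N)) ≤ p * N := by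
      have := mul_le_mul_of_nonneg_right h2 (Real.sqrt_nonneg N)
      nlinarith
    rw [h1] at hprN'
    linarith

end Pool.Agent.LR.B3
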