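import Pool.Agent.LR.B3.FreeUpper
import Pool.Agent.LR.B1.Pot

/-! # LR project, block B3: `gamD`, the dual norm in stable domains. -/

set_option autoImplicit false

noncomputable section

open scoped BigOperators Topology
open MeasureTheory Filter Set

namespace Pool.Agent.LR.B3

lemma norm_sc_le {n : ℕ} (hn : 0 < n) {K : ℝ} {x : V} : ‖sc n x‖ ≤ K ↔ x ∈ sq K n := by
  have hn' : (0 : ℝ) < n := by exact_mod_cast hn
  rw [Prod.norm_def, mem_sq, max_le_iff]
  unfold sc
  simp only [Real.norm_eq_abs, abs_div, abs_of_pos hn']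
  rw [div_le_iff₀ hn', div_le_iff₀ hn']

lemma mem_Lam {D : Set P} {K : ℝ} (hK : ∀ z ∈ D, ‖z‖ ≤ K) {n : ℕ} (hn : 0 < n) {x : V} :
    x ∈ Lam D n ↔ sc n x ∈ D := by
  classical
  have hfin : {x : V | sc n x ∈ D}.Finite := by
    refine (sq K n).finite_toSet.subset fun x hx => ?_
    exact (norm_sc_le hn).1 (hK _ hx)
  unfold Lam
  rw [dif_pos hfin, Set.Finite.mem_toFinset]
  rfl

lemma Lam_subset {D : Set P} {K : ℝ} (hK : ∀ z ∈ D, ‖z‖ ≤ K) {n : ℕ} (hn : 0 < n) :
    Lam D n ⊆ sq K n := fun _ hx => (norm_sc_le hn).1 (hK _ ((mem_Lam hK hn).1 hx))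

/-- Sampling a continuous function with compact support gives a charge. -/
theorem chg_Chg {f : P → ℝ} (hf : Continuous f) {K : ℝ} (hK : ∀ z, f z ≠ 0 → ‖z‖ ≤ K) :
    Chg (-K) K (-K) K (chg f) f := by
  have hc : HasCompactSupport f :=
    HasCompactSupport.of_support_subset_isCompact (isCompact_closedBall (0 : P) K) fun z hz => by
      rw [mem_closedBall_zero_iff]; exact hK z hz
  obtain ⟨C, hC0, hC⟩ := bound_of_compact f hf hc
  refine ⟨?_, ⟨C, ?_⟩, ?_⟩
  · intro n x hx
    unfold chg
    rcases Nat.eq_zero_or_pos n with hn | hn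
    · subst hn; simp
    · by_contra h0
      apply hx
      have : f (sc n x) ≠ 0 := fun h => h0 (by rw [h, zero_div])
      exact (norm_sc_le hn).1 (hK _ this)
  · intro n x
    unfold chg
    rw [abs_div, abs_of_nonneg (by positivity : (0 : ℝ) ≤ (n : ℝ) ^ 2)]
    exact div_le_div_of_nonneg_right (hC _) (by positivity)
  · refine Eventually.of_forall fun z => ?_
    have h1 := (hf.tendsto z).comp (tendsto_sc_fl z)
    refine h1.congr' ?_
    filter_upwards [eventually_gt_atTop 0] with n hn
    have hn' : (0 : ℝ) < n := by exact_mod_cast hn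
    unfold chg
    rw [mul_div_cancel₀ _ (by positivity)]
    rfl

lemma Tm_zero (z : P) : Tm 0 0 z = z := by
  unfold Tm; simp

lemma gsq_eq_zero {U : P → ℝ} {z : P} (hz : z ∉ tsupport U) : gsq U z = 0 := by
  have h5 : fderiv ℝ U z = 0 := by
    by_contra h6
    exact hz (support_fderiv_subset ℝ h6)
  unfold gsq
  rw [h5]
  simp

lemma dir_smul {U : P → ℝ} (hU : Differentiable ℝ U) (r : ℝ) :
    Dir (fun z => r * U z) = r ^ 2 * Dir U := by
  unfold Dir
  rw [← integral_const_mul]
  refine integral_congr_ae (Eventually.of_forall fun z => ?_)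
  simp only
  unfold gsq
  have h1 : fderiv ℝ (fun z => r * U z) z = r • fderiv ℝ U z := fderiv_const_mul (hU z) r
  rw [h1]
  have e : ∀ e : P, (r • fderiv ℝ U z) e = r * fderiv ℝ U z e := fun e => rfl
  rw [e, e]
  ring

/-- **Upper bound of the dual norm, Dirichlet.** -/
theorem dir_upper {α β : ℝ} (hα : 4 < α) (hβ : 0 < β) {D : Set P} {K : ℝ} (hK0 : 0 ≤ K)
    (hK : ∀ z ∈ D, ‖z‖ ≤ K) {f : P → ℝ} (hf : Test D f) {δ : ℝ} (hδ : 0 < δ) {v : ℝ}
    (hv : ∀ φ, Test (Metric.thickening δ D) φ → 2 * (∫ z, f z * φ z) - Dir φ ≤ v) {ε : ℝ}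
    (hε : 0 < ε) : ∀ᶠ n : ℕ in atTop,
      nsq (QD α β (Lam D n)) (Lam D n) (chg f n) ≤ (cc α β)⁻¹ * v + ε := by
  classical
  have hcc := cc_pos hα hβ
  obtain ⟨p, hp, hpo⟩ := poinc_sq (α := α) hβ hK0
  have hfK : ∀ z, f z ≠ 0 → ‖z‖ ≤ K + 1 := fun z hz => by
    have := hK z (hf.supp (subset_tsupport f hz))
    linarith
  have h : Chg (-(K + 1)) (K + 1) (-(K + 1)) (K + 1) (chg f) f :=
    chg_Chg hf.smooth.continuous hfK
  obtain ⟨C, hC⟩ := h.bd
  obtain ⟨A, hA0, hA⟩ := card_bx_bound (-(K + 1)) (K + 1) (-(K + 1)) (K + 1)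
  have hC0 : 0 ≤ C := by
    have h1 := hC 1 0
    have h2 := abs_nonneg (chg f 1 0)
    simp at h1
    linarith
  have hv0 : 0 ≤ v := by
    have h0 : Test (Metric.thickening δ D) (fun _ => 0) := by
      refine ⟨contDiff_const, HasCompactSupport.zero, ?_⟩
      have : tsupport (fun _ : P => (0 : ℝ)) = ∅ := by
        rw [tsupport_eq_empty_iff]; rfl
      rw [this]; exact Set.empty_subset _
    have := hv _ h0
    unfold Dir gsq at this
    simpa using this
  set T : ℝ := (2 * C * Real.sqrt A / p) ^ 2 with hT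
  have hT0 : 0 ≤ T := sq_nonneg _
  obtain ⟨δ1, hδ10, hδ11, hδ1⟩ := h.pair_est 0 hT0 (ε := ε / 4) (by positivity)
  set η : ℝ := min δ1 (min (δ / 2) (1 / 2)) with hη
  have hη0 : 0 < η := by positivity
  have hηδ1 : η ≤ δ1 := min_le_left _ _
  have hηδ : η ≤ δ / 2 := (min_le_right _ _).trans (min_le_left _ _)
  have hη2 : η ≤ 1 / 2 := (min_le_right _ _).trans (min_le_right _ _)
  obtain ⟨ρ, hρ⟩ := exists_moll hη0
  have hpair := hδ1 0 le_rfl hδ10.le η hη0 hηδ1 ρ hρ
  have hen := mol_energy (α := α) hα hβ.le (a := -(K + 1)) (b := K + 1) (c := -(K + 1))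
    (d := K + 1) (η := η) (a' := -(K + 1 / 2)) (b' := K + 1 / 2) (c' := -(K + 1 / 2))
    (d' := K + 1 / 2) (by linarith) (by linarith) (by linarith) (by linarith)
    hρ T (2 * (C * Real.sqrt (A * T))) (ε := ε / 2) (by positivity)
  filter_upwards [hpair, hen, hpo, eventually_gt_atTop 0] with n hpair hen hpo hn
  have hn' : (0 : ℝ) < n := by exact_mod_cast hn
  refine nsq_le _ fun φ hφ => ?_
  have hLK : Lam D n ⊆ sq K n := Lam_subset hK hn
  have hLS : Lam D n ⊆ sq (K + 1) n := hLK.trans (sq_subset K n)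
  have hφK : Supp (sq K n) φ := fun x hx => hφ x fun h' => hx (hLK h')
  have hφS : Supp (sq (K + 1) n) φ := fun x hx => hφ x fun h' => hx (hLS h')
  have eQ : QD α β (Lam D n) φ φ = QD α β (sq (K + 1) n) φ φ :=
    QD_eq_of_subset (by linarith) hβ.le hLS hφ
  have epr : pr (Lam D n) (chg f n) φ = pr (sq (K + 1) n) (chg f n) φ :=
    pr_eq_of_supp hLS _ hφ
  rw [eQ, epr]
  have hQF : QF α β (sq (K + 1) n) φ φ ≤ QD α β (sq (K + 1) n) φ φ := QF_le_QD hβ.le _ _
  have hP := hpo φ hφK
  set S := sq (K + 1) n with hS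
  set N : ℝ := (∑ x ∈ S, φ x ^ 2) / (n : ℝ) ^ 2 with hN
  have hN0 : 0 ≤ N := div_nonneg (Finset.sum_nonneg fun _ _ => sq_nonneg _) (by positivity)
  have hprN : |pr S (chg f n) φ| ≤ C * Real.sqrt (A * N) :=
    pr_abs_le hn hC0 (hA n hn) (hC n) le_rfl
  have hprN' := (abs_le.1 hprN).2
  have hcv : 0 ≤ (cc α β)⁻¹ * v := by positivity
  by_cases hNT : N ≤ T
  · by_cases hneg : 2 * pr S (chg f n) φ - QD α β S φ φ ≤ 0
    · linarith
    · push Not at hneg
      have hsq : Real.sqrt (A * N) ≤ Real.sqrt (A * T) :=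
        Real.sqrt_le_sqrt (mul_le_mul_of_nonneg_left hNT hA0)
      have hQT : QF α β S φ φ ≤ 2 * (C * Real.sqrt (A * T)) := by
        have := mul_le_mul_of_nonneg_left hsq hC0
        linarith
      have h1 := hen φ hφS hNT hQT
      have h2 := (abs_le.1 (hpair φ hNT)).2
      set U := mol ρ n S φ with hU
      have hUc : ContDiff ℝ ((⊤ : ℕ∞) : WithTop ℕ∞) U := contDiff_mol hρ.smooth n S φ
      have hUd : Differentiable ℝ U := (contDiff_two_of_top hUc).differentiable (by norm_num)
      -- support of `U`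
      have hUL : U = mol ρ n (Lam D n) φ := by
        funext z
        rw [hU]
        unfold mol
        congr 1
        symm
        refine Finset.sum_subset hLS fun y _ hy => ?_
        rw [hφ y hy, mul_zero]
      have hsupp : ∀ z, U z ≠ 0 → ∃ w ∈ D, ‖z - w‖ < η := by
        intro z hz
        rw [hUL] at hz
        obtain ⟨y, hy, hzy⟩ := mol_ne_zero hρ n _ φ z hz
        exact ⟨sc n y, (mem_Lam hK hn).1 hy, hzy⟩
      have hts : tsupport U ⊆ Metric.cthickening η D := by
        refine closure_minimal (fun z hz => ?_) Metric.isClosed_cthickening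
        obtain ⟨w, hw, hzw⟩ := hsupp z hz
        refine Metric.thickening_subset_cthickening _ _ ?_
        rw [Metric.mem_thickening_iff]
        exact ⟨w, hw, by rw [dist_eq_norm]; exact hzw⟩
      have hts2 : tsupport U ⊆ Metric.thickening δ D :=
        hts.trans (Metric.cthickening_subset_thickening' hδ (by linarith) D)
      have hts3 : ∀ z ∈ tsupport U, ‖z‖ ≤ K + 1 / 2 := by
        intro z hz
        have hcl : tsupport U ⊆ Metric.closedBall (0 : P) (K + 1 / 2) := by
          refine closure_minimal (fun z hz => ?_) Metric.isClosed_closedBall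
          obtain ⟨w, hw, hzw⟩ := hsupp z hz
          rw [mem_closedBall_zero_iff]
          have h4 : ‖z‖ ≤ ‖z - w‖ + ‖w‖ := by
            have := norm_add_le (z - w) w
            rwa [sub_add_cancel] at this
          have := hK w hw
          linarith
        exact mem_closedBall_zero_iff.1 (hcl hz)
      have hDir : ∫ z in rct (-(K + 1 / 2)) (K + 1 / 2) (-(K + 1 / 2)) (K + 1 / 2), gsq U z =
          Dir U := by
        unfold Dir
        refine setIntegral_eq_integral_of_forall_compl_eq_zero fun z hz => ?_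
        refine gsq_eq_zero fun h1 => hz ?_
        have h2 := hts3 z h1
        rw [Prod.norm_def] at h2
        have h3 := (le_max_left _ _).trans h2
        have h4 := (le_max_right _ _).trans h2
        rw [Real.norm_eq_abs, abs_le] at h3 h4
        rw [mem_rct]
        exact ⟨⟨by linarith, by linarith⟩, by linarith, by linarith⟩
      rw [hDir] at h1
      have hTest : Test (Metric.thickening δ D) (fun z => cc α β * U z) := by
        refine ⟨contDiff_const.mul hUc, ?_, ?_⟩
        · exact (compact_mol hρ n S φ).mul_left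
        · refine (closure_mono ?_).trans hts2
          intro z hz
          have : cc α β * U z ≠ 0 := hz
          exact right_ne_zero_of_mul this
      have h3 := hv _ hTest
      rw [dir_smul hUd] at h3
      have e1 : ∫ z, f z * (cc α β * U z) = cc α β * ∫ z, f z * U z := by
        rw [← integral_const_mul]
        refine integral_congr_ae (Eventually.of_forall fun z => ?_)
        simp only
        ring
      rw [e1] at h3
      simp_rw [Tm_zero] at h2
      have h4 : 2 * (∫ z, f z * U z) - cc α β * Dir U ≤ (cc α β)⁻¹ * v := by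
        rw [inv_mul_eq_div, le_div_iff₀ hcc]
        nlinarith
      linarith
  · push Not at hNT
    have h1 : Real.sqrt (A * N) = Real.sqrt A * Real.sqrt N := Real.sqrt_mul hA0 N
    have h2 : 2 * C * Real.sqrt A / p ≤ Real.sqrt N := by
      have := Real.sqrt_le_sqrt hNT.le
      rwa [hT, Real.sqrt_sq (by positivity)] at this
    rw [div_le_iff₀ hp] at h2
    have h3 : Real.sqrt N * Real.sqrt N = N := Real.mul_self_sqrt hN0
    have h4 : 2 * (C * (Real.sqrt A * Real.sqrt N)) ≤ p * N := by
      have := mul_le_mul_of_nonneg_right h2 (Real.sqrt_nonneg N)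
      nlinarith
    rw [h1] at hprN'
    linarith

end Pool.Agent.LR.B3
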