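import Pool.Agent.LR.B3.GamD

/-! # LR project, block B3: `gamD`, the dual norm in stable domains. -/

set_option autoImplicit false

noncomputable section

open scoped BigOperators Topology
open MeasureTheory Filter Set

namespace Pool.Agent.LR

open B3

/-- Pairing of a sampled charge with a sampled function. -/
theorem chg_smp {f G : P → ℝ} (hf : Continuous f) (hc : HasCompactSupport f) (hG : Continuous G)
    (Λ : ℕ → Finset V)
    (hΛ : ∀ᶠ n in atTop, ∀ x, x ∉ Λ n → chg f n x * smp G n x = 0) :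
    Tendsto (fun n => pr (Λ n) (chg f n) (smp G n)) atTop (𝓝 (∫ z, f z * G z)) := by
  have h := tendsto_riemann (fun z => f z * G z) (hf.mul hG) (hc.mul_right (f' := G)) Λ (by
    filter_upwards [hΛ, eventually_gt_atTop 0] with n hn hn0 x hx
    have hn' : (0 : ℝ) < n := by exact_mod_cast hn0
    have h1 := hn x hx
    unfold chg smp at h1
    unfold smp
    rw [div_mul_eq_mul_div, div_eq_zero_iff] at h1
    rcases h1 with h1 | h1
    · exact h1
    · exact absurd h1 (by positivity))
  refine h.congr fun n => ?_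
  unfold pr
  rw [Finset.sum_div]
  refine Finset.sum_congr rfl fun x _ => ?_
  unfold chg smp
  ring

/-- Lower bound of the dual norm in any bounded open set. -/
theorem dir_lower {α β : ℝ} (hα : 4 < α) (hβ : 0 < β) {D : Set P}
    (hb : Bornology.IsBounded D) {f : P → ℝ} (hf : Test D f) {φ : P → ℝ} (hφ : Test D φ) {ε : ℝ}
    (hε : 0 < ε) : ∀ᶠ n : ℕ in atTop,
      (cc α β)⁻¹ * (2 * (∫ z, f z * φ z) - Dir φ) - ε ≤
        nsq (QD α β (Lam D n)) (Lam D n) (chg f n) := by
  have hcc := cc_pos hα hβ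
  obtain ⟨K, hK⟩ := hb.exists_norm_le
  set G : P → ℝ := fun z => (cc α β)⁻¹ * φ z with hG
  have hφ2 : ContDiff ℝ 2 φ := contDiff_two_of_top hφ.smooth
  have hG2 : ContDiff ℝ 2 G := contDiff_const.mul hφ2
  have hGc : HasCompactSupport G := hφ.comp.mul_left
  have hsup : ∀ᶠ n : ℕ in atTop, Supp (Lam D n) (smp G n) := by
    filter_upwards [eventually_gt_atTop 0] with n hn x hx
    by_contra h0
    apply hx
    rw [mem_Lam hK hn]
    have : φ (sc n x) ≠ 0 := by
      intro h1
      apply h0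
      show (cc α β)⁻¹ * φ (sc n x) = 0
      rw [h1, mul_zero]
    exact hφ.supp (subset_tsupport φ this)
  have h1 := qd_smp hα hβ G hG2 hGc (fun n => Lam D n) hsup
  have h2 := chg_smp hf.smooth.continuous hf.comp hG2.continuous (fun n => Lam D n) (by
    filter_upwards [hsup] with n hn x hx
    rw [hn x hx, mul_zero])
  have h3 := (h2.const_mul 2).sub h1
  have e1 : Dir G = ((cc α β)⁻¹) ^ 2 * Dir φ := dir_smul (hφ2.differentiable (by norm_num)) _
  have e2 : ∫ z, f z * G z = (cc α β)⁻¹ * ∫ z, f z * φ z := by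
    rw [← integral_const_mul]
    refine integral_congr_ae (Eventually.of_forall fun z => ?_)
    simp only [hG]
    ring
  have e3 : 2 * (∫ z, f z * G z) - cc α β * Dir G =
      (cc α β)⁻¹ * (2 * (∫ z, f z * φ z) - Dir φ) := by
    rw [e1, e2]
    field_simp
  rw [e3] at h3
  have h4 := h3.eventually (lt_mem_nhds (show (cc α β)⁻¹ * (2 * (∫ z, f z * φ z) - Dir φ) - ε <
    (cc α β)⁻¹ * (2 * (∫ z, f z * φ z) - Dir φ) by linarith))
  filter_upwards [h4, hsup] with n h4 hn
  exact h4.le.trans (le_nsq (isForm_QD hβ.le _) (pdef_QD (by linarith) hβ _) _ hn)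

/-- The dual norm of a sampled charge in a stable domain (4.2). -/
theorem gamD {α β : ℝ} (hα : 4 < α) (hβ : 0 < β) {D : Set P} (_hD : IsOpen D)
    (hb : Bornology.IsBounded D) (hs : Stable D) (f : P → ℝ) (hf : Test D f) :
    Tendsto (fun n => nsq (QD α β (Lam D n)) (Lam D n) (chg f n)) atTop
      (𝓝 ((cc α β)⁻¹ * vD D f)) := by
  have hcc := cc_pos hα hβ
  obtain ⟨K', hK'⟩ := hb.exists_norm_le
  have hK : ∀ z ∈ D, ‖z‖ ≤ max K' 0 := fun z hz => (hK' z hz).trans (le_max_left _ _)
  rw [tendsto_order]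
  constructor
  · intro l hl
    have hl' : cc α β * ((l + (cc α β)⁻¹ * vD D f) / 2) < vD D f := by
      have : (l + (cc α β)⁻¹ * vD D f) / 2 < (cc α β)⁻¹ * vD D f := by linarith
      have h2 := mul_lt_mul_of_pos_left this hcc
      rwa [← mul_assoc, mul_inv_cancel₀ hcc.ne', one_mul] at h2
    have hne : {r : ℝ | ∃ φ, Test D φ ∧ r = 2 * (∫ z, f z * φ z) - Dir φ}.Nonempty := by
      refine ⟨_, fun _ => 0, ⟨contDiff_const, HasCompactSupport.zero, ?_⟩, rfl⟩
      have : tsupport (fun _ : P => (0 : ℝ)) = ∅ := by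
        rw [tsupport_eq_empty_iff]; rfl
      rw [this]; exact Set.empty_subset _
    obtain ⟨r, ⟨φ, hφ, rfl⟩, hr⟩ := exists_lt_of_lt_csSup hne hl'
    have hr' : (l + (cc α β)⁻¹ * vD D f) / 2 <
        (cc α β)⁻¹ * (2 * (∫ z, f z * φ z) - Dir φ) := by
      rw [inv_mul_eq_div (cc α β) (2 * (∫ z, f z * φ z) - Dir φ), lt_div_iff₀ hcc]
      linarith
    have h1 := dir_lower hα hβ hb hf hφ
      (ε := ((cc α β)⁻¹ * vD D f - l) / 2) (by linarith)
    filter_upwards [h1] with n hn
    linarith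
  · intro u hu
    have he : 0 < cc α β * ((u - (cc α β)⁻¹ * vD D f) / 3) := by
      have : 0 < u - (cc α β)⁻¹ * vD D f := by linarith
      positivity
    obtain ⟨δ, hδ, hst⟩ := hs f hf _ he
    have h1 := dir_upper hα hβ (le_max_right K' 0) hK hf hδ hst
      (ε := (u - (cc α β)⁻¹ * vD D f) / 3) (by linarith)
    filter_upwards [h1] with n hn
    have e : (cc α β)⁻¹ * (vD D f + cc α β * ((u - (cc α β)⁻¹ * vD D f) / 3)) =
        (cc α β)⁻¹ * vD D f + (u - (cc α β)⁻¹ * vD D f) / 3 := by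
      field_simp
    rw [e] at hn
    linarith

end Pool.Agent.LR
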