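import Pool.Agent.LR.B3.QdSmp
import Pool.Agent.LR.B5.NN

/-! # LR project, block B3: Poincare inequalities in boxes at scale `n`. -/

set_option autoImplicit false

noncomputable section

open scoped BigOperators Topology
open MeasureTheory Filter Set

namespace Pool.Agent.LR.B3

lemma bx_eq_rect (a b c d : ℝ) (n : ℕ) :
    bx a b c d n = B5.rect ⌈n * a⌉ (⌊n * b⌋ + 1) ⌈n * c⌉ (⌊n * d⌋ + 1) := by
  unfold bx B5.rect
  congr 1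

/-- Side lengths. -/
lemma side_bound {a b : ℝ} (hab : a < b) : ∃ L : ℝ, 0 < L ∧ ∀ᶠ n : ℕ in atTop,
    (0 : ℤ) < ⌊(n : ℝ) * b⌋ + 1 - ⌈(n : ℝ) * a⌉ ∧
    ((⌊(n : ℝ) * b⌋ + 1 - ⌈(n : ℝ) * a⌉ : ℤ) : ℝ) ≤ L * n := by
  refine ⟨b - a + 1, by linarith, ?_⟩
  have h1 : ∀ᶠ n : ℕ in atTop, 2 / (b - a) < (n : ℝ) :=
    tendsto_natCast_atTop_atTop.eventually (eventually_gt_atTop _)
  filter_upwards [h1, eventually_gt_atTop 0] with n hn hn0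
  have hn1 : (1 : ℝ) ≤ n := by exact_mod_cast hn0
  have e1 := Int.floor_le ((n : ℝ) * b)
  have e2 := Int.lt_floor_add_one ((n : ℝ) * b)
  have e3 := Int.le_ceil ((n : ℝ) * a)
  have e4 := Int.ceil_lt_add_one ((n : ℝ) * a)
  rw [div_lt_iff₀ (by linarith)] at hn
  constructor
  · have : (0 : ℝ) < ((⌊(n : ℝ) * b⌋ + 1 - ⌈(n : ℝ) * a⌉ : ℤ) : ℝ) := by
      push_cast
      nlinarith
    exact_mod_cast this
  · push_cast
    nlinarith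

/-- Poincare inequality for functions of mean zero. -/
theorem poinc_box {α β : ℝ} (hβ : 0 < β) {a b c d : ℝ} (hab : a < b) (hcd : c < d) :
    ∃ p > 0, ∀ᶠ n : ℕ in atTop, ∀ φ : V → ℝ, ∑ x ∈ bx a b c d n, φ x = 0 →
      p * ((∑ x ∈ bx a b c d n, φ x ^ 2) / (n : ℝ) ^ 2) ≤ QF α β (bx a b c d n) φ φ := by
  obtain ⟨L1, hL1, h1⟩ := side_bound hab
  obtain ⟨L2, hL2, h2⟩ := side_bound hcd
  refine ⟨4 * β / (2 * L2 ^ 2 + 2 * L1 ^ 2), by positivity, ?_⟩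
  filter_upwards [h1, h2, eventually_gt_atTop 0] with n h1 h2 hn φ hφ
  have hn0 : (0 : ℝ) < n := by exact_mod_cast hn
  have hQ := B5.nnE_le_QF (α := α) hβ.le (bx a b c d n) φ
  have hnn := B5.nnE_nonneg (bx a b c d n) φ
  rw [bx_eq_rect] at hφ hQ hnn ⊢
  set A := ⌈(n : ℝ) * a⌉
  set B := ⌊(n : ℝ) * b⌋ + 1
  set C := ⌈(n : ℝ) * c⌉
  set D := ⌊(n : ℝ) * d⌋ + 1
  have hAB : A < B := by linarith [h1.1]
  have hCD : C < D := by linarith [h2.1]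
  have h3 := B5.sum_sub_avg (a := A) (b := B) (c := C) (d := D) (a₁ := A) (b₁ := B) (c₁ := C)
    (d₁ := D) (a₂ := A) (b₂ := B) (c₂ := C) (d₂ := D) (Finset.Subset.refl _)
    (Finset.Subset.refl _) hAB hCD φ
  have h4 : avg (B5.rect A B C D) φ = 0 := by
    rw [B5.avg_eq, hφ, zero_div]
  rw [h4] at h3
  simp only [sub_zero] at h3
  have hDC : ((D - C : ℤ) : ℝ) ≤ L2 * n := h2.2
  have hBA : ((B - A : ℤ) : ℝ) ≤ L1 * n := h1.2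
  have hDC0 : (0 : ℝ) < ((D - C : ℤ) : ℝ) := by exact_mod_cast h2.1
  have hBA0 : (0 : ℝ) < ((B - A : ℤ) : ℝ) := by exact_mod_cast h1.1
  have t1 : (((D - C : ℤ).toNat : ℕ) : ℝ) = ((D - C : ℤ) : ℝ) := by
    have := Int.toNat_of_nonneg (show 0 ≤ D - C by linarith)
    exact_mod_cast this
  have t2 : (((B - A : ℤ).toNat : ℕ) : ℝ) = ((B - A : ℤ) : ℝ) := by
    have := Int.toNat_of_nonneg (show 0 ≤ B - A by linarith)
    exact_mod_cast this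
  rw [B5.rect_card, Nat.cast_mul, t1, t2] at h3
  have h5 : 2 * ((D - C : ℤ) : ℝ) * ((D - C : ℤ) : ℝ) +
      2 * ((B - A : ℤ) : ℝ) * (((B - A : ℤ) : ℝ) * ((D - C : ℤ) : ℝ)) / ((D - C : ℤ) : ℝ) ≤
      (2 * L2 ^ 2 + 2 * L1 ^ 2) * (n : ℝ) ^ 2 := by
    have e : 2 * ((B - A : ℤ) : ℝ) * (((B - A : ℤ) : ℝ) * ((D - C : ℤ) : ℝ)) / ((D - C : ℤ) : ℝ) =
        2 * ((B - A : ℤ) : ℝ) * ((B - A : ℤ) : ℝ) := by
      field_simp
    rw [e]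
    have q1 : ((D - C : ℤ) : ℝ) * ((D - C : ℤ) : ℝ) ≤ (L2 * n) * (L2 * n) :=
      mul_le_mul hDC hDC hDC0.le (by positivity)
    have q2 : ((B - A : ℤ) : ℝ) * ((B - A : ℤ) : ℝ) ≤ (L1 * n) * (L1 * n) :=
      mul_le_mul hBA hBA hBA0.le (by positivity)
    nlinarith
  have h6 : ∑ x ∈ B5.rect A B C D, φ x ^ 2 ≤
      (2 * L2 ^ 2 + 2 * L1 ^ 2) * (n : ℝ) ^ 2 * B5.nnE (B5.rect A B C D) φ :=
    h3.trans (mul_le_mul_of_nonneg_right h5 hnn)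
  refine le_trans ?_ hQ
  have hM : 0 < 2 * L2 ^ 2 + 2 * L1 ^ 2 := by positivity
  rw [div_mul_div_comm, div_le_iff₀ (by positivity)]
  calc 4 * β * ∑ x ∈ B5.rect A B C D, φ x ^ 2
      ≤ 4 * β * ((2 * L2 ^ 2 + 2 * L1 ^ 2) * (n : ℝ) ^ 2 * B5.nnE (B5.rect A B C D) φ) :=
        mul_le_mul_of_nonneg_left h6 (by positivity)
    _ = _ := by ring

lemma QF_le_QD {α β : ℝ} (hβ : 0 ≤ β) (S : Finset V) (φ : V → ℝ) :
    QF α β S φ φ ≤ QD α β S φ φ := by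
  rw [QD_self, QF_self]
  have : 0 ≤ ∑ x ∈ S, kil α β S x * φ x ^ 2 :=
    Finset.sum_nonneg fun x _ => mul_nonneg (kil_nonneg hβ _ _) (sq_nonneg _)
  linarith

lemma sq_subset (K : ℝ) (n : ℕ) : sq K n ⊆ sq (K + 1) n := by
  intro x hx
  rw [mem_sq] at hx ⊢
  have : (0 : ℝ) ≤ n := Nat.cast_nonneg n
  constructor
  · nlinarith [hx.1]
  · nlinarith [hx.2]

/-- Poincare inequality for functions supported in the box `[-Kn, Kn]²`. -/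
theorem poinc_sq {α β : ℝ} (hβ : 0 < β) {K : ℝ} (hK : 0 ≤ K) :
    ∃ p > 0, ∀ᶠ n : ℕ in atTop, ∀ φ : V → ℝ, Supp (sq K n) φ →
      p * ((∑ x ∈ sq (K + 1) n, φ x ^ 2) / (n : ℝ) ^ 2) ≤ QF α β (sq (K + 1) n) φ φ := by
  obtain ⟨L1, hL1, h1⟩ := side_bound (show -(K + 1) < K + 1 by linarith)
  refine ⟨4 * β / (2 * L1 ^ 2 + 2 * L1 ^ 2), by positivity, ?_⟩
  filter_upwards [h1, eventually_gt_atTop 1] with n h1 hn φ hφ
  have hn1 : (1 : ℝ) < n := by exact_mod_cast hn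
  have hn0 : (0 : ℝ) < n := by linarith
  have hQ := B5.nnE_le_QF (α := α) hβ.le (sq (K + 1) n) φ
  have hnn := B5.nnE_nonneg (sq (K + 1) n) φ
  unfold sq at hQ hnn ⊢
  rw [bx_eq_rect] at hQ hnn ⊢
  have hE : (n : ℝ) * K < ⌊(n : ℝ) * K⌋ + 1 := Int.lt_floor_add_one _
  set A := ⌈(n : ℝ) * -(K + 1)⌉ with hA
  set B := ⌊(n : ℝ) * (K + 1)⌋ + 1 with hB
  set E := ⌊(n : ℝ) * K⌋ + 1 with hEdef
  have hAB : A < B := by linarith [h1.1]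
  have hEB : E < B := by
    rw [hEdef, hB]
    have : ⌊(n : ℝ) * K⌋ + 1 ≤ ⌊(n : ℝ) * (K + 1)⌋ := by
      rw [Int.le_floor]
      push_cast
      have := Int.floor_le ((n : ℝ) * K)
      nlinarith
    linarith
  have hAE : A ≤ E := by
    have q1 : A ≤ ⌊(n : ℝ) * K⌋ + 1 := by
      rw [hA, Int.ceil_le]
      push_cast
      nlinarith
    exact q1
  have h3 := B5.sum_sub_avg (a := A) (b := B) (c := A) (d := B) (a₁ := A) (b₁ := B) (c₁ := A)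
    (d₁ := B) (a₂ := E) (b₂ := B) (c₂ := A) (d₂ := B) (Finset.Subset.refl _)
    (by
      intro x hx
      rw [B5.mem_rect] at hx ⊢
      exact ⟨⟨by linarith [hx.1.1], hx.1.2⟩, hx.2⟩) hEB hAB φ
  have h4 : avg (B5.rect E B A B) φ = 0 := by
    rw [B5.avg_eq, Finset.sum_eq_zero, zero_div]
    intro x hx
    refine hφ x fun hx' => ?_
    rw [mem_sq] at hx'
    rw [B5.mem_rect] at hx
    have q1 : (E : ℝ) ≤ x.1 := by exact_mod_cast hx.1.1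
    have q2 := (abs_le.1 hx'.1).2
    rw [hEdef] at q1
    push_cast at q1
    linarith
  rw [h4] at h3
  simp only [sub_zero] at h3
  have hBA : ((B - A : ℤ) : ℝ) ≤ L1 * n := h1.2
  have hBA0 : (0 : ℝ) < ((B - A : ℤ) : ℝ) := by exact_mod_cast h1.1
  have t2 : (((B - A : ℤ).toNat : ℕ) : ℝ) = ((B - A : ℤ) : ℝ) := by
    have := Int.toNat_of_nonneg (show 0 ≤ B - A by linarith)
    exact_mod_cast this
  rw [B5.rect_card, Nat.cast_mul, t2] at h3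
  have h5 : 2 * ((B - A : ℤ) : ℝ) * ((B - A : ℤ) : ℝ) +
      2 * ((B - A : ℤ) : ℝ) * (((B - A : ℤ) : ℝ) * ((B - A : ℤ) : ℝ)) / ((B - A : ℤ) : ℝ) ≤
      (2 * L1 ^ 2 + 2 * L1 ^ 2) * (n : ℝ) ^ 2 := by
    have e : 2 * ((B - A : ℤ) : ℝ) * (((B - A : ℤ) : ℝ) * ((B - A : ℤ) : ℝ)) / ((B - A : ℤ) : ℝ) =
        2 * ((B - A : ℤ) : ℝ) * ((B - A : ℤ) : ℝ) := by
      field_simp
    rw [e]
    have q2 : ((B - A : ℤ) : ℝ) * ((B - A : ℤ) : ℝ) ≤ (L1 * n) * (L1 * n) :=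
      mul_le_mul hBA hBA hBA0.le (by positivity)
    nlinarith
  have h6 : ∑ x ∈ B5.rect A B A B, φ x ^ 2 ≤
      (2 * L1 ^ 2 + 2 * L1 ^ 2) * (n : ℝ) ^ 2 * B5.nnE (B5.rect A B A B) φ :=
    h3.trans (mul_le_mul_of_nonneg_right h5 hnn)
  refine le_trans ?_ hQ
  rw [div_mul_div_comm, div_le_iff₀ (by positivity)]
  calc 4 * β * ∑ x ∈ B5.rect A B A B, φ x ^ 2
      ≤ 4 * β * ((2 * L1 ^ 2 + 2 * L1 ^ 2) * (n : ℝ) ^ 2 * B5.nnE (B5.rect A B A B) φ) :=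
        mul_le_mul_of_nonneg_left h6 (by positivity)
    _ = _ := by ring

end Pool.Agent.LR.B3
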