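import Pool.Agent.LR.B3.Conv
import Pool.Agent.LR.B3.Poin

/-! # LR project, block B3: energy of the mollified function. -/

set_option autoImplicit false

noncomputable section

open scoped BigOperators Topology
open MeasureTheory Filter Set

namespace Pool.Agent.LR.B3

lemma card_bx_bound (a b c d : ℝ) : ∃ A : ℝ, 0 ≤ A ∧ ∀ n : ℕ, 0 < n →
    ((bx a b c d n).card : ℝ) ≤ A * (n : ℝ) ^ 2 := by
  obtain ⟨K, hK0, hK⟩ := bx_bound a b c d
  refine ⟨(2 * K + 1) ^ 2, by positivity, fun n hn => ?_⟩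
  refine le_trans ?_ (card_sq_le K hK0 n hn)
  exact_mod_cast Finset.card_le_card fun x hx => mem_sq.2 (hK n x hx)

lemma contDiff_two_of_top {E : Type*} [NormedAddCommGroup E] [NormedSpace ℝ E] {f : E → ℝ}
    (h : ContDiff ℝ ((⊤ : ℕ∞) : WithTop ℕ∞) f) : ContDiff ℝ 2 f :=
  h.of_le (WithTop.coe_le_coe.2 (le_top : (2 : ℕ∞) ≤ ⊤))

/-- `ℓ¹` is controlled by `ℓ²`. -/
lemma l1_le {S : Finset V} {n : ℕ} (hn : 0 < n) {A T : ℝ} (hA : (S.card : ℝ) ≤ A * (n : ℝ) ^ 2)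
    {φ : V → ℝ} (hφ : (∑ x ∈ S, φ x ^ 2) / (n : ℝ) ^ 2 ≤ T) :
    (∑ x ∈ S, |φ x|) / (n : ℝ) ^ 2 ≤ Real.sqrt (A * T) := by
  have hn0 : (0 : ℝ) < n := by exact_mod_cast hn
  have h1 : (∑ x ∈ S, |φ x|) ^ 2 ≤ S.card * ∑ x ∈ S, φ x ^ 2 := by
    have := Finset.sum_mul_sq_le_sq_mul_sq S (fun _ => (1 : ℝ)) (fun x => |φ x|)
    simpa using this
  have hs0 : 0 ≤ ∑ x ∈ S, φ x ^ 2 := Finset.sum_nonneg fun _ _ => sq_nonneg _
  refine Real.le_sqrt_of_sq_le ?_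
  rw [div_pow]
  rw [div_le_iff₀ (by positivity)] at hφ ⊢
  calc (∑ x ∈ S, |φ x|) ^ 2 ≤ S.card * ∑ x ∈ S, φ x ^ 2 := h1
    _ ≤ (A * (n : ℝ) ^ 2) * (T * (n : ℝ) ^ 2) := by
        have hA0 : 0 ≤ A * (n : ℝ) ^ 2 := (Nat.cast_nonneg _).trans hA
        exact mul_le_mul hA hφ hs0 hA0
    _ = A * T * ((n : ℝ) ^ 2) ^ 2 := by ring

/-- Energy of the mollified function in a smaller rectangle. -/
theorem mol_energy {α β : ℝ} (hα : 4 < α) (hβ : 0 ≤ β) {a b c d a' b' c' d' η : ℝ}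
    (h1 : a + η ≤ a') (h2 : b' + η ≤ b) (h3 : c + η ≤ c') (h4 : d' + η ≤ d) {ρ : P → ℝ}
    (hρ : IsMoll η ρ) (T T' : ℝ) {ε : ℝ} (hε : 0 < ε) :
    ∀ᶠ n : ℕ in atTop, ∀ φ : V → ℝ, Supp (bx a b c d n) φ →
      (∑ x ∈ bx a b c d n, φ x ^ 2) / (n : ℝ) ^ 2 ≤ T →
      QF α β (bx a b c d n) φ φ ≤ T' →
      cc α β * ∫ z in rct a' b' c' d', gsq (mol ρ n (bx a b c d n) φ) z ≤
        QF α β (bx a b c d n) φ φ + ε := by
  obtain ⟨A, hA0, hA⟩ := card_bx_bound a b c d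
  obtain ⟨B, hB0, hB⟩ := exists_C11 (contDiff_two_of_top hρ.smooth) hρ.compact
  -- the two error terms
  have hw := tendsto_weight hρ
  set T1 : ℝ := max T' 0 with hT1
  have hT10 : 0 ≤ T1 := le_max_right _ _
  have e1 : Tendsto (fun n : ℕ => ((∑ a ∈ sbox (rad η n), ρ (sc n a) / (n : ℝ) ^ 2) ^ 2 - 1) * T1)
      atTop (𝓝 0) := by
    have := ((hw.pow 2).sub_const 1).mul_const T1
    simpa using this
  have e2 : Tendsto (fun n : ℕ => err α β a' b' c' d' n * (B * Real.sqrt (A * T)) ^ 2)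
      atTop (𝓝 0) := by
    have := (tendsto_err hα hβ a' b' c' d').mul_const ((B * Real.sqrt (A * T)) ^ 2)
    rwa [zero_mul] at this
  have e3 := (e1.abs).add e2.abs
  rw [abs_zero, add_zero] at e3
  filter_upwards [e3.eventually (gt_mem_nhds hε), eventually_gt_atTop 0] with n hn hn0 φ hφ hT hT'
  have hn' : (0 : ℝ) < n := by exact_mod_cast hn0
  set S := bx a b c d n with hS
  set S' := bx a' b' c' d' n with hS'
  set s := ∑ a ∈ sbox (rad η n), ρ (sc n a) / (n : ℝ) ^ 2 with hs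
  -- averaging
  have k1 : QF α β S' (smp (mol ρ n S φ) n) (smp (mol ρ n S φ) n) ≤ s ^ 2 * QF α β S φ φ := by
    have e : smp (mol ρ n S φ) n = fun x => ∑ a ∈ sbox (rad η n), ρ (sc n a) / (n : ℝ) ^ 2 *
        φ (x - a) := by
      funext x
      exact mol_sc hρ hn0 S φ hφ x
    rw [e]
    refine qfr_avg_le (fun v => Jc_nonneg hβ v) S S' _ _ (fun a _ => by
      have := hρ.nonneg (sc n a); positivity) ?_ φ
    intro t _ ht x hx
    have ht' : ρ (sc n t) ≠ 0 := by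
      intro h0; rw [h0, zero_div] at ht; exact ht rfl
    have q := (hρ.supp _ ht').le
    rw [Prod.norm_def] at q
    unfold sc at q
    simp only [Real.norm_eq_abs, abs_div, abs_of_pos hn'] at q
    have q1 := (le_max_left _ _).trans q
    have q2 := (le_max_right _ _).trans q
    rw [div_le_iff₀ hn', abs_le] at q1 q2
    rw [hS', mem_bx] at hx
    rw [hS, mem_bx]
    simp only [Prod.fst_sub, Prod.snd_sub, Int.cast_sub]
    obtain ⟨⟨x1, x2⟩, x3, x4⟩ := hx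
    refine ⟨⟨?_, ?_⟩, ?_, ?_⟩
    · nlinarith [q1.2, mul_le_mul_of_nonneg_left h1 hn'.le]
    · nlinarith [q1.1, mul_le_mul_of_nonneg_left h2 hn'.le]
    · nlinarith [q2.2, mul_le_mul_of_nonneg_left h3 hn'.le]
    · nlinarith [q2.1, mul_le_mul_of_nonneg_left h4 hn'.le]
  -- smooth energy
  have hl1 := l1_le hn0 (hA n hn0) hT
  have hB1 : 0 ≤ B * ((∑ y ∈ S, |φ y|) / (n : ℝ) ^ 2) := by positivity
  have k2 := energy_bound hα hβ a' b' c' d' hn0 (C11_mol hB n S φ)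
  have k3 : err α β a' b' c' d' n * (B * ((∑ y ∈ S, |φ y|) / (n : ℝ) ^ 2)) ^ 2 ≤
      |err α β a' b' c' d' n * (B * Real.sqrt (A * T)) ^ 2| := by
    rw [abs_mul, abs_of_nonneg (sq_nonneg (B * Real.sqrt (A * T)))]
    refine mul_le_mul (le_abs_self _) ?_ (sq_nonneg _) (abs_nonneg _)
    exact pow_le_pow_left₀ hB1 (mul_le_mul_of_nonneg_left hl1 hB0) 2
  have hQ0 : 0 ≤ QF α β S φ φ := (isForm_QF hβ S).nonneg φ
  have k4 : s ^ 2 * QF α β S φ φ ≤ QF α β S φ φ + |(s ^ 2 - 1) * T1| := by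
    have : (s ^ 2 - 1) * QF α β S φ φ ≤ |(s ^ 2 - 1) * T1| := by
      rw [abs_mul, abs_of_nonneg hT10]
      refine (mul_le_mul_of_nonneg_right (le_abs_self _) hQ0).trans ?_
      exact mul_le_mul_of_nonneg_left (hT'.trans (le_max_left _ _)) (abs_nonneg _)
    linarith
  have k5 := (abs_le.1 k2).1
  linarith

end Pool.Agent.LR.B3
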