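import Pool.Agent.LR.B3.DC

/-! # LR project, block B3: mollification of lattice functions. -/

set_option autoImplicit false

noncomputable section

open scoped BigOperators Topology
open MeasureTheory Filter Set

namespace Pool.Agent.LR.B3

/-- Mollifier of radius `η`. -/
structure IsMoll (η : ℝ) (ρ : P → ℝ) : Prop where
  smooth : ContDiff ℝ ((⊤ : ℕ∞) : WithTop ℕ∞) ρ
  nonneg : ∀ z, 0 ≤ ρ z
  int : ∫ z, ρ z = 1
  supp : ∀ z, ρ z ≠ 0 → ‖z‖ < η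

theorem exists_moll {η : ℝ} (hη : 0 < η) : ∃ ρ, IsMoll η ρ := by
  let f : ContDiffBump (0 : P) := ⟨η / 2, η, half_pos hη, half_lt_self hη⟩
  refine ⟨f.normed volume, f.contDiff_normed, fun z => f.nonneg_normed z, f.integral_normed, ?_⟩
  intro z hz
  have h : z ∈ Function.support (f.normed volume) := hz
  rw [f.support_normed_eq, mem_ball_zero_iff] at h
  exact h

lemma IsMoll.compact {η : ℝ} {ρ : P → ℝ} (h : IsMoll η ρ) : HasCompactSupport ρ := by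
  refine HasCompactSupport.of_support_subset_isCompact (isCompact_closedBall (0 : P) η) ?_
  intro z hz
  rw [mem_closedBall_zero_iff]
  exact (h.supp z hz).le

theorem bound_of_compact {E F : Type*} [NormedAddCommGroup E] [NormedAddCommGroup F] (f : E → F)
    (h1 : Continuous f) (h2 : HasCompactSupport f) : ∃ B, 0 ≤ B ∧ ∀ x, ‖f x‖ ≤ B := by
  obtain ⟨B, hB⟩ := h2.exists_bound_of_continuous h1
  exact ⟨max B 0, le_max_right _ _, fun x => (hB x).trans (le_max_left _ _)⟩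

theorem exists_C11_aux {E : Type*} [NormedAddCommGroup E] [NormedSpace ℝ E] {W : E → ℝ}
    (hW : ContDiff ℝ 2 W) (hc : HasCompactSupport W) :
    ∃ B, 0 ≤ B ∧ Differentiable ℝ W ∧ (∀ z, ‖fderiv ℝ W z‖ ≤ B) ∧
      (∀ z w, ‖fderiv ℝ W z - fderiv ℝ W w‖ ≤ B * ‖z - w‖) := by
  have h1 : ContDiff ℝ 1 (fderiv ℝ W) := hW.fderiv_right (by norm_num)
  have hc1 : HasCompactSupport (fderiv ℝ W) := hc.fderiv (𝕜 := ℝ)
  have hc2 : HasCompactSupport (fderiv ℝ (fderiv ℝ W)) := hc1.fderiv (𝕜 := ℝ)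
  obtain ⟨B1, hB10, hB1⟩ := bound_of_compact _ h1.continuous hc1
  obtain ⟨B2, hB20, hB2⟩ := bound_of_compact _ (h1.continuous_fderiv (by norm_num)) hc2
  refine ⟨max B1 B2, hB10.trans (le_max_left _ _), ?_, ?_, ?_⟩
  · exact hW.differentiable (by norm_num)
  · exact fun z => (hB1 z).trans (le_max_left _ _)
  · intro z w
    have := Convex.norm_image_sub_le_of_norm_fderiv_le (𝕜 := ℝ) (f := fderiv ℝ W) (C := max B1 B2)
      (s := Set.univ) (x := w) (y := z)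
      (fun x _ => (h1.differentiable (by norm_num)) x)
      (fun x _ => (hB2 x).trans (le_max_right _ _)) convex_univ (Set.mem_univ _) (Set.mem_univ _)
    exact this

/-- `C²` functions with compact support are `C^{1,1}`. -/
theorem exists_C11 {W : P → ℝ} (hW : ContDiff ℝ 2 W) (hc : HasCompactSupport W) :
    ∃ B, 0 ≤ B ∧ C11 B W := by
  obtain ⟨B, h0, h1, h2, h3⟩ := exists_C11_aux hW hc
  exact ⟨B, h0, h1, h2, h3⟩

section gen

variable {E : Type*} [NormedAddCommGroup E] [NormedSpace ℝ E] {ι : Type*}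

/-- Weighted sum of translates. -/
def gmol (ρ : E → ℝ) (N : ℝ) (S : Finset ι) (c : ι → E) (φ : ι → ℝ) (z : E) : ℝ :=
  (∑ y ∈ S, ρ (z - c y) * φ y) / N

lemma contDiff_gmol {ρ : E → ℝ} {k : WithTop ℕ∞} (hρ : ContDiff ℝ k ρ) (N : ℝ)
    (S : Finset ι) (c : ι → E) (φ : ι → ℝ) : ContDiff ℝ k (gmol ρ N S c φ) := by
  unfold gmol
  refine ContDiff.div_const ?_ _
  refine ContDiff.sum fun y _ => ?_
  exact (hρ.comp (contDiff_id.sub contDiff_const)).mul contDiff_const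

lemma hasFDerivAt_gmol {ρ : E → ℝ} (hρ : Differentiable ℝ ρ) (N : ℝ)
    (S : Finset ι) (c : ι → E) (φ : ι → ℝ) (z : E) :
    HasFDerivAt (gmol ρ N S c φ) (N⁻¹ • ∑ y ∈ S, φ y • fderiv ℝ ρ (z - c y)) z := by
  have h1 : ∀ y, HasFDerivAt (fun z => ρ (z - c y)) (fderiv ℝ ρ (z - c y)) z := by
    intro y
    have h2 := (hρ (z - c y)).hasFDerivAt
    have h3 : HasFDerivAt (fun z : E => z - c y) (ContinuousLinearMap.id ℝ E) z :=
      (hasFDerivAt_id z).sub_const _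
    have h4 := h2.comp z h3
    rw [ContinuousLinearMap.comp_id] at h4
    exact h4
  have h4 : HasFDerivAt (fun z => ∑ y ∈ S, ρ (z - c y) * φ y)
      (∑ y ∈ S, φ y • fderiv ℝ ρ (z - c y)) z :=
    HasFDerivAt.fun_sum fun y _ => (h1 y).mul_const (φ y)
  have h5 := h4.mul_const (N⁻¹)
  exact h5

lemma fderiv_gmol {ρ : E → ℝ} (hρ : Differentiable ℝ ρ) (N : ℝ)
    (S : Finset ι) (c : ι → E) (φ : ι → ℝ) (z : E) :
    fderiv ℝ (gmol ρ N S c φ) z = N⁻¹ • ∑ y ∈ S, φ y • fderiv ℝ ρ (z - c y) :=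
  (hasFDerivAt_gmol hρ N S c φ z).fderiv

lemma bd_gmol {B : ℝ} {ρ : E → ℝ} (hρ : Differentiable ℝ ρ) (hB : ∀ z, ‖fderiv ℝ ρ z‖ ≤ B)
    {N : ℝ} (hN : 0 ≤ N)
    (S : Finset ι) (c : ι → E) (φ : ι → ℝ) (z : E) :
    ‖fderiv ℝ (gmol ρ N S c φ) z‖ ≤ B * ((∑ y ∈ S, |φ y|) / N) := by
  rw [fderiv_gmol hρ, norm_smul, norm_inv, Real.norm_eq_abs, abs_of_nonneg hN]
  have h1 : ‖∑ y ∈ S, φ y • fderiv ℝ ρ (z - c y)‖ ≤ ∑ y ∈ S, |φ y| * B := by
    refine norm_sum_le_of_le _ fun y _ => ?_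
    rw [norm_smul, Real.norm_eq_abs]
    exact mul_le_mul_of_nonneg_left (hB _) (abs_nonneg _)
  rw [← Finset.sum_mul] at h1
  calc N⁻¹ * ‖∑ y ∈ S, φ y • fderiv ℝ ρ (z - c y)‖
      ≤ N⁻¹ * ((∑ y ∈ S, |φ y|) * B) :=
        mul_le_mul_of_nonneg_left h1 (by positivity)
    _ = B * ((∑ y ∈ S, |φ y|) / N) := by
        rw [div_eq_mul_inv]; ring

lemma lip_gmol {B : ℝ} {ρ : E → ℝ} (hρ : Differentiable ℝ ρ)
    (hB : ∀ z w, ‖fderiv ℝ ρ z - fderiv ℝ ρ w‖ ≤ B * ‖z - w‖)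
    {N : ℝ} (hN : 0 ≤ N)
    (S : Finset ι) (c : ι → E) (φ : ι → ℝ) (z w : E) :
    ‖fderiv ℝ (gmol ρ N S c φ) z - fderiv ℝ (gmol ρ N S c φ) w‖ ≤
      B * ((∑ y ∈ S, |φ y|) / N) * ‖z - w‖ := by
  rw [fderiv_gmol hρ, fderiv_gmol hρ, ← smul_sub, ← Finset.sum_sub_distrib, norm_smul,
    norm_inv, Real.norm_eq_abs, abs_of_nonneg hN]
  have h1 : ‖∑ y ∈ S, (φ y • fderiv ℝ ρ (z - c y) - φ y • fderiv ℝ ρ (w - c y))‖ ≤
      ∑ y ∈ S, |φ y| * (B * ‖z - w‖) := by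
    refine norm_sum_le_of_le _ fun y _ => ?_
    rw [← smul_sub, norm_smul, Real.norm_eq_abs]
    refine mul_le_mul_of_nonneg_left ((hB _ _).trans ?_) (abs_nonneg _)
    rw [sub_sub_sub_cancel_right]
  rw [← Finset.sum_mul] at h1
  calc N⁻¹ * ‖∑ y ∈ S, (φ y • fderiv ℝ ρ (z - c y) - φ y • fderiv ℝ ρ (w - c y))‖
      ≤ N⁻¹ * ((∑ y ∈ S, |φ y|) * (B * ‖z - w‖)) :=
        mul_le_mul_of_nonneg_left h1 (by positivity)
    _ = B * ((∑ y ∈ S, |φ y|) / N) * ‖z - w‖ := by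
        rw [div_eq_mul_inv]; ring

end gen

/-- Mollified lattice function. -/
def mol (ρ : P → ℝ) (n : ℕ) (S : Finset V) (φ : V → ℝ) (z : P) : ℝ :=
  (∑ y ∈ S, ρ (z - sc n y) * φ y) / (n : ℝ) ^ 2

lemma mol_eq (ρ : P → ℝ) (n : ℕ) (S : Finset V) (φ : V → ℝ) :
    mol ρ n S φ = gmol ρ ((n : ℝ) ^ 2) S (sc n) φ := rfl

lemma contDiff_mol {ρ : P → ℝ} {k : WithTop ℕ∞} (hρ : ContDiff ℝ k ρ) (n : ℕ)
    (S : Finset V) (φ : V → ℝ) : ContDiff ℝ k (mol ρ n S φ) :=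
  contDiff_gmol hρ _ _ _ _

/-- `C^{1,1}` bound of the mollified function. -/
theorem C11_mol {B : ℝ} {ρ : P → ℝ} (hρ : C11 B ρ) (n : ℕ) (S : Finset V)
    (φ : V → ℝ) : C11 (B * ((∑ y ∈ S, |φ y|) / (n : ℝ) ^ 2)) (mol ρ n S φ) :=
  ⟨fun z => (hasFDerivAt_gmol hρ.diff _ _ _ _ z).differentiableAt,
    fun z => bd_gmol hρ.diff hρ.bd (by positivity) _ _ _ z,
    fun z w => lip_gmol hρ.diff hρ.lip (by positivity) _ _ _ z w⟩

lemma sc_sub (n : ℕ) (x y : V) : sc n x - sc n y = sc n (x - y) := by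
  unfold sc
  ext
  · simp [sub_div]
  · simp [sub_div]

/-- Symmetric box of lattice vectors. -/
def sbox (k : ℕ) : Finset V := Finset.Icc (-(k : ℤ)) k ×ˢ Finset.Icc (-(k : ℤ)) k

lemma mem_sbox {k : ℕ} {x : V} : x ∈ sbox k ↔ |x.1| ≤ (k : ℤ) ∧ |x.2| ≤ (k : ℤ) := by
  unfold sbox
  rw [Finset.mem_product, Finset.mem_Icc, Finset.mem_Icc, abs_le, abs_le]

/-- The averaging radius. -/
def rad (η : ℝ) (n : ℕ) : ℕ := ⌈η * n⌉₊

lemma mem_sbox_of_moll {η : ℝ} {ρ : P → ℝ} (h : IsMoll η ρ) {n : ℕ} (hn : 0 < n) {a : V}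
    (ha : ρ (sc n a) ≠ 0) : a ∈ sbox (rad η n) := by
  have hn' : (0 : ℝ) < n := by exact_mod_cast hn
  have h1 := (h.supp _ ha).le
  rw [Prod.norm_def] at h1
  unfold sc at h1
  simp only [Real.norm_eq_abs, abs_div, abs_of_pos hn'] at h1
  have h2 := (le_max_left _ _).trans h1
  have h3 := (le_max_right _ _).trans h1
  rw [div_le_iff₀ hn'] at h2 h3
  have h4 : η * n ≤ (rad η n : ℝ) := Nat.le_ceil _
  rw [mem_sbox]
  constructor
  · have : |(a.1 : ℝ)| ≤ (rad η n : ℝ) := h2.trans h4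
    exact_mod_cast this
  · have : |(a.2 : ℝ)| ≤ (rad η n : ℝ) := h3.trans h4
    exact_mod_cast this

/-- Sampling of the mollified function = average of translates. -/
theorem mol_sc {η : ℝ} {ρ : P → ℝ} (h : IsMoll η ρ) {n : ℕ} (hn : 0 < n) (S : Finset V)
    (φ : V → ℝ) (hφ : Supp S φ) (x : V) :
    mol ρ n S φ (sc n x) = ∑ a ∈ sbox (rad η n), ρ (sc n a) / (n : ℝ) ^ 2 * φ (x - a) := by
  classical
  unfold mol
  simp_rw [sc_sub]
  rw [Finset.sum_div]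
  have h1 : ∑ a ∈ sbox (rad η n), ρ (sc n a) / (n : ℝ) ^ 2 * φ (x - a) =
      ∑ y ∈ (sbox (rad η n)).image (fun a => x - a), ρ (sc n (x - y)) * φ y / (n : ℝ) ^ 2 := by
    rw [Finset.sum_image (fun a _ b _ h => sub_right_injective h)]
    refine Finset.sum_congr rfl fun a _ => ?_
    rw [sub_sub_cancel]
    ring
  rw [h1]
  set T := (sbox (rad η n)).image (fun a => x - a)
  have h2 : ∑ y ∈ S, ρ (sc n (x - y)) * φ y / (n : ℝ) ^ 2 =
      ∑ y ∈ S ∪ T, ρ (sc n (x - y)) * φ y / (n : ℝ) ^ 2 := by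
    refine Finset.sum_subset Finset.subset_union_left fun y _ hy => ?_
    rw [hφ y hy]; simp
  have h3 : ∑ y ∈ T, ρ (sc n (x - y)) * φ y / (n : ℝ) ^ 2 =
      ∑ y ∈ S ∪ T, ρ (sc n (x - y)) * φ y / (n : ℝ) ^ 2 := by
    refine Finset.sum_subset Finset.subset_union_right fun y _ hy => ?_
    by_contra hne
    have h4 : ρ (sc n (x - y)) ≠ 0 := by
      intro h0
      rw [h0] at hne
      simp at hne
    refine hy (Finset.mem_image.2 ⟨x - y, mem_sbox_of_moll h hn h4, sub_sub_cancel _ _⟩)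
  rw [h2, h3]

/-- The total weight tends to `1`. -/
theorem tendsto_weight {η : ℝ} {ρ : P → ℝ} (h : IsMoll η ρ) :
    Tendsto (fun n : ℕ => ∑ a ∈ sbox (rad η n), ρ (sc n a) / (n : ℝ) ^ 2) atTop (𝓝 1) := by
  have h1 := tendsto_riemann ρ h.smooth.continuous h.compact (fun n => sbox (rad η n)) (by
    filter_upwards [eventually_gt_atTop 0] with n hn x hx
    by_contra h0
    exact hx (mem_sbox_of_moll h hn h0))
  rw [h.int] at h1
  refine h1.congr fun n => ?_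
  rw [Finset.sum_div]
  rfl

/-- Support of the mollified function. -/
lemma mol_ne_zero {η : ℝ} {ρ : P → ℝ} (h : IsMoll η ρ) (n : ℕ) (S : Finset V)
    (φ : V → ℝ) (z : P) (hz : mol ρ n S φ z ≠ 0) : ∃ y ∈ S, ‖z - sc n y‖ < η := by
  by_contra hcon
  push Not at hcon
  apply hz
  unfold mol
  rw [Finset.sum_eq_zero, zero_div]
  intro y hy
  have : ρ (z - sc n y) = 0 := by
    by_contra h0
    exact absurd (h.supp _ h0) (not_lt.2 (hcon y hy))
  rw [this, zero_mul]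

lemma compact_mol {η : ℝ} {ρ : P → ℝ} (h : IsMoll η ρ) (n : ℕ) (S : Finset V)
    (φ : V → ℝ) : HasCompactSupport (mol ρ n S φ) := by
  have h1 : IsCompact (⋃ y ∈ S, Metric.closedBall (sc n y) η) :=
    S.isCompact_biUnion fun y _ => isCompact_closedBall _ _
  refine HasCompactSupport.of_support_subset_isCompact h1 ?_
  intro z hz
  obtain ⟨y, hy, hz'⟩ := mol_ne_zero h n S φ z hz
  simp only [Set.mem_iUnion]
  refine ⟨y, hy, ?_⟩
  rw [Metric.mem_closedBall, dist_eq_norm]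
  exact hz'.le

end Pool.Agent.LR.B3
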