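import Pool.Agent.LR.B3.MolEnergy

/-! # LR project, block B3: dilations, `L²` bound of the mollified function. -/

set_option autoImplicit false

noncomputable section

open scoped BigOperators Topology
open MeasureTheory Filter Set

namespace Pool.Agent.LR.B3

/-- Dilation with centre `z₀` and factor `1 - θ`. -/
def Tm (z₀ : P) (θ : ℝ) (z : P) : P := z₀ + (1 - θ) • (z - z₀)

lemma Tm_eq (z₀ : P) (θ : ℝ) (z : P) : Tm z₀ θ z = (1 - θ) • z + θ • z₀ := by
  unfold Tm
  rw [smul_sub, sub_smul 1 θ z₀, one_smul]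
  abel

theorem integral_comp_Tm (z₀ : P) {θ : ℝ} (hθ : θ < 1) (f : P → ℝ) :
    ∫ z, f (Tm z₀ θ z) = ((1 - θ) ^ 2)⁻¹ * ∫ z, f z := by
  have h1 : 0 < 1 - θ := by linarith
  simp_rw [Tm_eq]
  have h2 := Measure.integral_comp_smul (volume : Measure P) (fun z => f (z + θ • z₀)) (1 - θ)
  have h3 : Module.finrank ℝ P = 2 := by simp
  rw [h3, abs_of_pos (by positivity), smul_eq_mul] at h2
  rw [h2, integral_add_right_eq_self (μ := (volume : Measure P)) f (θ • z₀)]

lemma integrable_comp_Tm (z₀ : P) {θ : ℝ} (hθ : θ < 1) {f : P → ℝ} (hf : Integrable f) :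
    Integrable fun z => f (Tm z₀ θ z) := by
  have h1 : 1 - θ ≠ 0 := by linarith
  simp_rw [Tm_eq]
  have h2 : Integrable (fun z => f (z + θ • z₀)) := hf.comp_add_right _
  exact h2.comp_smul h1

lemma continuous_Tm (z₀ : P) (θ : ℝ) : Continuous (Tm z₀ θ) := by
  unfold Tm
  fun_prop

/-- The total mass of the translates of a mollifier. -/
theorem mass_le {η : ℝ} {ρ : P → ℝ} (h : IsMoll η ρ) : ∀ᶠ n : ℕ in atTop, ∀ (S : Finset V) (z : P),
    (∑ y ∈ S, ρ (z - sc n y)) / (n : ℝ) ^ 2 ≤ 2 := by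
  classical
  obtain ⟨B, hB0, hB⟩ := exists_C11 (contDiff_two_of_top h.smooth) h.compact
  set M : ℝ := volume.real (Metric.closedBall (0 : P) (η + 1)) with hM
  have hlim : Tendsto (fun n : ℕ => B * M / n) atTop (𝓝 0) :=
    tendsto_const_div_atTop_nhds_zero_nat _
  filter_upwards [hlim.eventually (gt_mem_nhds one_pos), eventually_gt_atTop 0] with n hn hn0 S z
  have hn' : (0 : ℝ) < n := by exact_mod_cast hn0
  have hn1 : (1 : ℝ) / n ≤ 1 := by
    rw [div_le_one hn']; exact_mod_cast hn0
  set g : V → ℝ := fun y => if y ∈ S then ρ (z - sc n y) else 0 with hg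
  have hgS : Supp S g := fun y hy => by rw [hg]; simp only; rw [if_neg hy]
  have e1 : (∑ y ∈ S, ρ (z - sc n y)) / (n : ℝ) ^ 2 = ∫ w, g (fl n w) := by
    rw [integral_fl hn0 S g hgS]
    congr 1
    refine Finset.sum_congr rfl fun y hy => ?_
    rw [hg]; simp only; rw [if_pos hy]
  rw [e1]
  have i1 : Integrable (fun w : P => ρ (z - w)) :=
    (h.smooth.continuous.integrable_of_hasCompactSupport h.compact).comp_sub_left z
  have hcb : volume (Metric.closedBall z (η + 1)) ≠ ⊤ :=
    (isCompact_closedBall _ _).measure_lt_top.ne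
  have i2 : Integrable ((Metric.closedBall z (η + 1)).indicator (fun _ : P => B / n)) := by
    rw [integrable_indicator_iff Metric.isClosed_closedBall.measurableSet]
    exact integrableOn_const hcb
  have key : ∀ w, g (fl n w) ≤ ρ (z - w) +
      (Metric.closedBall z (η + 1)).indicator (fun _ : P => B / n) w := by
    intro w
    have p1 := h.nonneg (z - w)
    have p2 : 0 ≤ (Metric.closedBall z (η + 1)).indicator (fun _ : P => B / n) w :=
      Set.indicator_nonneg (fun _ _ => by positivity) _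
    rw [hg]
    simp only
    split_ifs with hw
    · by_cases h0 : ρ (z - sc n (fl n w)) = 0
      · rw [h0]; linarith
      · have h1 := h.supp _ h0
        have h2 := norm_sc_fl hn0 w
        have h3 : w ∈ Metric.closedBall z (η + 1) := by
          rw [mem_closedBall_iff_norm]
          have : w - z = (w - sc n (fl n w)) + (sc n (fl n w) - z) := by abel
          rw [this]
          refine (norm_add_le _ _).trans ?_
          rw [norm_sub_rev w, norm_sub_rev _ z]
          linarith
        rw [Set.indicator_of_mem h3]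
        have h4 := hB.lip1 (z - sc n (fl n w)) (z - w)
        have h5 : z - sc n (fl n w) - (z - w) = w - sc n (fl n w) := by abel
        rw [h5, norm_sub_rev] at h4
        have h6 := (abs_le.1 h4).2
        have h7 : B * ‖sc n (fl n w) - w‖ ≤ B / n := by
          rw [div_eq_mul_one_div]
          exact mul_le_mul_of_nonneg_left h2 hB0
        linarith
    · linarith
  have h8 := integral_mono (integrable_fl hn0 S g hgS) (i1.add i2) key
  refine h8.trans ?_
  have e2 : ∫ w, (ρ (z - w) + (Metric.closedBall z (η + 1)).indicator (fun _ : P => B / n) w) =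
      1 + M * (B / n) := by
    rw [integral_add i1 i2, integral_sub_left_eq_self (fun w => ρ w) volume z, h.int,
      integral_indicator Metric.isClosed_closedBall.measurableSet, setIntegral_const, smul_eq_mul,
      measureReal_def, Measure.addHaar_closedBall_center, ← measureReal_def]
  have e3 : ∫ w, ((fun w => ρ (z - w)) + (Metric.closedBall z (η + 1)).indicator
      (fun _ : P => B / n)) w = 1 + M * (B / n) := e2
  rw [e3]
  have e4 : M * (B / n) = B * M / n := by ring
  rw [e4]
  linarith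

/-- `L²` bound of the mollified function. -/
theorem mol_l2 {η : ℝ} {ρ : P → ℝ} (h : IsMoll η ρ) : ∀ᶠ n : ℕ in atTop, ∀ (S : Finset V)
    (φ : V → ℝ), Integrable (fun z => (mol ρ n S φ z) ^ 2) ∧
      ∫ z, (mol ρ n S φ z) ^ 2 ≤ 2 * ((∑ y ∈ S, φ y ^ 2) / (n : ℝ) ^ 2) := by
  filter_upwards [mass_le h, eventually_gt_atTop 0] with n hn hn0 S φ
  have hn' : (0 : ℝ) < n := by exact_mod_cast hn0
  have hcont : Continuous (mol ρ n S φ) := (contDiff_mol h.smooth n S φ).continuous
  have hcs : HasCompactSupport (fun z => (mol ρ n S φ z) ^ 2) := by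
    have := (compact_mol h n S φ).comp_left (g := fun t : ℝ => t ^ 2) (by simp)
    exact this
  have i1 : Integrable (fun z => (mol ρ n S φ z) ^ 2) :=
    (hcont.pow 2).integrable_of_hasCompactSupport hcs
  refine ⟨i1, ?_⟩
  have i2 : ∀ y : V, Integrable (fun z : P => ρ (z - sc n y)) := fun y =>
    (h.smooth.continuous.integrable_of_hasCompactSupport h.compact).comp_sub_right _
  have i3 : Integrable (fun z : P => 2 * ((∑ y ∈ S, ρ (z - sc n y) * φ y ^ 2) / (n : ℝ) ^ 2)) := by
    refine Integrable.const_mul (Integrable.div_const ?_ _) _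
    exact integrable_finsetSum _ fun y _ => (i2 y).mul_const _
  have key : ∀ z, (mol ρ n S φ z) ^ 2 ≤
      2 * ((∑ y ∈ S, ρ (z - sc n y) * φ y ^ 2) / (n : ℝ) ^ 2) := by
    intro z
    unfold mol
    have h1 : (∑ y ∈ S, ρ (z - sc n y) * φ y) ^ 2 ≤
        (∑ y ∈ S, ρ (z - sc n y)) * ∑ y ∈ S, ρ (z - sc n y) * φ y ^ 2 := by
      have e : ∑ y ∈ S, ρ (z - sc n y) * φ y =
          ∑ y ∈ S, Real.sqrt (ρ (z - sc n y)) * (Real.sqrt (ρ (z - sc n y)) * φ y) := by
        refine Finset.sum_congr rfl fun y _ => ?_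
        rw [← mul_assoc, Real.mul_self_sqrt (h.nonneg _)]
      rw [e]
      refine (Finset.sum_mul_sq_le_sq_mul_sq _ _ _).trans (le_of_eq ?_)
      congr 1
      · exact Finset.sum_congr rfl fun y _ => Real.sq_sqrt (h.nonneg _)
      · refine Finset.sum_congr rfl fun y _ => ?_
        rw [mul_pow, Real.sq_sqrt (h.nonneg _)]
    have h2 := hn S z
    have h3 : 0 ≤ (∑ y ∈ S, ρ (z - sc n y) * φ y ^ 2) / (n : ℝ) ^ 2 :=
      div_nonneg (Finset.sum_nonneg fun y _ => mul_nonneg (h.nonneg _) (sq_nonneg _))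
        (by positivity)
    calc ((∑ y ∈ S, ρ (z - sc n y) * φ y) / (n : ℝ) ^ 2) ^ 2
        = (∑ y ∈ S, ρ (z - sc n y) * φ y) ^ 2 / ((n : ℝ) ^ 2) ^ 2 := by rw [div_pow]
      _ ≤ ((∑ y ∈ S, ρ (z - sc n y)) * ∑ y ∈ S, ρ (z - sc n y) * φ y ^ 2) / ((n : ℝ) ^ 2) ^ 2 :=
          div_le_div_of_nonneg_right h1 (by positivity)
      _ = ((∑ y ∈ S, ρ (z - sc n y)) / (n : ℝ) ^ 2) *
          ((∑ y ∈ S, ρ (z - sc n y) * φ y ^ 2) / (n : ℝ) ^ 2) := by
          rw [div_mul_div_comm]; ring
      _ ≤ 2 * ((∑ y ∈ S, ρ (z - sc n y) * φ y ^ 2) / (n : ℝ) ^ 2) :=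
          mul_le_mul_of_nonneg_right h2 h3
  refine (integral_mono i1 i3 key).trans (le_of_eq ?_)
  rw [integral_const_mul, integral_div, integral_finsetSum _ fun y _ => (i2 y).mul_const _]
  congr 2
  refine Finset.sum_congr rfl fun y _ => ?_
  rw [integral_mul_const, integral_sub_right_eq_self (fun w => ρ w) (sc n y), h.int, one_mul]

end Pool.Agent.LR.B3
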