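import Pool.Agent.LR.B3.PairA

/-! # LR project, block B3: pairing of charges with mollified functions. -/

set_option autoImplicit false

noncomputable section

open scoped BigOperators Topology
open MeasureTheory Filter Set

namespace Pool.Agent.LR.B3

lemma integrable_moll {η : ℝ} {ρ : P → ℝ} (h : IsMoll η ρ) : Integrable ρ :=
  h.smooth.continuous.integrable_of_hasCompactSupport h.compact

lemma integrable_moll_Tm {η : ℝ} {ρ : P → ℝ} (h : IsMoll η ρ) (z₀ : P) {θ : ℝ} (hθ : θ < 1)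
    (w : P) : Integrable fun z => ρ (Tm z₀ θ z - w) :=
  integrable_comp_Tm z₀ hθ (f := fun z => ρ (z - w)) ((integrable_moll h).comp_sub_right w)

lemma integral_moll_Tm {η : ℝ} {ρ : P → ℝ} (h : IsMoll η ρ) (z₀ : P) {θ : ℝ} (hθ : θ < 1)
    (w : P) : ∫ z, ρ (Tm z₀ θ z - w) = ((1 - θ) ^ 2)⁻¹ := by
  rw [integral_comp_Tm z₀ hθ (fun z => ρ (z - w)), integral_sub_right_eq_self (fun w => ρ w) w,
    h.int, mul_one]

/-- Smoothing a continuous function with compact support changes it little. -/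
theorem cont_est {G : P → ℝ} (hG : Continuous G) (hc : HasCompactSupport G) (z₀ : P) {K : ℝ}
    (hK : 0 ≤ K) {ε : ℝ} (hε : 0 < ε) : ∃ δ > 0, δ ≤ 1 / 2 ∧ ∀ θ, 0 ≤ θ → θ ≤ δ → ∀ η, 0 < η →
      η ≤ δ → ∀ ρ, IsMoll η ρ → ∀ w, ‖w‖ ≤ K →
      |(∫ z, G z * ρ (Tm z₀ θ z - w)) - G w| ≤ ε := by
  obtain ⟨M, hM0, hM⟩ := bound_of_compact G hG hc
  have huc : UniformContinuous G := hc.uniformContinuous_of_continuous hG
  rw [Metric.uniformContinuous_iff] at huc
  obtain ⟨δ1, hδ1, hu⟩ := huc (ε / 8) (by positivity)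
  set L : ℝ := 2 * (K + 1 + ‖z₀‖) + 1 with hL
  have hL0 : 0 < L := by have := norm_nonneg z₀; positivity
  refine ⟨min (1 / 2) (min (δ1 / (2 * L)) (ε / (16 * (M + 1)))), by positivity,
    min_le_left _ _, ?_⟩
  intro θ hθ0 hθ η hη0 hη ρ hρ w hw
  have hθ1 : θ ≤ 1 / 2 := hθ.trans (min_le_left _ _)
  have hη1 : η ≤ 1 / 2 := hη.trans (min_le_left _ _)
  have hθ2 : θ ≤ δ1 / (2 * L) := hθ.trans ((min_le_right _ _).trans (min_le_left _ _))
  have hη2 : η ≤ δ1 / (2 * L) := hη.trans ((min_le_right _ _).trans (min_le_left _ _))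
  have hθ3 : θ ≤ ε / (16 * (M + 1)) := hθ.trans ((min_le_right _ _).trans (min_le_right _ _))
  rw [le_div_iff₀ (by positivity)] at hθ2 hη2 hθ3
  have hlt : θ < 1 := by linarith
  set lam : ℝ := ((1 - θ) ^ 2)⁻¹ with hlam
  have hlam4 : lam ≤ 4 := by
    rw [hlam, inv_le_comm₀ (by nlinarith) (by norm_num)]
    nlinarith
  have hlam0 : 0 < lam := by rw [hlam]; exact inv_pos.2 (by nlinarith)
  have hlam1 : |lam - 1| ≤ 8 * θ := by
    have e : lam - 1 = θ * (2 - θ) * lam := by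
      have h0 : (1 - θ) ^ 2 ≠ 0 := by nlinarith
      have h1 : (1 - θ) ^ 2 * lam = 1 := mul_inv_cancel₀ h0
      linear_combination h1
    rw [e, abs_of_nonneg (by have : 0 ≤ 2 - θ := by linarith
                             positivity)]
    have : θ * (2 - θ) ≤ 2 * θ := by nlinarith
    nlinarith
  have i1 : Integrable fun z => ρ (Tm z₀ θ z - w) := integrable_moll_Tm hρ z₀ hlt w
  have hGi : Integrable G := hG.integrable_of_hasCompactSupport hc
  have hcr : Continuous fun z => ρ (Tm z₀ θ z - w) :=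
    hρ.smooth.continuous.comp ((continuous_Tm z₀ θ).sub continuous_const)
  have i2 : Integrable fun z => G z * ρ (Tm z₀ θ z - w) := by
    have := (hG.mul hcr).integrable_of_hasCompactSupport (μ := (volume : Measure P))
      (hc.mul_right (f' := fun z => ρ (Tm z₀ θ z - w)))
    exact this
  have i3 : Integrable fun z => (G z - G w) * ρ (Tm z₀ θ z - w) := by
    have e : (fun z => (G z - G w) * ρ (Tm z₀ θ z - w)) =
        fun z => G z * ρ (Tm z₀ θ z - w) - G w * ρ (Tm z₀ θ z - w) := by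
      funext z; ring
    rw [e]
    exact i2.sub (i1.const_mul _)
  have e1 : (∫ z, G z * ρ (Tm z₀ θ z - w)) - G w =
      (∫ z, (G z - G w) * ρ (Tm z₀ θ z - w)) + G w * (lam - 1) := by
    have e : ∀ z, (G z - G w) * ρ (Tm z₀ θ z - w) =
        G z * ρ (Tm z₀ θ z - w) - G w * ρ (Tm z₀ θ z - w) := fun z => by ring
    simp_rw [e]
    rw [integral_sub i2 (i1.const_mul _), integral_const_mul, integral_moll_Tm hρ z₀ hlt w]
    ring
  have h1 : ∀ z, ‖(G z - G w) * ρ (Tm z₀ θ z - w)‖ ≤ ε / 8 * ρ (Tm z₀ θ z - w) := by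
    intro z
    rw [norm_mul, Real.norm_of_nonneg (hρ.nonneg _)]
    by_cases h0 : ρ (Tm z₀ θ z - w) = 0
    · rw [h0]; simp
    · refine mul_le_mul_of_nonneg_right ?_ (hρ.nonneg _)
      have h2 := hρ.supp _ h0
      have h3 : (1 - θ) * ‖z - z₀‖ ≤ η + K + ‖z₀‖ := by
        have e : (1 - θ) • (z - z₀) = (Tm z₀ θ z - w) + w - z₀ := by
          unfold Tm; abel
        have h4 : ‖(1 - θ) • (z - z₀)‖ ≤ ‖Tm z₀ θ z - w‖ + ‖w‖ + ‖z₀‖ := by
          rw [e]
          exact (norm_sub_le _ _).trans (by gcongr; exact norm_add_le _ _)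
        rw [norm_smul, Real.norm_of_nonneg (by linarith)] at h4
        linarith
      have h5 : ‖z - w‖ < δ1 := by
        have e : z - w = θ • (z - z₀) + (Tm z₀ θ z - w) := by
          unfold Tm
          rw [sub_smul, one_smul]
          abel
        have h6 : ‖z - w‖ ≤ θ * ‖z - z₀‖ + ‖Tm z₀ θ z - w‖ := by
          rw [e]
          refine (norm_add_le _ _).trans ?_
          rw [norm_smul, Real.norm_of_nonneg hθ0]
        have h7 : ‖z - z₀‖ ≤ 2 * (K + 1 + ‖z₀‖) := by
          have := norm_nonneg (z - z₀)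
          nlinarith
        have h8 : θ * ‖z - z₀‖ ≤ θ * (2 * (K + 1 + ‖z₀‖)) := mul_le_mul_of_nonneg_left h7 hθ0
        have h9 : θ * (2 * (K + 1 + ‖z₀‖)) + η ≤ δ1 / 2 + δ1 / 2 := by
          have hz := norm_nonneg z₀
          nlinarith
        linarith
      have h10 := hu (show dist z w < δ1 by rw [dist_eq_norm]; exact h5)
      rw [Real.dist_eq] at h10
      rw [Real.norm_eq_abs]
      exact h10.le
  have h2 : |∫ z, (G z - G w) * ρ (Tm z₀ θ z - w)| ≤ ε / 8 * lam := by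
    rw [← Real.norm_eq_abs]
    refine (norm_integral_le_of_norm_le (i1.const_mul _) (Eventually.of_forall h1)).trans ?_
    rw [integral_const_mul, integral_moll_Tm hρ z₀ hlt w]
  rw [e1]
  refine (abs_add_le _ _).trans ?_
  have h3 : |G w * (lam - 1)| ≤ M * (8 * θ) := by
    rw [abs_mul]
    exact mul_le_mul (hM w) hlam1 (abs_nonneg _) hM0
  have h4 : M * (8 * θ) ≤ ε / 2 := by nlinarith
  have h5 : ε / 8 * lam ≤ ε / 2 := by nlinarith
  linarith

end Pool.Agent.LR.B3
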