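import Pool.Agent.LR.B3.PairB

/-! # LR project, block B3: pairing of charges with mollified functions. -/

set_option autoImplicit false

noncomputable section

open scoped BigOperators Topology
open MeasureTheory Filter Set

namespace Pool.Agent.LR.B3

/-- Macroscopic charges (neutral or not) with density `F`. -/
structure Chg (a b c d : ℝ) (q : ℕ → V → ℝ) (F : P → ℝ) : Prop where
  supp : ∀ n, Supp (bx a b c d n) (q n)
  bd : ∃ C, ∀ n x, |q n x| ≤ C / (n : ℝ) ^ 2
  conv : ∀ᵐ z : P, Tendsto (fun n : ℕ => (n : ℝ) ^ 2 * q n (fl n z)) atTop (𝓝 (F z))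

/-- Facts about the density: measurable, bounded, zero outside of the rectangle. -/
theorem Chg.props {a b c d : ℝ} {q : ℕ → V → ℝ} {F : P → ℝ} (h : Chg a b c d q F) :
    AEStronglyMeasurable F volume ∧ (∃ C, 0 ≤ C ∧ ∀ᵐ z, |F z| ≤ C) ∧
      ∀ᵐ z, z ∉ rct a b c d → F z = 0 := by
  obtain ⟨C, hC⟩ := h.bd
  have hC0 : 0 ≤ C := by
    have h1 := hC 1 0
    have h2 := abs_nonneg (q 1 0)
    simp at h1
    linarith
  refine ⟨?_, ⟨C, hC0, ?_⟩, ?_⟩
  · refine aestronglyMeasurable_of_tendsto_ae atTop (f := fun (n : ℕ) (z : P) =>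
      (n : ℝ) ^ 2 * q n (fl n z)) (fun n => ?_) h.conv
    refine (Measurable.const_mul ?_ _).aestronglyMeasurable
    exact (measurable_of_countable (q n)).comp (measurable_fl n)
  · filter_upwards [h.conv] with z hz
    refine le_of_tendsto hz.abs ?_
    filter_upwards [eventually_gt_atTop 0] with n hn
    have hn' : (0 : ℝ) < n := by exact_mod_cast hn
    rw [abs_mul, abs_of_pos (by positivity)]
    have := hC n (fl n z)
    rw [le_div_iff₀ (by positivity)] at this
    linarith
  · filter_upwards [h.conv] with z hz hout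
    refine tendsto_nhds_unique hz ?_
    refine tendsto_const_nhds.congr' ?_
    filter_upwards [ev_not_mem_bx hout] with n hn
    rw [h.supp n _ hn, mul_zero]

theorem Chg.memLp {a b c d : ℝ} {q : ℕ → V → ℝ} {F : P → ℝ} (h : Chg a b c d q F) (p : ENNReal) :
    MemLp F p volume := by
  obtain ⟨hm, ⟨C, hC0, hC⟩, h0⟩ := h.props
  have e : F =ᵐ[volume] (rct a b c d).indicator F := by
    filter_upwards [h0] with z hz
    by_cases hz' : z ∈ rct a b c d
    · rw [Set.indicator_of_mem hz']
    · rw [Set.indicator_of_notMem hz', hz hz']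
  rw [memLp_congr_ae e, memLp_indicator_iff_restrict (measurableSet_rct a b c d)]
  have : IsFiniteMeasure (volume.restrict (rct a b c d)) :=
    ⟨by rw [Measure.restrict_apply_univ]; exact volume_rct_lt_top a b c d⟩
  refine MemLp.of_bound hm.restrict C ?_
  exact (ae_restrict_of_ae hC)

/-- Approximation of the density by a continuous function with compact support. -/
theorem Chg.exists_approx {a b c d : ℝ} {q : ℕ → V → ℝ} {F : P → ℝ} (h : Chg a b c d q F)
    {e₀ : ℝ} (he : 0 < e₀) : ∃ G : P → ℝ, Continuous G ∧ HasCompactSupport G ∧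
      Integrable (fun z => (F z - G z) ^ 2) ∧ ∫ z, (F z - G z) ^ 2 ≤ e₀ ∧
      ∀ᶠ n : ℕ in atTop, (∑ x ∈ bx a b c d n, ((n : ℝ) ^ 2 * q n x - G (sc n x)) ^ 2) /
        (n : ℝ) ^ 2 ≤ 2 * e₀ := by
  classical
  have h2 := h.memLp (ENNReal.ofReal 2)
  obtain ⟨G, hGc, hGi, hG, hGL⟩ := h2.exists_hasCompactSupport_integral_rpow_sub_le
    (by norm_num) he
  have e1 : ∀ z, ‖F z - G z‖ ^ (2 : ℝ) = (F z - G z) ^ 2 := by
    intro z
    rw [Real.rpow_two, Real.norm_eq_abs, sq_abs]
  simp_rw [e1] at hGi
  have hint : Integrable (fun z => (F z - G z) ^ 2) := by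
    have h3 : MemLp (fun z => F z - G z) (ENNReal.ofReal 2) volume := h2.sub hGL
    have h4 : MemLp (fun z => F z - G z) 2 volume := by
      have : ENNReal.ofReal 2 = 2 := by norm_num
      rwa [this] at h3
    exact h4.integrable_sq
  refine ⟨G, hG, hGc, hint, hGi, ?_⟩
  obtain ⟨C, hC⟩ := h.bd
  obtain ⟨M, hM0, hM⟩ := bound_of_compact G hG hGc
  obtain ⟨K, hK0, hK⟩ := bx_bound a b c d
  have hC0 : 0 ≤ C := by
    have h1 := hC 1 0
    have h2 := abs_nonneg (q 1 0)
    simp at h1
    linarith
  set g : ℕ → V → ℝ := fun n x => if x ∈ bx a b c d n then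
    ((n : ℝ) ^ 2 * q n x - G (sc n x)) ^ 2 else 0 with hg
  have hlim := tendsto_sum g ((rct a b c d).indicator (fun z => (F z - G z) ^ 2))
    (fun n => bx a b c d n) ((C + M) ^ 2) K
    (Eventually.of_forall fun n x hx => by rw [hg]; simp only; rw [if_neg hx])
    (by
      filter_upwards [eventually_gt_atTop 0] with n hn x
      have hn' : (0 : ℝ) < n := by exact_mod_cast hn
      rw [hg]; simp only
      split_ifs
      · rw [abs_of_nonneg (sq_nonneg _), ← sq_abs]
        refine pow_le_pow_left₀ (abs_nonneg _) ?_ 2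
        refine (abs_sub _ _).trans ?_
        have t1 : |(n : ℝ) ^ 2 * q n x| ≤ C := by
          rw [abs_mul, abs_of_pos (by positivity)]
          have := hC n x
          rw [le_div_iff₀ (by positivity)] at this
          linarith
        have t2 := hM (sc n x)
        rw [Real.norm_eq_abs] at t2
        linarith
      · rw [abs_zero]; positivity)
    (Eventually.of_forall fun n x hx => by
      rw [hg] at hx; simp only at hx
      split_ifs at hx with hx'
      · exact hK n x hx'
      · exact absurd rfl hx)
    (by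
      filter_upwards [h.conv, ae_rct a b c d] with z hz hz'
      rcases hz' with hz' | hz'
      · have hz'' : z ∈ rct a b c d := by
          rw [mem_rco] at hz'
          rw [mem_rct]
          exact ⟨⟨hz'.1.1.le, hz'.1.2.le⟩, hz'.2.1.le, hz'.2.2.le⟩
        rw [Set.indicator_of_mem hz'']
        have t := (hz.sub ((hG.tendsto z).comp (tendsto_sc_fl z))).pow 2
        refine t.congr' ?_
        filter_upwards [ev_mem_bx' hz'] with n hn
        rw [hg]; simp only
        rw [if_pos hn]
        rfl
      · rw [Set.indicator_of_notMem hz']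
        refine tendsto_const_nhds.congr' ?_
        filter_upwards [ev_not_mem_bx hz'] with n hn
        rw [hg]; simp only
        rw [if_neg hn])
  have hle : ∫ z, (rct a b c d).indicator (fun z => (F z - G z) ^ 2) z ≤ e₀ := by
    rw [integral_indicator (measurableSet_rct a b c d)]
    refine le_trans (setIntegral_le_integral hint (Eventually.of_forall fun z => sq_nonneg _)) hGi
  have h5 := hlim.eventually (gt_mem_nhds (show ∫ z, (rct a b c d).indicator
    (fun z => (F z - G z) ^ 2) z < 2 * e₀ by linarith))
  filter_upwards [h5] with n hn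
  refine le_trans (le_of_eq ?_) hn.le
  congr 1
  refine Finset.sum_congr rfl fun x hx => ?_
  rw [hg]; simp only
  rw [if_pos hx]

/-- Pairing of a charge with a continuous function. -/
theorem Chg.pair_cont {a b c d : ℝ} {q : ℕ → V → ℝ} {F : P → ℝ} (h : Chg a b c d q F)
    {G : P → ℝ} (hG : Continuous G) :
    Tendsto (fun n => pr (bx a b c d n) (q n) (smp G n)) atTop
      (𝓝 (∫ z in rct a b c d, F z * G z)) := by
  classical
  obtain ⟨C, hC⟩ := h.bd
  obtain ⟨K, hK0, hK⟩ := bx_bound a b c d
  obtain ⟨M, hM⟩ := (isCompact_rct a b c d).exists_bound_of_continuousOn hG.continuousOn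
  have hC0 : 0 ≤ C := by
    have h1 := hC 1 0
    have h2 := abs_nonneg (q 1 0)
    simp at h1
    linarith
  set g : ℕ → V → ℝ := fun n x => if x ∈ bx a b c d n then
    (n : ℝ) ^ 2 * q n x * G (sc n x) else 0 with hg
  have hlim := tendsto_sum g ((rct a b c d).indicator (fun z => F z * G z))
    (fun n => bx a b c d n) (C * max M 0) K
    (Eventually.of_forall fun n x hx => by rw [hg]; simp only; rw [if_neg hx])
    (by
      filter_upwards [eventually_gt_atTop 0] with n hn x
      have hn' : (0 : ℝ) < n := by exact_mod_cast hn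
      rw [hg]; simp only
      split_ifs with hx
      · rw [abs_mul]
        have t1 : |(n : ℝ) ^ 2 * q n x| ≤ C := by
          rw [abs_mul, abs_of_pos (by positivity)]
          have := hC n x
          rw [le_div_iff₀ (by positivity)] at this
          linarith
        have t2 := hM (sc n x) (sc_mem_rct hn hx)
        rw [Real.norm_eq_abs] at t2
        exact mul_le_mul t1 (t2.trans (le_max_left _ _)) (abs_nonneg _) hC0
      · rw [abs_zero]; positivity)
    (Eventually.of_forall fun n x hx => by
      rw [hg] at hx; simp only at hx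
      split_ifs at hx with hx'
      · exact hK n x hx'
      · exact absurd rfl hx)
    (by
      filter_upwards [h.conv, ae_rct a b c d] with z hz hz'
      rcases hz' with hz' | hz'
      · have hz'' : z ∈ rct a b c d := by
          rw [mem_rco] at hz'
          rw [mem_rct]
          exact ⟨⟨hz'.1.1.le, hz'.1.2.le⟩, hz'.2.1.le, hz'.2.2.le⟩
        rw [Set.indicator_of_mem hz'']
        have t := hz.mul ((hG.tendsto z).comp (tendsto_sc_fl z))
        refine t.congr' ?_
        filter_upwards [ev_mem_bx' hz'] with n hn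
        rw [hg]; simp only
        rw [if_pos hn]
        rfl
      · rw [Set.indicator_of_notMem hz']
        refine tendsto_const_nhds.congr' ?_
        filter_upwards [ev_not_mem_bx hz'] with n hn
        rw [hg]; simp only
        rw [if_neg hn])
  rw [integral_indicator (measurableSet_rct a b c d)] at hlim
  refine hlim.congr' ?_
  filter_upwards [eventually_gt_atTop 0] with n hn
  have hn' : (0 : ℝ) < n := by exact_mod_cast hn
  unfold pr
  rw [Finset.sum_div]
  refine Finset.sum_congr rfl fun x hx => ?_
  rw [hg]; simp only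
  rw [if_pos hx]
  unfold smp
  field_simp

end Pool.Agent.LR.B3
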