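import Pool.Agent.LR.B3.PairC

/-! # LR project, block B3: pairing of charges with mollified functions (uniform estimate). -/

set_option autoImplicit false

noncomputable section

open scoped BigOperators Topology
open MeasureTheory Filter Set

namespace Pool.Agent.LR.B3

/-- A cheap Cauchy-Schwarz inequality. -/
lemma abs_integral_mul_le {f g : P → ℝ} (hf : Integrable (fun z => f z ^ 2))
    (hg : Integrable (fun z => g z ^ 2)) {t : ℝ} (ht : 0 < t) :
    |∫ z, f z * g z| ≤ (t * (∫ z, f z ^ 2) + (∫ z, g z ^ 2) / t) / 2 := by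
  rw [← Real.norm_eq_abs]
  have h1 : ∀ z, ‖f z * g z‖ ≤ (t * f z ^ 2 + g z ^ 2 / t) / 2 := by
    intro z
    rw [Real.norm_eq_abs, abs_mul]
    have h2 := two_mul_le_add_sq (Real.sqrt t * |f z|) (|g z| / Real.sqrt t)
    have h3 : 0 < Real.sqrt t := Real.sqrt_pos.2 ht
    have e1 : 2 * (Real.sqrt t * |f z|) * (|g z| / Real.sqrt t) = 2 * (|f z| * |g z|) := by
      field_simp
    have e2 : (Real.sqrt t * |f z|) ^ 2 = t * f z ^ 2 := by
      rw [mul_pow, Real.sq_sqrt ht.le, sq_abs]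
    have e3 : (|g z| / Real.sqrt t) ^ 2 = g z ^ 2 / t := by
      rw [div_pow, Real.sq_sqrt ht.le, sq_abs]
    rw [e1, e2, e3] at h2
    linarith
  have hi : Integrable (fun z => (t * f z ^ 2 + g z ^ 2 / t) / 2) :=
    ((hf.const_mul t).add (hg.div_const t)).div_const 2
  refine (norm_integral_le_of_norm_le hi (Eventually.of_forall h1)).trans (le_of_eq ?_)
  rw [integral_div, integral_add (hf.const_mul t) (hg.div_const t), integral_const_mul,
    integral_div]

/-- **Uniform pairing estimate.** -/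
theorem Chg.pair_est {a b c d : ℝ} {q : ℕ → V → ℝ} {F : P → ℝ} (h : Chg a b c d q F) (z₀ : P)
    {T : ℝ} (hT : 0 ≤ T) {ε : ℝ} (hε : 0 < ε) : ∃ δ > 0, δ ≤ 1 / 2 ∧ ∀ θ, 0 ≤ θ → θ ≤ δ →
      ∀ η, 0 < η → η ≤ δ → ∀ ρ, IsMoll η ρ → ∀ᶠ n : ℕ in atTop, ∀ φ : V → ℝ,
      (∑ x ∈ bx a b c d n, φ x ^ 2) / (n : ℝ) ^ 2 ≤ T →
      |pr (bx a b c d n) (q n) φ - ∫ z, F z * mol ρ n (bx a b c d n) φ (Tm z₀ θ z)| ≤ ε := by
  classical
  set e₀ : ℝ := ε ^ 2 / (128 * (T + 1)) with he₀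
  have he0 : 0 < e₀ := by positivity
  obtain ⟨G, hG, hGc, hGi, hGle, hGn⟩ := h.exists_approx he0
  obtain ⟨K, hK0, hK⟩ := bx_bound a b c d
  obtain ⟨A, hA0, hA⟩ := card_bx_bound a b c d
  set ε1 : ℝ := ε / (4 * (Real.sqrt (A * T) + 1)) with hε1
  have hε10 : 0 < ε1 := by positivity
  obtain ⟨δ, hδ0, hδ1, hδ⟩ := cont_est hG hGc z₀ hK0 hε10
  refine ⟨δ, hδ0, hδ1, ?_⟩
  intro θ hθ0 hθ η hη0 hη ρ hρ
  have hlt : θ < 1 := by linarith
  obtain ⟨hFm, ⟨CF, hCF0, hCF⟩, hF0⟩ := h.props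
  filter_upwards [hGn, mol_l2 hρ, eventually_gt_atTop 0] with n hGn hl2 hn φ hφ
  have hn' : (0 : ℝ) < n := by exact_mod_cast hn
  set S := bx a b c d n with hS
  have hF2 : Integrable (fun z => F z ^ 2) := (h.memLp 2).integrable_sq
  have hF1 : Integrable F := by
    have := h.memLp 1
    exact memLp_one_iff_integrable.1 this
  have hmc : Continuous fun z => mol ρ n S φ (Tm z₀ θ z) :=
    (contDiff_mol hρ.smooth n S φ).continuous.comp (continuous_Tm z₀ θ)
  obtain ⟨i1, l1⟩ := hl2 S φ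
  have i2 : Integrable fun z => (mol ρ n S φ (Tm z₀ θ z)) ^ 2 :=
    integrable_comp_Tm z₀ hlt (f := fun z => (mol ρ n S φ z) ^ 2) i1
  obtain ⟨Mm, hMm0, hMm⟩ := bound_of_compact (mol ρ n S φ)
    (contDiff_mol hρ.smooth n S φ).continuous (compact_mol hρ n S φ)
  -- integrability of the products
  have hGint : Integrable G := hG.integrable_of_hasCompactSupport hGc
  have j1 : Integrable fun z => F z * mol ρ n S φ (Tm z₀ θ z) :=
    hF1.mul_bdd hmc.aestronglyMeasurable (Eventually.of_forall fun z => hMm _)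
  have j2 : Integrable fun z => G z * mol ρ n S φ (Tm z₀ θ z) :=
    hGint.mul_bdd hmc.aestronglyMeasurable (Eventually.of_forall fun z => hMm _)
  -- (iv)
  have k4 : |∫ z, (G z - F z) * mol ρ n S φ (Tm z₀ θ z)| ≤ ε / 4 := by
    have t1 : ∀ z, (G z - F z) ^ 2 = (F z - G z) ^ 2 := fun z => by ring
    have i3 : Integrable (fun z => (G z - F z) ^ 2) := by simp_rw [t1]; exact hGi
    have t0 : 0 < 32 * (T + 1) / ε := by positivity
    have h1 := abs_integral_mul_le (f := fun z => G z - F z)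
      (g := fun z => mol ρ n S φ (Tm z₀ θ z)) i3 i2 t0
    simp_rw [t1] at h1
    refine h1.trans ?_
    have h2 : ∫ z, (mol ρ n S φ (Tm z₀ θ z)) ^ 2 ≤ 8 * (T + 1) := by
      rw [integral_comp_Tm z₀ hlt (fun z => (mol ρ n S φ z) ^ 2)]
      have h3 : ((1 - θ) ^ 2)⁻¹ ≤ 4 := by
        rw [inv_le_comm₀ (by nlinarith) (by norm_num)]
        nlinarith
      have h4 : 0 ≤ ∫ z, (mol ρ n S φ z) ^ 2 := integral_nonneg fun z => sq_nonneg _
      have h5 : ∫ z, (mol ρ n S φ z) ^ 2 ≤ 2 * T := l1.trans (by linarith)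
      nlinarith
    have h6 : 32 * (T + 1) / ε * ∫ z, (F z - G z) ^ 2 ≤ ε / 4 := by
      refine (mul_le_mul_of_nonneg_left hGle t0.le).trans (le_of_eq ?_)
      rw [he₀]
      field_simp
      norm_num
    have h7 : (∫ z, (mol ρ n S φ (Tm z₀ θ z)) ^ 2) / (32 * (T + 1) / ε) ≤ ε / 4 := by
      rw [div_le_iff₀ t0]
      refine h2.trans (le_of_eq ?_)
      field_simp
      norm_num
    linarith
  -- (iii)
  have k3 : ∫ z, G z * mol ρ n S φ (Tm z₀ θ z) =
      (∑ y ∈ S, (∫ z, G z * ρ (Tm z₀ θ z - sc n y)) * φ y) / (n : ℝ) ^ 2 := by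
    have e1 : ∀ z, G z * mol ρ n S φ (Tm z₀ θ z) =
        (∑ y ∈ S, G z * ρ (Tm z₀ θ z - sc n y) * φ y) / (n : ℝ) ^ 2 := by
      intro z
      unfold mol
      rw [mul_div_assoc', Finset.mul_sum]
      congr 1
      refine Finset.sum_congr rfl fun y _ => by ring
    simp_rw [e1]
    rw [integral_div, integral_finsetSum]
    · congr 1
      refine Finset.sum_congr rfl fun y _ => ?_
      rw [integral_mul_const]
    · intro y _
      refine Integrable.mul_const ?_ _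
      have hcr : Continuous fun z => ρ (Tm z₀ θ z - sc n y) :=
        hρ.smooth.continuous.comp ((continuous_Tm z₀ θ).sub continuous_const)
      have := (hG.mul hcr).integrable_of_hasCompactSupport (μ := (volume : Measure P))
        (hGc.mul_right (f' := fun z => ρ (Tm z₀ θ z - sc n y)))
      exact this
  -- (i)
  have hφ0 : 0 ≤ ∑ x ∈ S, φ x ^ 2 := Finset.sum_nonneg fun _ _ => sq_nonneg _
  have k1 : |∑ y ∈ S, (q n y - G (sc n y) / (n : ℝ) ^ 2) * φ y| ≤ ε / 4 := by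
    have h1 := Finset.sum_mul_sq_le_sq_mul_sq S (fun y => (n : ℝ) ^ 2 * q n y - G (sc n y)) φ
    have e1 : ∑ y ∈ S, (q n y - G (sc n y) / (n : ℝ) ^ 2) * φ y =
        (∑ y ∈ S, ((n : ℝ) ^ 2 * q n y - G (sc n y)) * φ y) / (n : ℝ) ^ 2 := by
      rw [Finset.sum_div]
      refine Finset.sum_congr rfl fun y _ => ?_
      field_simp
    rw [e1]
    refine abs_le_of_sq_le_sq ?_ (by positivity)
    rw [div_pow, div_le_iff₀ (by positivity)]
    refine h1.trans ?_
    rw [div_le_iff₀ (by positivity)] at hGn hφ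
    calc (∑ x ∈ S, ((n : ℝ) ^ 2 * q n x - G (sc n x)) ^ 2) * ∑ x ∈ S, φ x ^ 2
        ≤ (2 * e₀ * (n : ℝ) ^ 2) * (T * (n : ℝ) ^ 2) :=
          mul_le_mul hGn hφ hφ0 (by positivity)
      _ = (2 * e₀ * T) * ((n : ℝ) ^ 2) ^ 2 := by ring
      _ ≤ (ε / 4) ^ 2 * ((n : ℝ) ^ 2) ^ 2 := by
          refine mul_le_mul_of_nonneg_right ?_ (by positivity)
          rw [he₀]
          have : 2 * (ε ^ 2 / (128 * (T + 1))) * T ≤ 2 * (ε ^ 2 / (128 * (T + 1))) * (T + 1) :=
            mul_le_mul_of_nonneg_left (by linarith) (by positivity)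
          refine this.trans ?_
          have e : 2 * (ε ^ 2 / (128 * (T + 1))) * (T + 1) = ε ^ 2 / 64 := by
            field_simp
            norm_num
          rw [e]
          nlinarith [sq_nonneg ε]
  -- (ii)
  have k2 : |(∑ y ∈ S, (G (sc n y) - ∫ z, G z * ρ (Tm z₀ θ z - sc n y)) * φ y) / (n : ℝ) ^ 2| ≤
      ε / 4 := by
    rw [abs_div, abs_of_pos (by positivity : (0 : ℝ) < (n : ℝ) ^ 2)]
    have h1 : |∑ y ∈ S, (G (sc n y) - ∫ z, G z * ρ (Tm z₀ θ z - sc n y)) * φ y| ≤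
        ∑ y ∈ S, ε1 * |φ y| := by
      refine (Finset.abs_sum_le_sum_abs _ _).trans (Finset.sum_le_sum fun y hy => ?_)
      rw [abs_mul]
      refine mul_le_mul_of_nonneg_right ?_ (abs_nonneg _)
      rw [abs_sub_comm]
      refine hδ θ hθ0 hθ η hη0 hη ρ hρ (sc n y) ?_
      rw [Prod.norm_def]
      unfold sc
      simp only [Real.norm_eq_abs, abs_div, abs_of_pos hn']
      have h2 := hK n y hy
      exact max_le (by rw [div_le_iff₀ hn']; exact h2.1) (by rw [div_le_iff₀ hn']; exact h2.2)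
    rw [← Finset.mul_sum] at h1
    have h3 := l1_le hn (hA n hn) hφ
    calc |∑ y ∈ S, (G (sc n y) - ∫ z, G z * ρ (Tm z₀ θ z - sc n y)) * φ y| / (n : ℝ) ^ 2
        ≤ (ε1 * ∑ y ∈ S, |φ y|) / (n : ℝ) ^ 2 := div_le_div_of_nonneg_right h1 (by positivity)
      _ = ε1 * ((∑ y ∈ S, |φ y|) / (n : ℝ) ^ 2) := by ring
      _ ≤ ε1 * Real.sqrt (A * T) := mul_le_mul_of_nonneg_left h3 hε10.le
      _ ≤ ε1 * (Real.sqrt (A * T) + 1) := mul_le_mul_of_nonneg_left (by linarith) hε10.le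
      _ = ε / 4 := by
          rw [hε1]
          have : Real.sqrt (A * T) + 1 ≠ 0 := by positivity
          field_simp
  -- assembly
  have e2 : pr S (q n) φ - ∫ z, F z * mol ρ n S φ (Tm z₀ θ z) =
      (∑ y ∈ S, (q n y - G (sc n y) / (n : ℝ) ^ 2) * φ y) +
      ((∑ y ∈ S, (G (sc n y) - ∫ z, G z * ρ (Tm z₀ θ z - sc n y)) * φ y) / (n : ℝ) ^ 2) +
      ∫ z, (G z - F z) * mol ρ n S φ (Tm z₀ θ z) := by
    have e3 : ∫ z, (G z - F z) * mol ρ n S φ (Tm z₀ θ z) =
        (∫ z, G z * mol ρ n S φ (Tm z₀ θ z)) - ∫ z, F z * mol ρ n S φ (Tm z₀ θ z) := by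
      rw [← integral_sub j2 j1]
      refine integral_congr_ae (Eventually.of_forall fun z => ?_)
      simp only
      ring
    rw [e3, k3]
    unfold pr
    rw [Finset.sum_div, Finset.sum_div]
    have e4 : ∀ u v w : ℝ, u + v + (w - ∫ z, F z * mol ρ n S φ (Tm z₀ θ z)) =
        (u + v + w) - ∫ z, F z * mol ρ n S φ (Tm z₀ θ z) := fun u v w => by ring
    rw [e4, ← Finset.sum_add_distrib, ← Finset.sum_add_distrib]
    congr 1
    refine Finset.sum_congr rfl fun y _ => ?_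
    ring
  rw [e2]
  refine (abs_add_three _ _ _).trans ?_
  linarith

end Pool.Agent.LR.B3
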