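import Pool.Agent.LR.B3.EnergyC
import Pool.Agent.LR.B3.Moll

/-! # LR project, block B3: `qd_smp`, convergence of the Dirichlet energy. -/

set_option autoImplicit false

noncomputable section

open scoped BigOperators Topology
open MeasureTheory Filter Set

namespace Pool.Agent.LR.B3

/-- The symmetric square box. -/
abbrev sq (K : ℝ) (n : ℕ) : Finset V := bx (-K) K (-K) K n

lemma kil_le {α β : ℝ} (hα : 2 < α) (hβ : 0 ≤ β) (S : Finset V) (x : V) (R : ℝ)
    (h : ∀ y, y ∉ S → R < len (x - y)) :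
    kil α β S x ≤ ∑' v : V, (if R < len v then Jc α β v else 0) := by
  unfold kil
  rw [← (Equiv.subLeft x).tsum_eq (fun v : V => if R < len v then Jc α β v else 0)]
  have hs : Summable fun y : V => (if R < len ((Equiv.subLeft x) y) then
      Jc α β ((Equiv.subLeft x) y) else 0) := by
    refine (summable_JJ hα β x).of_nonneg_of_le (fun y => ?_) fun y => ?_
    · split_ifs
      · exact Jc_nonneg hβ _
      · exact le_rfl
    · split_ifs
      · exact le_rfl
      · exact Jc_nonneg hβ _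
  refine Summable.tsum_le_tsum (fun y => ?_) (summable_kil hα hβ S x) hs
  split_ifs with h1 h2 h2
  · exact Jc_nonneg hβ _
  · exact le_rfl
  · exact le_rfl
  · exact absurd (h y h1) h2

lemma mem_sq {K : ℝ} {n : ℕ} {x : V} : x ∈ sq K n ↔
    |(x.1 : ℝ)| ≤ K * n ∧ |(x.2 : ℝ)| ≤ K * n := by
  unfold sq
  rw [mem_bx, abs_le, abs_le]
  constructor
  · rintro ⟨⟨h1, h2⟩, h3, h4⟩
    exact ⟨⟨by linarith, by linarith⟩, by linarith, by linarith⟩
  · rintro ⟨⟨h1, h2⟩, h3, h4⟩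
    exact ⟨⟨by linarith, by linarith⟩, by linarith, by linarith⟩

lemma card_sq_le (K : ℝ) (hK : 0 ≤ K) (n : ℕ) (hn : 0 < n) :
    ((sq K n).card : ℝ) ≤ (2 * K + 1) ^ 2 * (n : ℝ) ^ 2 := by
  have hn1 : (1 : ℝ) ≤ n := by exact_mod_cast hn
  have hn0 : (0 : ℝ) < n := by linarith
  unfold sq bx
  rw [Finset.card_product, Nat.cast_mul, Int.card_Icc]
  have h1 : (((⌊(n : ℝ) * K⌋ + 1 - ⌈(n : ℝ) * -K⌉).toNat : ℕ) : ℝ) ≤ (2 * K + 1) * n := by
    have h2 : ((⌊(n : ℝ) * K⌋ + 1 - ⌈(n : ℝ) * -K⌉ : ℤ) : ℝ) ≤ (2 * K + 1) * n := by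
      push_cast
      have := Int.floor_le ((n : ℝ) * K)
      have := Int.le_ceil ((n : ℝ) * -K)
      nlinarith
    have h3 : (((⌊(n : ℝ) * K⌋ + 1 - ⌈(n : ℝ) * -K⌉).toNat : ℕ) : ℝ) =
        max ((⌊(n : ℝ) * K⌋ + 1 - ⌈(n : ℝ) * -K⌉ : ℤ) : ℝ) 0 := by
      have := Int.toNat_eq_max (⌊(n : ℝ) * K⌋ + 1 - ⌈(n : ℝ) * -K⌉)
      have h4 := congrArg (fun t : ℤ => (t : ℝ)) this
      simp only [Int.cast_max, Int.cast_zero] at h4
      exact_mod_cast h4
    rw [h3]
    exact max_le h2 (by positivity)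
  calc _ ≤ ((2 * K + 1) * (n : ℝ)) * ((2 * K + 1) * n) :=
        mul_le_mul h1 h1 (Nat.cast_nonneg _) (by positivity)
    _ = _ := by ring

/-- The killing part is negligible for functions supported well inside. -/
lemma tendsto_kil {α β : ℝ} (hα : 4 < α) (hβ : 0 ≤ β) {K : ℝ} (hK : 0 ≤ K) (f : ℕ → V → ℝ) (C : ℝ)
    (hC : ∀ n x, |f n x| ≤ C) (hf : ∀ᶠ n : ℕ in atTop, Supp (sq K n) (f n)) :
    Tendsto (fun n : ℕ => ∑ x ∈ sq (K + 1) n, kil α β (sq (K + 1) n) x * (f n x) ^ 2)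
      atTop (𝓝 0) := by
  classical
  obtain ⟨C1, hC1, hC1'⟩ := tail_Jc (α := α) (s := α / 2) (by linarith) (by linarith) hβ
  have hC0 : 0 ≤ C := (abs_nonneg _).trans (hC 0 0)
  set D : ℝ := (2 * K + 1) ^ 2 * C ^ 2 * C1 * (2 : ℝ) ^ (α / 2) with hD
  have hlim : Tendsto (fun n : ℕ => D * (n : ℝ) ^ (-(α / 2 - 2))) atTop (𝓝 (D * 0)) :=
    ((tendsto_rpow_neg_atTop (by linarith : 0 < α / 2 - 2)).comp
      tendsto_natCast_atTop_atTop).const_mul D
  rw [mul_zero] at hlim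
  refine squeeze_zero' (Eventually.of_forall fun n => Finset.sum_nonneg fun x _ =>
    mul_nonneg (kil_nonneg hβ _ _) (sq_nonneg _)) ?_ hlim
  filter_upwards [hf, eventually_gt_atTop 0] with n hfn hn
  have hn0 : (0 : ℝ) < n := by exact_mod_cast hn
  have h1 : ∀ x ∈ sq K n, kil α β (sq (K + 1) n) x ≤ C1 * ((n : ℝ) / 2) ^ (-(α / 2)) := by
    intro x hx
    refine (kil_le (by linarith) hβ _ x ((n : ℝ) / 2) fun y hy => ?_).trans
      (hC1' _ (by positivity))
    rw [mem_sq] at hx hy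
    by_contra hcon
    push Not at hcon
    apply hy
    have a1 := abs_fst_le_len (x - y)
    have a2 := abs_snd_le_len (x - y)
    simp only [Prod.fst_sub, Prod.snd_sub, Int.cast_sub] at a1 a2
    have b1 : |(y.1 : ℝ)| ≤ |(x.1 : ℝ)| + |(x.1 : ℝ) - y.1| := by
      have := abs_sub (x.1 : ℝ) ((x.1 : ℝ) - y.1)
      rwa [sub_sub_cancel] at this
    have b2 : |(y.2 : ℝ)| ≤ |(x.2 : ℝ)| + |(x.2 : ℝ) - y.2| := by
      have := abs_sub (x.2 : ℝ) ((x.2 : ℝ) - y.2)
      rwa [sub_sub_cancel] at this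
    constructor
    · nlinarith [hx.1]
    · nlinarith [hx.2]
  have hsub : sq K n ⊆ sq (K + 1) n := by
    intro x hx
    rw [mem_sq] at hx ⊢
    constructor
    · nlinarith [hx.1]
    · nlinarith [hx.2]
  have h2 : ∑ x ∈ sq (K + 1) n, kil α β (sq (K + 1) n) x * (f n x) ^ 2 =
      ∑ x ∈ sq K n, kil α β (sq (K + 1) n) x * (f n x) ^ 2 := by
    symm
    refine Finset.sum_subset hsub fun x _ hx => ?_
    rw [hfn x hx]
    ring
  rw [h2]
  have hr : 0 ≤ C1 * ((n : ℝ) / 2) ^ (-(α / 2)) := by positivity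
  calc ∑ x ∈ sq K n, kil α β (sq (K + 1) n) x * (f n x) ^ 2
      ≤ ∑ x ∈ sq K n, C1 * ((n : ℝ) / 2) ^ (-(α / 2)) * C ^ 2 := by
        refine Finset.sum_le_sum fun x hx => ?_
        refine mul_le_mul (h1 x hx) ?_ (sq_nonneg _) hr
        rw [← sq_abs]
        exact pow_le_pow_left₀ (abs_nonneg _) (hC n x) 2
    _ = ((sq K n).card : ℝ) * (C1 * ((n : ℝ) / 2) ^ (-(α / 2)) * C ^ 2) := by
        rw [Finset.sum_const, nsmul_eq_mul]
    _ ≤ ((2 * K + 1) ^ 2 * (n : ℝ) ^ 2) * (C1 * ((n : ℝ) / 2) ^ (-(α / 2)) * C ^ 2) :=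
        mul_le_mul_of_nonneg_right (card_sq_le K hK n hn) (by positivity)
    _ = D * (n : ℝ) ^ (-(α / 2 - 2)) := by
        rw [hD, Real.div_rpow hn0.le (by norm_num), Real.rpow_neg (by norm_num : (0:ℝ) ≤ 2),
          div_inv_eq_mul]
        have : (n : ℝ) ^ (-(α / 2 - 2)) = (n : ℝ) ^ (-(α / 2)) * (n : ℝ) ^ 2 := by
          rw [← Real.rpow_natCast, ← Real.rpow_add hn0]
          congr 1
          push_cast
          ring
        rw [this]
        ring

end Pool.Agent.LR.B3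

namespace Pool.Agent.LR

open B3

/-- Convergence of the Dirichlet energy of sampled `C²` functions. -/
theorem qd_smp {α β : ℝ} (hα : 4 < α) (hβ : 0 < β) (H : P → ℝ) (hH : ContDiff ℝ 2 H)
    (hc : HasCompactSupport H) (Λ : ℕ → Finset V) (hΛ : ∀ᶠ n in atTop, Supp (Λ n) (smp H n)) :
    Tendsto (fun n => QD α β (Λ n) (smp H n) (smp H n)) atTop (𝓝 (cc α β * Dir H)) := by
  classical
  obtain ⟨B, hB0, hB⟩ := exists_C11 hH hc
  obtain ⟨C, hC⟩ := hc.exists_bound_of_continuous hH.continuous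
  obtain ⟨K', hK'⟩ := hc.isCompact.isBounded.exists_norm_le
  set K := max K' 0 with hKdef
  have hK : 0 ≤ K := le_max_right _ _
  have hKs : ∀ z ∈ tsupport H, ‖z‖ ≤ K := fun z hz => (hK' z hz).trans (le_max_left _ _)
  have hsup : ∀ n : ℕ, 0 < n → Supp (sq K n) (smp H n) := by
    intro n hn x hx
    have hn' : (0 : ℝ) < n := by exact_mod_cast hn
    by_contra h0
    apply hx
    have h1 := hKs _ (subset_tsupport H (show sc n x ∈ Function.support H from h0))
    rw [Prod.norm_def] at h1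
    unfold sc at h1
    simp only [Real.norm_eq_abs, abs_div, abs_of_pos hn'] at h1
    have h2 := (le_max_left _ _).trans h1
    have h3 := (le_max_right _ _).trans h1
    rw [div_le_iff₀ hn'] at h2 h3
    rw [mem_sq]
    exact ⟨h2, h3⟩
  have hsub : ∀ n, sq K n ⊆ sq (K + 1) n := by
    intro n x hx
    rw [mem_sq] at hx ⊢
    have : (0 : ℝ) ≤ n := Nat.cast_nonneg n
    constructor
    · nlinarith [hx.1]
    · nlinarith [hx.2]
  have hsup1 : ∀ n : ℕ, 0 < n → Supp (sq (K + 1) n) (smp H n) :=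
    fun n hn x hx => hsup n hn x (fun h' => hx (hsub n h'))
  have hDir : ∫ z in rct (-(K + 1)) (K + 1) (-(K + 1)) (K + 1), gsq H z = Dir H := by
    unfold Dir
    refine setIntegral_eq_integral_of_forall_compl_eq_zero fun z hz => ?_
    have hz' : z ∉ tsupport H := by
      intro h1
      apply hz
      have h2 := hKs z h1
      rw [Prod.norm_def] at h2
      have h3 := (le_max_left _ _).trans h2
      have h4 := (le_max_right _ _).trans h2
      rw [Real.norm_eq_abs, abs_le] at h3 h4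
      rw [mem_rct]
      exact ⟨⟨by linarith, by linarith⟩, by linarith, by linarith⟩
    have h5 : fderiv ℝ H z = 0 := by
      by_contra h6
      exact hz' (support_fderiv_subset ℝ h6)
    unfold gsq
    rw [h5]
    simp
  have h1 := qf_smp hα hβ.le (-(K + 1)) (K + 1) (-(K + 1)) (K + 1) hB
  rw [hDir] at h1
  have h2 := tendsto_kil hα hβ.le hK (fun n => smp H n) C (fun n x => hC _) (by
    filter_upwards [eventually_gt_atTop 0] with n hn using hsup n hn)
  have h3 := h1.add h2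
  rw [add_zero] at h3
  refine h3.congr' ?_
  filter_upwards [hΛ, eventually_gt_atTop 0] with n hΛn hn
  have e1 : QD α β (Λ n) (smp H n) (smp H n) =
      QD α β (Λ n ∪ sq (K + 1) n) (smp H n) (smp H n) :=
    QD_eq_of_subset (by linarith) hβ.le Finset.subset_union_left hΛn
  have e2 : QD α β (sq (K + 1) n) (smp H n) (smp H n) =
      QD α β (Λ n ∪ sq (K + 1) n) (smp H n) (smp H n) :=
    QD_eq_of_subset (by linarith) hβ.le Finset.subset_union_right (hsup1 n hn)
  rw [e1, ← e2, QD_self, QF_self]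

end Pool.Agent.LR
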